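import Pool.Agent.H14.PT.Box

/-!
# The weighted partition trick

`wpartition`: this is `partition_trick` of `Pool/Agent/H14/PT/Count.lean` with `P.card` replaced by
`∑ p ∈ P, v p`: copy the proof (average over all subsets `U` of the set of primes, weighted by `v`).
-/

namespace Pool.Agent.H74.TS

open Finset Pool.Agent.H14.PT

theorem part_count (Q : Finset ℕ) (w : ℕ) (p : ℕ × ℕ)
    (hp : Nat.Coprime p.1 p.2 ∧ p.1 ≠ 0 ∧ p.2 ≠ 0 ∧ (p.1 * p.2).primeFactors.card ≤ w)
    (hsub : (p.1 * p.2).primeFactors ⊆ Q) :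
    2 ^ Q.card ≤ 2 ^ w *
      (Q.powerset.filter (fun U => p.1.primeFactors ⊆ U ∧ Disjoint p.2.primeFactors U)).card := by
  classical
  obtain ⟨hcop, h10, h20, hw⟩ := hp
  have hpf : (p.1 * p.2).primeFactors = p.1.primeFactors ∪ p.2.primeFactors :=
    Nat.primeFactors_mul h10 h20
  have hdisj : Disjoint p.1.primeFactors p.2.primeFactors := Nat.Coprime.disjoint_primeFactors hcop
  have h2 : (Q \ (p.1 * p.2).primeFactors).powerset.card
      ≤ (Q.powerset.filter (fun U => p.1.primeFactors ⊆ U ∧ Disjoint p.2.primeFactors U)).card := by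
    refine Finset.card_le_card_of_injOn (fun V => V ∪ p.1.primeFactors) ?_ ?_
    · intro V hV
      have hV' : V ⊆ Q \ (p.1 * p.2).primeFactors := Finset.mem_powerset.mp (Finset.mem_coe.mp hV)
      rw [Finset.mem_coe, Finset.mem_filter, Finset.mem_powerset]
      refine ⟨?_, Finset.subset_union_right, ?_⟩
      · apply Finset.union_subset
        · exact hV'.trans Finset.sdiff_subset
        · exact (by rw [hpf] at hsub; exact Finset.subset_union_left.trans hsub)
      · rw [Finset.disjoint_union_right]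
        refine ⟨?_, hdisj.symm⟩
        rw [Finset.disjoint_left]
        intro x hx hxV
        have := hV' hxV
        rw [Finset.mem_sdiff, hpf, Finset.mem_union] at this
        exact this.2 (Or.inr hx)
    · intro V hV V' hV' hVV
      have hV1 : V ⊆ Q \ (p.1 * p.2).primeFactors := Finset.mem_powerset.mp (Finset.mem_coe.mp hV)
      have hV2 : V' ⊆ Q \ (p.1 * p.2).primeFactors :=
        Finset.mem_powerset.mp (Finset.mem_coe.mp hV')
      have hd : ∀ W : Finset ℕ, W ⊆ Q \ (p.1 * p.2).primeFactors →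
          (W ∪ p.1.primeFactors) \ p.1.primeFactors = W := by
        intro W hW
        rw [Finset.union_sdiff_right, Finset.sdiff_eq_self_iff_disjoint, Finset.disjoint_left]
        intro x hx hx2
        have := hW hx
        rw [Finset.mem_sdiff, hpf, Finset.mem_union] at this
        exact this.2 (Or.inl hx2)
      rw [← hd V hV1, ← hd V' hV2]
      simp only at hVV
      rw [hVV]
  rw [Finset.card_powerset, Finset.card_sdiff_of_subset hsub] at h2
  calc 2 ^ Q.card = 2 ^ (p.1 * p.2).primeFactors.card *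
        2 ^ (Q.card - (p.1 * p.2).primeFactors.card) := by
        rw [← pow_add, Nat.add_sub_cancel' (Finset.card_le_card hsub)]
    _ ≤ 2 ^ w * _ := Nat.mul_le_mul (Nat.pow_le_pow_right (by norm_num) hw) h2

theorem wpartition (P : Finset (ℕ × ℕ)) (w : ℕ) (v : ℕ × ℕ → ℝ) (hv : ∀ p, 0 ≤ v p)
    (hP : ∀ p ∈ P, Nat.Coprime p.1 p.2 ∧ p.1 ≠ 0 ∧ p.2 ≠ 0 ∧ (p.1 * p.2).primeFactors.card ≤ w) :
    ∃ P' ⊆ P, ∑ p ∈ P, v p ≤ 2 ^ w * ∑ p ∈ P', v p ∧ ∀ p ∈ P', ∀ p' ∈ P', Nat.Coprime p.1 p'.2 := by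
  classical
  set Q : Finset ℕ := P.biUnion (fun p => (p.1 * p.2).primeFactors) with hQ
  set PU : Finset ℕ → Finset (ℕ × ℕ) := fun U =>
    P.filter (fun p => p.1.primeFactors ⊆ U ∧ Disjoint p.2.primeFactors U) with hPU
  have hcount : (∑ p ∈ P, v p) * 2 ^ Q.card ≤ 2 ^ w * ∑ U ∈ Q.powerset, ∑ p ∈ PU U, v p := by
    have h1 : ∑ U ∈ Q.powerset, ∑ p ∈ PU U, v p
        = ∑ p ∈ P, ((Q.powerset.filter
          (fun U => p.1.primeFactors ⊆ U ∧ Disjoint p.2.primeFactors U)).card : ℝ) * v p := by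
      simp only [hPU, Finset.sum_filter]
      rw [Finset.sum_comm]
      refine Finset.sum_congr rfl fun p _ => ?_
      rw [← Finset.sum_filter, Finset.sum_const, nsmul_eq_mul]
    rw [h1, Finset.mul_sum, Finset.sum_mul]
    refine Finset.sum_le_sum fun p hp => ?_
    have hsub : (p.1 * p.2).primeFactors ⊆ Q := by
      rw [hQ]; exact Finset.subset_biUnion_of_mem (fun p : ℕ × ℕ => (p.1 * p.2).primeFactors) hp
    have h2 := part_count Q w p (hP p hp) hsub
    have h3 : (2 : ℝ) ^ Q.card ≤ 2 ^ w * ((Q.powerset.filter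
          (fun U => p.1.primeFactors ⊆ U ∧ Disjoint p.2.primeFactors U)).card : ℝ) := by
      exact_mod_cast h2
    calc v p * 2 ^ Q.card ≤ v p * (2 ^ w * ((Q.powerset.filter
          (fun U => p.1.primeFactors ⊆ U ∧ Disjoint p.2.primeFactors U)).card : ℝ)) :=
          mul_le_mul_of_nonneg_left h3 (hv p)
      _ = _ := by ring
  obtain ⟨U, hU, hmax⟩ := Finset.exists_max_image Q.powerset (fun U => ∑ p ∈ PU U, v p)
    ⟨∅, Finset.mem_powerset.mpr (Finset.empty_subset _)⟩
  have h3 : ∑ U ∈ Q.powerset, ∑ p ∈ PU U, v p ≤ 2 ^ Q.card * ∑ p ∈ PU U, v p := by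
    calc ∑ U ∈ Q.powerset, ∑ p ∈ PU U, v p ≤ ∑ _V ∈ Q.powerset, ∑ p ∈ PU U, v p :=
          Finset.sum_le_sum hmax
      _ = 2 ^ Q.card * ∑ p ∈ PU U, v p := by
          rw [Finset.sum_const, Finset.card_powerset, nsmul_eq_mul]
          push_cast
          ring
  refine ⟨PU U, Finset.filter_subset _ _, ?_, ?_⟩
  · have h4 : (∑ p ∈ P, v p) * 2 ^ Q.card ≤ (2 ^ w * ∑ p ∈ PU U, v p) * 2 ^ Q.card := by
      calc (∑ p ∈ P, v p) * 2 ^ Q.card ≤ _ := hcount
        _ ≤ 2 ^ w * (2 ^ Q.card * ∑ p ∈ PU U, v p) :=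
            mul_le_mul_of_nonneg_left h3 (by positivity)
        _ = _ := by ring
    exact le_of_mul_le_mul_right h4 (by positivity)
  · intro p hp p' hp'
    simp only [hPU, mem_filter] at hp hp'
    have h10 := (hP p hp.1).2.1
    have h20 := (hP p' hp'.1).2.2.1
    rw [← Nat.disjoint_primeFactors h10 h20]
    exact (Finset.disjoint_of_subset_right hp.2.1 hp'.2.2).symm

end Pool.Agent.H74.TS
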