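import Pool.Agent.H74.TS.Ful
import Pool.Agent.H74.TS.SumR
import Pool.Agent.H14.PT.Cls

/-!
# Sums over the classes of fractions: large and rough classes

The weighted forms of `sum_R1'`, `sum_R1` of `Pool/Agent/H14/PT/Cls.lean`.

`cond_half`: `log h2 ≥ 0` gives `log h1 + log h2 ≤ (1-ε) L`, hence
`log (2 √(h1 h2)) ≤ log 2 + (1-ε) L / 2 ≤ (1/2 - ε/4) L` (`hLε`).

`wsum_R1'`: from `wsum_rough`; `z^(-ε/16) ≤ (L^Z)^(-ε/16) ≤ L^(-25)` as `ε Z ≥ 400`, and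
`(100/ε) log (8ab) ≤ (100/ε)(3 + κ L) ≤ L` as `(100/ε) κ = 1/(1000 Z)` and `300/ε ≤ L/2` (`hLε`).
`hzL` of `wsum_rough` follows from `Z log L ≤ log z` and `Z ≥ 400/ε`.

`wsum_R1`: `4800 L^7 / L^25 ≤ 1`.
-/

namespace Pool.Agent.H74.TS

open Finset Pool.Agent.H14.PT Pool.Agent.H16

theorem cond_half {ε L h1 h2 : ℝ} {Z : ℕ} (hB : Bg ε Z L) (h1' : 1 ≤ h1) (h2' : 1 ≤ h2)
    (hc : Real.log h1 + 2 * Real.log h2 ≤ (1 - ε) * L) :
    Real.log (2 * Real.sqrt (h1 * h2)) ≤ (1 / 2 - ε / 4) * L := by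
  have h1p : 0 < h1 := by linarith
  have h2p : 0 < h2 := by linarith
  have hs : 0 < Real.sqrt (h1 * h2) := Real.sqrt_pos.mpr (mul_pos h1p h2p)
  rw [Real.log_mul (by norm_num) hs.ne', Real.log_sqrt (mul_pos h1p h2p).le,
    Real.log_mul h1p.ne' h2p.ne']
  have e1 := Real.log_two_lt_d9
  have e2 : 0 ≤ Real.log h2 := Real.log_nonneg h2'
  have e3 := hB.hLε
  nlinarith

theorem log8_le' {ε L : ℝ} {Z : ℕ} (hB : Bg ε Z L) {n : ℕ} (hn : n ≠ 0)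
    (h : (n : ℝ) ≤ Real.exp (kap ε Z * L)) : (100 / ε) * Real.log (8 * (n : ℝ)) ≤ L := by
  have hn0 : (0 : ℝ) < n := by exact_mod_cast Nat.pos_of_ne_zero hn
  have hε := hB.hε
  have hLε := hB.hLε
  have hL := hB.Lpos
  rw [Real.log_mul (by norm_num) hn0.ne']
  have h8 : Real.log 8 ≤ 3 := by
    rw [show (8 : ℝ) = 2 ^ 3 by norm_num, Real.log_pow]
    have := Real.log_two_lt_d9
    push_cast
    linarith
  have h1 := Real.log_le_log hn0 h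
  rw [Real.log_exp] at h1
  have h2 := hB.kle
  have h3 : kap ε Z * L ≤ ε / 10 ^ 8 * L := mul_le_mul_of_nonneg_right h2 hL.le
  have h4 : Real.log 8 + Real.log (n : ℝ) ≤ ε * L / 100 := by
    have h5 : ε / 10 ^ 8 * L = ε * L / 10 ^ 8 := by ring
    rw [h5] at h3
    linarith
  calc (100 / ε) * (Real.log 8 + Real.log (n : ℝ)) ≤ (100 / ε) * (ε * L / 100) :=
        mul_le_mul_of_nonneg_left h4 (by positivity)
    _ = L := by field_simp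

theorem Cls_z_pow_le {ε L : ℝ} {Z : ℕ} (hB : Bg ε Z L) :
    (tz Z L : ℝ) ^ (-(ε / 16)) ≤ (L ^ 25)⁻¹ := by
  have hL : 0 < L := hB.Lpos
  have hL1 : 1 ≤ L := by linarith [hB.hL]
  have hε := hB.hε
  have hZ := hB.hZ
  calc (tz Z L : ℝ) ^ (-(ε / 16)) ≤ (L ^ Z) ^ (-(ε / 16)) :=
        Real.rpow_le_rpow_of_nonpos (by positivity) hB.z_lo (by linarith)
    _ = L ^ ((Z : ℝ) * (-(ε / 16))) := by
        rw [← Real.rpow_natCast L Z, ← Real.rpow_mul hL.le]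
    _ ≤ L ^ (-(25 : ℝ)) := by
        apply Real.rpow_le_rpow_of_exponent_le hL1
        nlinarith
    _ = (L ^ 25)⁻¹ := by
        rw [← Real.rpow_natCast L 25, ← Real.rpow_neg hL.le]
        norm_num

theorem wsum_R1' {q : ℕ} [NeZero q] {ε : ℝ} {Z : ℕ} (hB : Bg ε Z (Real.log q))
    {h1 h2 : ℝ} {v1 v2 : ℕ × ℕ → ℝ} (hv1 : KF q h1 v1) (hv2 : KF q h2 v2)
    (hc : Real.log h1 + 2 * Real.log h2 ≤ (1 - ε) * Real.log q)
    (P : Finset (ℕ × ℕ))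
    (hP : ∀ p ∈ P, Red p ∧ tz Z (Real.log q) ≤ p.1 * p.2 ∧
      ((p.1 * p.2 : ℕ) : ℝ) ≤ Real.exp (kap ε Z * Real.log q) ∧
      Few (tz Z (Real.log q)) (p.1 * p.2)) :
    ∑ p ∈ P, ww v1 v2 p * T0 p ≤ 300 * (Real.log q) ^ 3 * ((Real.log q) ^ 25)⁻¹ := by
  have hz0 : (0 : ℝ) < tz Z (Real.log q) := by
    exact_mod_cast (by have := hB.z_two; omega : 0 < tz Z (Real.log q))
  have hL1 : 1 ≤ Real.log q := by linarith [hB.hL]
  have hε := hB.hε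
  have hzL : (100 / ε) * Real.log (Real.log q) ≤ Real.log (tz Z (Real.log q)) := by
    refine le_trans ?_ hB.logz_lo
    refine mul_le_mul_of_nonneg_right ?_ (Real.log_nonneg hL1)
    rw [div_le_iff₀ hε]
    linarith [hB.hZ]
  have h := wsum_rough hv1 hv2 hε hB.hε1 P (tz Z (Real.log q)) hz0 hB.logz_ε
    (by linarith [hB.hL]) hzL (cond_half hB hv1.one_le hv2.one_le hc)
    (fun p hp => by
      obtain ⟨a1, a2, a3, a4⟩ := hP p hp
      exact ⟨a1, by exact_mod_cast a2, log8_le' hB (Nat.mul_ne_zero a1.2.1 a1.2.2) a3, a4⟩)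
  refine h.trans ?_
  have hL : 0 < Real.log q := by linarith
  exact mul_le_mul_of_nonneg_left (Cls_z_pow_le hB) (by positivity)

theorem wsum_R1 {q : ℕ} [NeZero q] {ε : ℝ} {Z : ℕ} (hB : Bg ε Z (Real.log q))
    {h1 h2 : ℝ} {v1 v2 : ℕ × ℕ → ℝ} (hv1 : KF q h1 v1) (hv2 : KF q h2 v2)
    (hc : Real.log h1 + 2 * Real.log h2 ≤ (1 - ε) * Real.log q)
    (P : Finset (ℕ × ℕ))
    (hP : ∀ p ∈ P, Red p ∧ tz Z (Real.log q) ≤ p.1 * p.2 ∧
      ((p.1 * p.2 : ℕ) : ℝ) ≤ Real.exp (kap ε Z * Real.log q) ∧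
      Few (tz Z (Real.log q)) (p.1 * p.2)) :
    ∑ p ∈ P, ww v1 v2 p * (T0 p * (16 * (Real.log q) ^ 4)) ≤ 1 := by
  have h := wsum_R1' hB hv1 hv2 hc P hP
  have e : ∑ p ∈ P, ww v1 v2 p * (T0 p * (16 * (Real.log q) ^ 4)) =
      (∑ p ∈ P, ww v1 v2 p * T0 p) * (16 * (Real.log q) ^ 4) := by
    rw [Finset.sum_mul]
    exact Finset.sum_congr rfl fun p _ => by ring
  rw [e]
  have hL100 := hB.hL
  set L := Real.log q with hLdef
  have hL : 0 < L := by linarith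
  calc (∑ p ∈ P, ww v1 v2 p * T0 p) * (16 * L ^ 4)
      ≤ (300 * L ^ 3 * (L ^ 25)⁻¹) * (16 * L ^ 4) := by gcongr
    _ = 4800 / L ^ 18 := by field_simp; norm_num
    _ ≤ 1 := by
        rw [div_le_one (by positivity)]
        calc (4800 : ℝ) ≤ 100 ^ 18 := by norm_num
          _ ≤ L ^ 18 := by gcongr

end Pool.Agent.H74.TS
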