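import Pool.Agent.H74.TS.Param
import Pool.Agent.H74.TS.SumL
import Pool.Agent.H14.PT.Cls

/-!
# Sum over the large class

The weighted form of `sum_L` of `Pool/Agent/H14/PT/Cls.lean`.

`wsum_L`: as `sum_L`, from `wsum_large ε (kap ε Z)` and the divisor bound.
-/

namespace Pool.Agent.H74.TS

open Finset Pool.Agent.H14.PT Pool.Agent.H16

theorem wsum_L (ε : ℝ) (Z : ℕ) (hε : 0 < ε) (hε1 : ε ≤ 1 / 10) (hZ : 400 ≤ ε * Z) :
    ∃ Q0 : ℝ, ∀ (q : ℕ) [NeZero q], Q0 ≤ Real.log q →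
    ∀ (h1 h2 : ℝ) (v1 v2 : ℕ × ℕ → ℝ), KF q h1 v1 → KF q h2 v2 →
    Real.log h1 + 2 * Real.log h2 ≤ (1 - ε) * Real.log q →
    ∀ P : Finset (ℕ × ℕ),
    (∀ p ∈ P, Red p ∧ Real.exp (kap ε Z * Real.log q) ≤ ((p.1 * p.2 : ℕ) : ℝ) ∧
      ((p.1 * p.2 : ℕ) : ℝ) ≤ Real.exp ((1 + ε / 100) * Real.log q)) →
    ∑ p ∈ P, ww v1 v2 p * (T0 p * (16 * (Real.log q) ^ 4)) ≤ 1 := by
  have hZ0 : (0 : ℝ) < Z := by
    by_contra hc
    push Not at hc
    nlinarith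
  have hZ1 : (4000 : ℝ) ≤ Z := by nlinarith
  have hkap : 0 < kap ε Z := by
    unfold kap
    positivity
  have hkap1 : kap ε Z ≤ 1 / 10 := by
    unfold kap
    rw [div_le_iff₀ (by positivity)]
    nlinarith
  obtain ⟨c, hc, Q1, hQ1⟩ := wsum_large ε (kap ε Z) hε hkap hε1 hkap1
  obtain ⟨C, hC, hdiv⟩ := divisor_bound (c / 4) (by positivity)
  obtain ⟨Q2, hQ21, hQ2⟩ := poly_le_exp 4 (16 * C) (c / 4) (by positivity)
  refine ⟨max Q1 Q2, ?_⟩
  intro q _ hq h1 h2 v1 v2 hv1 hv2 hh P hP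
  have hLQ1 : Q1 ≤ Real.log q := (le_max_left _ _).trans hq
  have hLQ2 : Q2 ≤ Real.log q := (le_max_right _ _).trans hq
  have hqpos : (0 : ℝ) < q := by exact_mod_cast Nat.pos_of_ne_zero (NeZero.ne q)
  have hqexp : ∀ r : ℝ, (q : ℝ) ^ r = Real.exp (r * Real.log q) := fun r => by
    rw [Real.rpow_def_of_pos hqpos, mul_comm]
  have hL0 : 0 ≤ Real.log q := le_trans (by linarith) (hQ21.trans hLQ2)
  have h3 := hQ1 q hLQ1 h1 h2 v1 v2 hv1 hv2 hh P (fun p hp => by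
    obtain ⟨a1, a2, a3⟩ := hP p hp
    rw [hqexp, hqexp]
    refine ⟨a1, a2, a3.trans (Real.exp_le_exp.2 ?_)⟩
    nlinarith)
  rw [hqexp] at h3
  set L := Real.log q with hL
  have hL1 : 1 ≤ L := hQ21.trans hLQ2
  have h4 : ∀ p ∈ P, ww v1 v2 p * (T0 p * (16 * L ^ 4)) ≤
      (C * Real.exp (0.2625 * c * L) * (16 * L ^ 4)) *
        (ww v1 v2 p * (((p.1 * p.2 : ℕ) : ℝ)) ^ (-(1 / 2) : ℝ)) := by
    intro p hp
    obtain ⟨⟨_, a1, a2⟩, _, a3⟩ := hP p hp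
    have h5 := hdiv (p.1 * p.2) (Nat.mul_ne_zero a1 a2)
    have h6 : (((p.1 * p.2 : ℕ) : ℝ)) ^ (c / 4) ≤ Real.exp (0.2625 * c * L) := by
      calc (((p.1 * p.2 : ℕ) : ℝ)) ^ (c / 4) ≤ (Real.exp ((1 + ε / 100) * L)) ^ (c / 4) :=
            Real.rpow_le_rpow (by positivity) a3 (by positivity)
        _ = Real.exp ((1 + ε / 100) * L * (c / 4)) := by rw [← Real.exp_mul]
        _ ≤ Real.exp (0.2625 * c * L) := by
            apply Real.exp_le_exp.2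
            have h7 : 0 ≤ c * L := by positivity
            nlinarith
    have h8 : T0 p * (16 * L ^ 4) ≤
        (C * Real.exp (0.2625 * c * L) * (16 * L ^ 4)) *
          (((p.1 * p.2 : ℕ) : ℝ)) ^ (-(1 / 2) : ℝ) := by
      unfold T0
      calc _ ≤ ((C * Real.exp (0.2625 * c * L)) * (((p.1 * p.2 : ℕ) : ℝ)) ^ (-(1 / 2) : ℝ)) *
            (16 * L ^ 4) := by
            gcongr
            exact h5.trans (mul_le_mul_of_nonneg_left h6 (by linarith))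
        _ = _ := by ring
    calc ww v1 v2 p * (T0 p * (16 * L ^ 4)) ≤ ww v1 v2 p *
          ((C * Real.exp (0.2625 * c * L) * (16 * L ^ 4)) *
            (((p.1 * p.2 : ℕ) : ℝ)) ^ (-(1 / 2) : ℝ)) :=
          mul_le_mul_of_nonneg_left h8 (ww_nonneg v1 v2 p)
      _ = _ := by ring
  refine (Finset.sum_le_sum h4).trans ?_
  rw [← Finset.mul_sum]
  have h5 := hQ2 L hLQ2
  calc C * Real.exp (0.2625 * c * L) * (16 * L ^ 4) *
        ∑ p ∈ P, ww v1 v2 p * (((p.1 * p.2 : ℕ) : ℝ)) ^ (-(1 / 2) : ℝ)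
      ≤ C * Real.exp (0.2625 * c * L) * (16 * L ^ 4) * Real.exp (-c * L) := by
        gcongr
    _ = (16 * C * L ^ 4) * (Real.exp (0.2625 * c * L) * Real.exp (-c * L)) := by ring
    _ ≤ Real.exp (c / 4 * L) * (Real.exp (0.2625 * c * L) * Real.exp (-c * L)) := by gcongr
    _ = Real.exp (-(0.4875 * c * L)) := by
        rw [← Real.exp_add, ← Real.exp_add]; congr 1; ring
    _ ≤ 1 := by
        rw [Real.exp_le_one_iff]
        have : 0 ≤ 0.4875 * c * L := by positivity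
        linarith

end Pool.Agent.H74.TS
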