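import Pool.Agent.H74.TS.Rough
import Pool.Agent.H74.TS.SumL

/-!
# Sum over small primes

`wsum_primes` is `sum_primes` there, but for fractions `p` with `p.1 * p.2` prime (so `p = (r, 1)` or
`p = (1, r)`), and without subgroup: on a block with `X = 2^i 2^j ≤ z`, `X ≥ 1`:
`∑ ww log(ab) (ab)^(-1/2) ≤ log z * X^(-1/2) * ∑ ww`.  If `X ≤ L^(2-ε)`, use
`∑ ww ≤ card (blk P i j) ≤ X` (`ww_le_one`; the block is contained in
`[2^i, 2^(i+1)) × [2^j, 2^(j+1))`): at most `log z * X^(1/2) ≤ log z * L^(1 - ε/2)`.  Otherwise use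
`wbox_rough` (`Few z (p.1 * p.2)` holds as `Ω = 1`, see `few_prime`): at most
`log z * 2 L * 8^(1/2) * X^(-ε/8) ≤ 6 log z * L^(1 - (2-ε) ε/8) ≤ 6 log z * L^(1 - ε/5)`.  There are
`M^2 ≤ 4 (log z)^2` blocks.  (`(100/ε) log (8 X) ≤ L` follows from `X ≤ z` and `hzq`.)
-/

namespace Pool.Agent.H74.TS

open Finset Pool.Agent.H14.PT
open scoped ArithmeticFunction.Omega

lemma sumP_red {p : ℕ × ℕ} (h : (p.1 * p.2).Prime) : Red p := by
  rcases Nat.prime_mul_iff.mp h with ⟨h1, h2⟩ | ⟨h1, h2⟩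
  · refine ⟨?_, h1.ne_zero, ?_⟩
    · rw [h2]; exact Nat.coprime_one_right _
    · rw [h2]; exact one_ne_zero
  · refine ⟨?_, ?_, h1.ne_zero⟩
    · rw [h2]; exact Nat.coprime_one_left _
    · rw [h2]; exact one_ne_zero

lemma sumP_card (P : Finset (ℕ × ℕ)) (i j : ℕ) :
    ((blk P i j).card : ℝ) ≤ 2 ^ i * 2 ^ j := by
  have h : (blk P i j).card ≤
      (Finset.Ico (2 ^ i) (2 ^ (i + 1)) ×ˢ Finset.Ico (2 ^ j) (2 ^ (j + 1))).card := by
    apply Finset.card_le_card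
    intro p hp
    obtain ⟨_, ⟨h1, h2⟩, h3, h4⟩ := Finset.mem_filter.mp hp
    rw [Finset.mem_product]
    exact ⟨Finset.mem_Ico.mpr ⟨h1, h2⟩, Finset.mem_Ico.mpr ⟨h3, h4⟩⟩
  rw [Finset.card_product, Nat.card_Ico, Nat.card_Ico] at h
  have h1 : 2 ^ (i + 1) - 2 ^ i = 2 ^ i := by rw [pow_succ]; omega
  have h2 : 2 ^ (j + 1) - 2 ^ j = 2 ^ j := by rw [pow_succ]; omega
  rw [h1, h2] at h
  exact_mod_cast h

theorem wsum_primes {q : ℕ} [NeZero q] {h1 h2 : ℝ} {v1 v2 : ℕ × ℕ → ℝ} (hv1 : KF q h1 v1)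
    (hv2 : KF q h2 v2) {ε : ℝ} (hε : 0 < ε) (hε1 : ε ≤ 1 / 10) (P : Finset (ℕ × ℕ))
    (z : ℝ) (hz0 : 0 < z) (hz : 100 / ε ≤ Real.log z) (hL : 2 ≤ Real.log q)
    (hzL : (100 / ε) * Real.log (Real.log q) ≤ Real.log z)
    (hzq : (100 / ε) * Real.log (8 * z) ≤ Real.log q)
    (hd : Real.log (2 * Real.sqrt (h1 * h2)) ≤ (1 / 2 - ε / 4) * Real.log q)
    (hP : ∀ p ∈ P, (p.1 * p.2).Prime ∧ ((p.1 * p.2 : ℕ) : ℝ) ≤ z) :
    ∑ p ∈ P, ww v1 v2 p *
      (Real.log ((p.1 * p.2 : ℕ) : ℝ) * (((p.1 * p.2 : ℕ) : ℝ)) ^ (-(1 / 2) : ℝ)) ≤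
      32 * (Real.log z) ^ 3 * (Real.log q) ^ (1 - ε / 5) := by
  set L := Real.log q with hLdef
  have hε100 : 1000 ≤ 100 / ε := by
    rw [le_div_iff₀ hε]
    linarith
  have hz1000 : 1000 ≤ Real.log z := hε100.trans hz
  have hz100 : 100 ≤ Real.log z := by linarith
  set M : ℕ := ⌊Real.log z / Real.log 2⌋₊ + 1 with hM
  have hl2 := Real.log_two_gt_d9
  have hM2 : (M : ℝ) ≤ 2 * Real.log z := by
    have h1 : (⌊Real.log z / Real.log 2⌋₊ : ℝ) ≤ Real.log z / Real.log 2 :=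
      Nat.floor_le (by positivity)
    have h2 : Real.log z / Real.log 2 ≤ 1.5 * Real.log z := by
      rw [div_le_iff₀ (by linarith)]
      nlinarith
    rw [hM]
    push_cast
    linarith
  have hzM : ∀ n : ℕ, (n : ℝ) ≤ z → n < 2 ^ M := by
    intro n hn
    have hl2' : 0 < Real.log 2 := Real.log_pos (by norm_num)
    have h1 := Nat.lt_floor_add_one (Real.log z / Real.log 2)
    rw [div_lt_iff₀ hl2'] at h1
    have h2 : z < (2 : ℝ) ^ M := by
      rw [← Real.log_lt_log_iff hz0 (by positivity), Real.log_pow, hM]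
      push_cast
      exact h1
    have h3 := hn.trans_lt h2
    exact_mod_cast h3
  have hred : ∀ p ∈ P, Red p := fun p hp => sumP_red (hP p hp).1
  have hsum := dyadic_sum P (fun p hp => ⟨(hred p hp).2.1, (hred p hp).2.2⟩)
    (fun p => ww v1 v2 p *
      (Real.log ((p.1 * p.2 : ℕ) : ℝ) * (((p.1 * p.2 : ℕ) : ℝ)) ^ (-(1 / 2) : ℝ))) M ?_
    (8 * Real.log z * L ^ (1 - ε / 5)) ?_
  · refine hsum.trans ?_
    have h1 : (M : ℝ) ^ 2 ≤ 4 * Real.log z ^ 2 := by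
      have : (0 : ℝ) ≤ M := by positivity
      nlinarith
    calc (M : ℝ) ^ 2 * (8 * Real.log z * L ^ (1 - ε / 5)) ≤
          (4 * Real.log z ^ 2) * (8 * Real.log z * L ^ (1 - ε / 5)) := by gcongr
      _ = _ := by ring
  · intro p hp
    obtain ⟨_, h1, h2⟩ := hred p hp
    have h5 : p.1 ≤ p.1 * p.2 := Nat.le_mul_of_pos_right _ (Nat.pos_of_ne_zero h2)
    have h6 : p.2 ≤ p.1 * p.2 := Nat.le_mul_of_pos_left _ (Nat.pos_of_ne_zero h1)
    have h7 := hzM _ (hP p hp).2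
    exact ⟨h5.trans_lt h7, h6.trans_lt h7⟩
  · intro i j
    change ∑ p ∈ blk P i j, _ ≤ _
    have hL1 : 1 ≤ L := by linarith
    rcases (blk P i j).eq_empty_or_nonempty with he | ⟨p0, hp0⟩
    · rw [he, Finset.sum_empty]; positivity
    set X : ℝ := (2 : ℝ) ^ i * 2 ^ j with hX
    have hX0 : 0 < X := by positivity
    obtain ⟨b1, b2⟩ := blk_prod_bounds hp0
    have hXz : X ≤ z := b1.trans (hP p0 (Finset.mem_filter.mp hp0).1).2
    have hup : (100 / ε) * Real.log (8 * 2 ^ i * 2 ^ j) ≤ L := by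
      refine le_trans ?_ hzq
      rw [mul_assoc 8]
      have := Real.log_le_log (show (0 : ℝ) < 8 * X by positivity)
        (mul_le_mul_of_nonneg_left hXz (by norm_num : (0 : ℝ) ≤ 8))
      exact mul_le_mul_of_nonneg_left this (by linarith)
    have hrough := wbox_rough hv1 hv2 hε hε1 (blk P i j) (2 ^ i) (2 ^ j)
      (one_le_pow₀ (by norm_num)) (one_le_pow₀ (by norm_num)) z hz hL1 hzL hup hd
      (blk_IB hred i j) (fun p hp => by
        have := few_prime hz100 (hP p (Finset.mem_filter.mp hp).1).1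
        rwa [mul_one] at this)
    have hww : ∑ p ∈ blk P i j, ww v1 v2 p ≤ X := by
      calc ∑ p ∈ blk P i j, ww v1 v2 p ≤ ∑ _p ∈ blk P i j, (1 : ℝ) :=
            Finset.sum_le_sum fun p _ => ww_le_one hv1 hv2 p
        _ = (blk P i j).card := by rw [Finset.sum_const, nsmul_eq_mul, mul_one]
        _ ≤ X := sumP_card P i j
    have hww0 : 0 ≤ ∑ p ∈ blk P i j, ww v1 v2 p :=
      Finset.sum_nonneg fun p _ => ww_nonneg v1 v2 p
    have hterm : ∀ p ∈ blk P i j, ww v1 v2 p *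
        (Real.log ((p.1 * p.2 : ℕ) : ℝ) * (((p.1 * p.2 : ℕ) : ℝ)) ^ (-(1 / 2) : ℝ)) ≤
        ww v1 v2 p * (Real.log z * X ^ (-(1 / 2) : ℝ)) := by
      intro p hp
      have hpP := (Finset.mem_filter.mp hp).1
      obtain ⟨h2, h3⟩ := hP p hpP
      have hp0 : (0 : ℝ) < ((p.1 * p.2 : ℕ) : ℝ) := by exact_mod_cast h2.pos
      have h4 : Real.log ((p.1 * p.2 : ℕ) : ℝ) ≤ Real.log z := Real.log_le_log hp0 h3
      have h6 : (((p.1 * p.2 : ℕ) : ℝ)) ^ (-(1 / 2) : ℝ) ≤ X ^ (-(1 / 2) : ℝ) :=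
        Real.rpow_le_rpow_of_nonpos hX0 (blk_prod_bounds hp).1 (by norm_num)
      refine mul_le_mul_of_nonneg_left ?_ (ww_nonneg v1 v2 p)
      exact mul_le_mul h4 h6 (by positivity) (by linarith)
    have key : (∑ p ∈ blk P i j, ww v1 v2 p) * X ^ (-(1 / 2) : ℝ) ≤ 8 * L ^ (1 - ε / 5) := by
      by_cases hc : X ≤ L ^ (2 - ε)
      · calc (∑ p ∈ blk P i j, ww v1 v2 p) * X ^ (-(1 / 2) : ℝ)
            ≤ X * X ^ (-(1 / 2) : ℝ) := by gcongr
          _ = X ^ (1 / 2 : ℝ) := by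
              nth_rw 1 [← Real.rpow_one X]
              rw [← Real.rpow_add hX0]; norm_num
          _ ≤ (L ^ (2 - ε)) ^ (1 / 2 : ℝ) := by gcongr
          _ = L ^ ((2 - ε) * (1 / 2)) := by rw [← Real.rpow_mul (by linarith)]
          _ ≤ L ^ (1 - ε / 5) := Real.rpow_le_rpow_of_exponent_le hL1 (by linarith)
          _ ≤ 8 * L ^ (1 - ε / 5) := by
              have : 0 ≤ L ^ (1 - ε / 5) := by positivity
              linarith
      · push Not at hc
        have h8 : (8 : ℝ) ^ (1 / 2 - ε / 8) ≤ 4 := by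
          calc (8 : ℝ) ^ (1 / 2 - ε / 8) ≤ (8 : ℝ) ^ (2 / 3 : ℝ) :=
                Real.rpow_le_rpow_of_exponent_le (by norm_num) (by linarith)
            _ = 4 := by
                rw [show (8 : ℝ) = 2 ^ (3 : ℝ) by norm_num, ← Real.rpow_mul (by norm_num)]
                norm_num
        have h9 : X ^ (-(ε / 8)) ≤ (L ^ (2 - ε)) ^ (-(ε / 8)) :=
          Real.rpow_le_rpow_of_nonpos (by positivity) hc.le (by linarith)
        calc (∑ p ∈ blk P i j, ww v1 v2 p) * X ^ (-(1 / 2) : ℝ)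
            ≤ (2 * L * (8 * 2 ^ i * 2 ^ j) ^ (1 / 2 - ε / 8)) * X ^ (-(1 / 2) : ℝ) := by gcongr
          _ = 2 * L * (8 : ℝ) ^ (1 / 2 - ε / 8) *
                (X ^ (1 / 2 - ε / 8) * X ^ (-(1 / 2) : ℝ)) := by
              rw [mul_assoc 8, Real.mul_rpow (x := 8) (by norm_num) hX0.le]
              ring
          _ = 2 * L * (8 : ℝ) ^ (1 / 2 - ε / 8) * X ^ (-(ε / 8)) := by
              rw [← Real.rpow_add hX0]
              congr 2
              ring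
          _ ≤ 2 * L * 4 * (L ^ (2 - ε)) ^ (-(ε / 8)) := by gcongr
          _ = 8 * L ^ (1 + (2 - ε) * (-(ε / 8))) := by
              rw [← Real.rpow_mul (by linarith), Real.rpow_add (by linarith), Real.rpow_one]
              ring
          _ ≤ 8 * L ^ (1 - ε / 5) := by
              refine mul_le_mul_of_nonneg_left ?_ (by norm_num)
              exact Real.rpow_le_rpow_of_exponent_le hL1 (by nlinarith)
    calc ∑ p ∈ blk P i j, ww v1 v2 p *
          (Real.log ((p.1 * p.2 : ℕ) : ℝ) * (((p.1 * p.2 : ℕ) : ℝ)) ^ (-(1 / 2) : ℝ))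
        ≤ ∑ p ∈ blk P i j, ww v1 v2 p * (Real.log z * X ^ (-(1 / 2) : ℝ)) :=
          Finset.sum_le_sum hterm
      _ = Real.log z * ((∑ p ∈ blk P i j, ww v1 v2 p) * X ^ (-(1 / 2) : ℝ)) := by
          rw [← Finset.sum_mul]; ring
      _ ≤ Real.log z * (8 * L ^ (1 - ε / 5)) := by gcongr
      _ = _ := by ring

end Pool.Agent.H74.TS
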