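import Pool.Agent.H74.TS.Cls
import Pool.Agent.H74.TS.SumP
import Pool.Agent.H14.PT.ClsP

/-!
# The class of small prime powers

The weighted form of `sum_P` of `Pool/Agent/H14/PT/ClsP.lean`.

`wP_asymp`: as `P_asymp`: `log z ≤ (Z+1) log L`, so the left side is `O (L^(1 - ε/10))`.

`wsum_P`: split `P` into the fractions with `p.1 * p.2` prime and the others.  The first part is at
most `(1/L) * 32 (log z)^3 L^(1-ε/5)` by `wsum_primes` (`minFac` of a prime is the prime), hence at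
most `1/2`.  For the second part, `ww ≤ 1` (`ww_le_one`), the fractions are `(r^j, 1)` or `(1, r^j)`
with `2 ≤ j`, and the proof of `sum_P` (`cover_sum`, `geom_half`, `mA_le`) gives at most
`(8/L) ∑_{r ≤ z} log r / r ≤ (8/L) (log z + 2)`.
-/

namespace Pool.Agent.H74.TS

open Finset Pool.Agent.H14.PT Pool.Agent.H16

theorem wP_asymp (ε : ℝ) (Z : ℕ) : ∃ Q0 : ℝ, ∀ L : ℝ, Q0 ≤ L → Bg ε Z L →
    2 * (32 * (Real.log (tz Z L)) ^ 3 * L ^ (1 - ε / 5)) + 8 * (Real.log (tz Z L) + 2) ≤ L := by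
  set K : ℝ := (Z + 1) * (40 / ε) with hK
  set M : ℝ := 64 * K ^ 3 + 8 * K + 16 with hM
  refine ⟨M ^ (8 / ε), fun L hL hB => ?_⟩
  have hε := hB.hε
  have hε1 := hB.hε1
  have hLpos : 0 < L := hB.Lpos
  have hL1 : 1 ≤ L := by linarith [hB.hL]
  have hK0 : 0 ≤ K := by positivity
  have hM0 : 0 ≤ M := by positivity
  have h1 : Real.log L ≤ (40 / ε) * L ^ (ε / 40) := by
    have h := Real.log_le_rpow_div hLpos.le (show (0 : ℝ) < ε / 40 by positivity)
    calc Real.log L ≤ L ^ (ε / 40) / (ε / 40) := h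
      _ = _ := by field_simp
  have h2 := hB.logz_hi
  have h20 : 0 ≤ Real.log (tz Z L) := by linarith [hB.logz_1000]
  have h3 : Real.log (tz Z L) ≤ K * L ^ (ε / 40) := by
    refine h2.trans ?_
    rw [hK, mul_assoc]
    exact mul_le_mul_of_nonneg_left h1 (by positivity)
  have h4 : (Real.log (tz Z L)) ^ 3 ≤ K ^ 3 * L ^ (3 * ε / 40) := by
    calc (Real.log (tz Z L)) ^ 3 ≤ (K * L ^ (ε / 40)) ^ 3 := by gcongr
      _ = K ^ 3 * L ^ (3 * ε / 40) := by
          rw [mul_pow, ← Real.rpow_natCast (L ^ (ε / 40)), ← Real.rpow_mul hLpos.le]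
          congr 2
          push_cast
          ring
  have h5 : L ^ (3 * ε / 40) * L ^ (1 - ε / 5) = L ^ (1 - ε / 8) := by
    rw [← Real.rpow_add hLpos]
    congr 1
    ring
  have h6 : L ^ (ε / 40) ≤ L ^ (1 - ε / 8) :=
    Real.rpow_le_rpow_of_exponent_le hL1 (by linarith)
  have h7 : 1 ≤ L ^ (1 - ε / 8) := Real.one_le_rpow hL1 (by linarith)
  have h8 : M ≤ L ^ (ε / 8) := by
    calc M = (M ^ (8 / ε)) ^ (ε / 8) := by
          rw [← Real.rpow_mul hM0]
          have : 8 / ε * (ε / 8) = 1 := by field_simp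
          rw [this, Real.rpow_one]
      _ ≤ _ := Real.rpow_le_rpow (Real.rpow_nonneg hM0 _) hL (by positivity)
  have h9 : L ^ (1 - ε / 8) * L ^ (ε / 8) = L := by
    rw [← Real.rpow_add hLpos]
    have : 1 - ε / 8 + ε / 8 = 1 := by ring
    rw [this, Real.rpow_one]
  calc 2 * (32 * (Real.log (tz Z L)) ^ 3 * L ^ (1 - ε / 5)) + 8 * (Real.log (tz Z L) + 2)
      ≤ 2 * (32 * (K ^ 3 * L ^ (3 * ε / 40)) * L ^ (1 - ε / 5)) +
          8 * (K * L ^ (1 - ε / 8) + 2 * L ^ (1 - ε / 8)) := by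
        gcongr
        · exact h3.trans (mul_le_mul_of_nonneg_left h6 hK0)
        · linarith
    _ = (64 * K ^ 3) * (L ^ (3 * ε / 40) * L ^ (1 - ε / 5)) + (8 * K + 16) * L ^ (1 - ε / 8) := by
        ring
    _ = M * L ^ (1 - ε / 8) := by rw [h5, hM]; ring
    _ ≤ L ^ (ε / 8) * L ^ (1 - ε / 8) := by gcongr
    _ = L := by rw [mul_comm, h9]

/-- the prime powers `r^j` with `2 ≤ j` -/
theorem clsP_high (z J : ℕ) (hz : 1 ≤ z) (L : ℝ) (hL : 0 < L) (P : Finset (ℕ × ℕ))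
    (hP : ∀ p ∈ P, Nat.Coprime p.1 p.2 ∧
      ∃ r j, r.Prime ∧ r ≤ z ∧ 2 ≤ j ∧ j ≤ J ∧ p.1 * p.2 = r ^ j) :
    ∑ p ∈ P, (((p.1 * p.2 : ℕ) : ℝ)) ^ (-(1 / 2) : ℝ) *
      (Real.log (Nat.minFac (p.1 * p.2)) / L) ≤ 8 / L * (Real.log z + 2) := by
  classical
  set f : ℕ × ℕ → ℝ := fun p => (((p.1 * p.2 : ℕ) : ℝ)) ^ (-(1 / 2) : ℝ) *
      (Real.log (Nat.minFac (p.1 * p.2)) / L) with hf
  set I := (Nat.primesLE z ×ˢ Finset.Icc 2 J) ×ˢ (Finset.univ : Finset Bool) with hI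
  set pt : (ℕ × ℕ) × Bool → ℕ × ℕ := fun i =>
    if i.2 then (i.1.1 ^ i.1.2, 1) else (1, i.1.1 ^ i.1.2) with hpt
  have hcov : ∀ p ∈ P, ∃ i ∈ I, p = pt i := by
    intro p hp
    obtain ⟨hcop, r, j, hr, hrz, hj, hjJ, hprod⟩ := hP p hp
    have hdvd : r ∣ p.1 ∨ r ∣ p.2 := by
      have : r ∣ p.1 * p.2 := by rw [hprod]; exact dvd_pow_self r (by omega)
      exact (Nat.Prime.dvd_mul hr).mp this
    rcases hdvd with h | h
    · have hr1 : ¬ r ∣ p.2 := fun h' => hr.one_lt.ne' (Nat.eq_one_of_dvd_coprimes hcop h h')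
      have hcr : Nat.Coprime (r ^ j) p.2 :=
        Nat.Coprime.pow_left j ((Nat.Prime.coprime_iff_not_dvd hr).mpr hr1)
      have h3 : p.2 = 1 := by
        have : p.2 ∣ r ^ j := ⟨p.1, by rw [← hprod]; ring⟩
        exact Nat.eq_one_of_dvd_coprimes hcr this (dvd_refl _)
      rw [h3, mul_one] at hprod
      refine ⟨((r, j), true), by simp [hI, Nat.mem_primesLE, hr, hrz, hj, hjJ], ?_⟩
      simp only [hpt, if_true]
      exact Prod.ext hprod h3
    · have hr1 : ¬ r ∣ p.1 := fun h' => hr.one_lt.ne' (Nat.eq_one_of_dvd_coprimes hcop h' h)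
      have hcr : Nat.Coprime (r ^ j) p.1 :=
        Nat.Coprime.pow_left j ((Nat.Prime.coprime_iff_not_dvd hr).mpr hr1)
      have h3 : p.1 = 1 := by
        have : p.1 ∣ r ^ j := ⟨p.2, by rw [← hprod]⟩
        exact Nat.eq_one_of_dvd_coprimes hcr this (dvd_refl _)
      rw [h3, one_mul] at hprod
      refine ⟨((r, j), false), by simp [hI, Nat.mem_primesLE, hr, hrz, hj, hjJ], ?_⟩
      simp only [hpt, Bool.false_eq_true, if_false]
      exact Prod.ext h3 hprod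
  have hf0 : ∀ p ∈ P, 0 ≤ f p := by
    intro p _
    simp only [hf]
    have : 0 ≤ Real.log (Nat.minFac (p.1 * p.2)) := Real.log_natCast_nonneg _
    positivity
  have hsum := cover_sum P I (fun i p => p = pt i) f hf0 hcov
  refine hsum.trans ?_
  have hval : ∀ i ∈ I, ∑ p ∈ P.filter (fun p => p = pt i), f p ≤
      ((i.1.1 : ℝ) ^ i.1.2) ^ (-(1 / 2) : ℝ) * (Real.log i.1.1 / L) := by
    rintro ⟨⟨r, j⟩, side⟩ hi
    simp only [hI, mem_product, Nat.mem_primesLE, mem_Icc, mem_univ, and_true] at hi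
    obtain ⟨⟨hrz, hr⟩, hj, hjJ⟩ := hi
    have hlr : 0 ≤ Real.log (r : ℝ) := Real.log_natCast_nonneg _
    rw [Finset.filter_eq']
    by_cases hmem : pt ((r, j), side) ∈ P
    · rw [if_pos hmem, Finset.sum_singleton]
      have hfv : f (pt ((r, j), side)) = ((r : ℝ) ^ j) ^ (-(1 / 2) : ℝ) * (Real.log r / L) := by
        have : (pt ((r, j), side)).1 * (pt ((r, j), side)).2 = r ^ j := by
          simp only [hpt]
          cases side <;> simp
        simp only [hf]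
        rw [this, hr.pow_minFac (by omega)]
        push_cast
        rfl
      rw [hfv]
    · rw [if_neg hmem, Finset.sum_empty]
      positivity
  refine (Finset.sum_le_sum hval).trans ?_
  rw [hI, Finset.sum_product, Finset.sum_product]
  simp only [Finset.sum_const, Finset.card_univ, Fintype.card_bool, nsmul_eq_mul]
  have hsplit : ∀ r ∈ Nat.primesLE z, ∑ j ∈ Icc 2 J, (((2 : ℕ) : ℝ) *
      (((r : ℝ) ^ j) ^ (-(1 / 2) : ℝ) * (Real.log r / L))) ≤
        8 / L * (Real.log r / r) := by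
    intro r hr
    obtain ⟨hrz, hrp⟩ := Nat.mem_primesLE.mp hr
    have hr0 : (0 : ℝ) < r := by exact_mod_cast hrp.pos
    have hlr : 0 ≤ Real.log (r : ℝ) := Real.log_natCast_nonneg _
    have h3 : ∀ j ∈ Icc 2 J, (((2 : ℕ) : ℝ) *
        (((r : ℝ) ^ j) ^ (-(1 / 2) : ℝ) * (Real.log r / L))) =
        (2 * (Real.log r / L)) * ((r : ℝ) ^ j) ^ (-(1 / 2) : ℝ) := by
      intro j hj
      push_cast
      ring
    rw [Finset.sum_congr rfl h3, ← Finset.mul_sum]
    calc (2 * (Real.log r / L)) * ∑ j ∈ Icc 2 J, ((r : ℝ) ^ j) ^ (-(1 / 2) : ℝ)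
        ≤ (2 * (Real.log r / L)) * (4 * (1 / (r : ℝ))) :=
          mul_le_mul_of_nonneg_left (geom_half hrp J) (by positivity)
      _ = _ := by ring
  refine (Finset.sum_le_sum hsplit).trans ?_
  rw [← Finset.mul_sum]
  have hM : ∑ r ∈ Nat.primesLE z, Real.log r / (r : ℝ) ≤ Real.log z + 2 := by
    have h1 := mA_le z hz
    have h4 : Real.log 4 ≤ 2 := by
      rw [show (4 : ℝ) = 2 ^ 2 by norm_num, Real.log_pow]
      have := Real.log_two_lt_d9
      push_cast; linarith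
    have h5 : ∑ p ∈ Nat.primesLE z, Real.log p / (p : ℝ) = mA z := rfl
    rw [h5]
    linarith
  exact mul_le_mul_of_nonneg_left hM (by positivity)

theorem wsum_P (ε : ℝ) (Z : ℕ) : ∃ Q0 : ℝ, ∀ (q : ℕ) [Fact q.Prime], Q0 ≤ Real.log q →
    Bg ε Z (Real.log q) → ∀ (h1 h2 : ℝ) (v1 v2 : ℕ × ℕ → ℝ), KF q h1 v1 → KF q h2 v2 →
    Real.log h1 + 2 * Real.log h2 ≤ (1 - ε) * Real.log q → ∀ P : Finset (ℕ × ℕ),
    (∀ p ∈ P, Red p ∧ ((p.1 * p.2 : ℕ) : ℝ) ≤ Real.exp (kap ε Z * Real.log q) ∧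
      ∃ r j, r.Prime ∧ r ≤ tz Z (Real.log q) ∧ 1 ≤ j ∧ p.1 * p.2 = r ^ j) →
    ∑ p ∈ P, ww v1 v2 p * ((((p.1 * p.2 : ℕ) : ℝ)) ^ (-(1 / 2) : ℝ) *
      (Real.log (Nat.minFac (p.1 * p.2)) / Real.log q)) ≤ 2 := by
  classical
  obtain ⟨Q0, hQ0⟩ := wP_asymp ε Z
  refine ⟨Q0, ?_⟩
  intro q _ hq hB h1 h2 v1 v2 hv1 hv2 hc P hP
  have hasy := hQ0 _ hq hB
  have hL100 := hB.hL
  have hLpos := hB.Lpos
  have hz2 := hB.z_two
  have hε := hB.hε
  have hε1 := hB.hε1
  have hd := cond_half hB hv1.one_le hv2.one_le hc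
  have hq0 : q ≠ 0 := (Fact.out : q.Prime).ne_zero
  have : NeZero q := ⟨hq0⟩
  set L := Real.log q with hL
  set z := tz Z L with hz
  have hz0 : (0 : ℝ) < z := by exact_mod_cast (by omega : 0 < z)
  set J := ⌊L⌋₊ with hJ
  have hJb : ∀ p ∈ P, ∀ r j : ℕ, r.Prime → p.1 * p.2 = r ^ j → j ≤ J := by
    intro p hp r j hr hprod
    obtain ⟨_, hn, _⟩ := hP p hp
    rw [hJ]
    apply Nat.le_floor
    have h1 : 2 ^ j ≤ p.1 * p.2 := by
      rw [hprod]
      exact Nat.pow_le_pow_left hr.two_le j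
    have h2 : ((2 : ℝ)) ^ j ≤ Real.exp (kap ε Z * L) := by
      refine le_trans ?_ hn
      exact_mod_cast h1
    have h3 := Real.log_le_log (by positivity) h2
    rw [Real.log_exp, Real.log_pow] at h3
    have h4 := Real.log_two_gt_d9
    have h5 : (0 : ℝ) ≤ j := by positivity
    have h6 : kap ε Z * L ≤ (1 / 10) * L := by
      refine mul_le_mul_of_nonneg_right ?_ hLpos.le
      have := hB.kle
      linarith
    nlinarith
  rw [← Finset.sum_filter_add_sum_filter_not P (fun p => (p.1 * p.2).Prime)]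
  have hA : ∑ p ∈ P.filter (fun p => (p.1 * p.2).Prime),
      ww v1 v2 p * ((((p.1 * p.2 : ℕ) : ℝ)) ^ (-(1 / 2) : ℝ) *
      (Real.log (Nat.minFac (p.1 * p.2)) / L)) ≤
      1 / L * (32 * (Real.log z) ^ 3 * L ^ (1 - ε / 5)) := by
    have h3 : ∀ p ∈ P.filter (fun p => (p.1 * p.2).Prime),
        ww v1 v2 p * ((((p.1 * p.2 : ℕ) : ℝ)) ^ (-(1 / 2) : ℝ) *
        (Real.log (Nat.minFac (p.1 * p.2)) / L)) =
        1 / L * (ww v1 v2 p * (Real.log ((p.1 * p.2 : ℕ) : ℝ) *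
          (((p.1 * p.2 : ℕ) : ℝ)) ^ (-(1 / 2) : ℝ))) := by
      intro p hp
      rw [(Finset.mem_filter.mp hp).2.minFac_eq]
      ring
    rw [Finset.sum_congr rfl h3, ← Finset.mul_sum]
    refine mul_le_mul_of_nonneg_left ?_ (by positivity)
    refine wsum_primes hv1 hv2 hε hε1 _ (z : ℝ) hz0 hB.logz_ε (by linarith) ?_ hB.z_q hd ?_
    · refine le_trans ?_ hB.logz_lo
      have h5 : 0 ≤ Real.log L := Real.log_nonneg (by linarith)
      refine mul_le_mul_of_nonneg_right ?_ h5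
      rw [div_le_iff₀ hε]
      nlinarith [hB.hZ]
    · intro p hp
      obtain ⟨hpP, hpr⟩ := Finset.mem_filter.mp hp
      refine ⟨hpr, ?_⟩
      obtain ⟨_, _, r, j, hr, hrz, hj, hprod⟩ := hP p hpP
      have hj1 : j = 1 := by
        rw [hprod] at hpr
        exact Nat.Prime.eq_one_of_pow hpr
      rw [hprod, hj1, pow_one]
      exact_mod_cast hrz
  have hBnd : ∑ p ∈ P.filter (fun p => ¬ (p.1 * p.2).Prime),
      ww v1 v2 p * ((((p.1 * p.2 : ℕ) : ℝ)) ^ (-(1 / 2) : ℝ) *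
      (Real.log (Nat.minFac (p.1 * p.2)) / L)) ≤ 8 / L * (Real.log z + 2) := by
    refine le_trans ?_ (clsP_high z J (by omega) L hLpos
      (P.filter (fun p => ¬ (p.1 * p.2).Prime)) ?_)
    · refine Finset.sum_le_sum fun p _ => ?_
      have h3 : 0 ≤ (((p.1 * p.2 : ℕ) : ℝ)) ^ (-(1 / 2) : ℝ) *
        (Real.log (Nat.minFac (p.1 * p.2)) / L) := by
        have : 0 ≤ Real.log (Nat.minFac (p.1 * p.2)) := Real.log_natCast_nonneg _
        positivity
      exact mul_le_of_le_one_left h3 (ww_le_one hv1 hv2 p)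
    · intro p hp
      obtain ⟨hpP, hpr⟩ := Finset.mem_filter.mp hp
      obtain ⟨hred, _, r, j, hr, hrz, hj, hprod⟩ := hP p hpP
      refine ⟨hred.1, r, j, hr, hrz, ?_, hJb p hpP r j hr hprod, hprod⟩
      by_contra hj2
      have hj1 : j = 1 := by omega
      rw [hprod, hj1, pow_one] at hpr
      exact hpr hr
  calc _ ≤ 1 / L * (32 * (Real.log z) ^ 3 * L ^ (1 - ε / 5)) + 8 / L * (Real.log z + 2) :=
        add_le_add hA hBnd
    _ = (32 * (Real.log z) ^ 3 * L ^ (1 - ε / 5) + 8 * (Real.log z + 2)) / L := by ring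
    _ ≤ 1 := by
      rw [div_le_one hLpos]
      have h6 : 0 ≤ 32 * (Real.log z) ^ 3 * L ^ (1 - ε / 5) := by
        have := hB.logz_1000
        positivity
      linarith
    _ ≤ 2 := by norm_num

end Pool.Agent.H74.TS
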