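import Pool.Agent.H74.TS.Chars
import Pool.Agent.H74.PZ.Par

/-!
# Orthogonality and shifts

`sum_va_le`: orthogonality: `∑_{k=1}^{q-1} |∑_{χ ∈ 𝒜} χ(k)|² = (q-1) |𝒜|`
(`DirichletCharacter.sum_char...`: `∑_k χ(k) conj χ'(k) = (q-1) [χ = χ']`,
`MulChar.sum_eq_zero_of_ne_one`).

`kf_shiftL`, `kf_shiftR`: apply `hv.kf` to the image of `P` under the injection
`(x, y) ↦ (m x, y)` resp. `(x, m y)` (`m ≠ 0`); tuples of the image correspond to tuples of `P`, and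
the class `u` becomes `(m^k)⁻¹ u` resp. `m^k u`.
-/

namespace Pool.Agent.H74.TS

open Finset Pool.Agent.H14.PT
open scoped ComplexConjugate

variable {q : ℕ} [Fact q.Prime]

/-- the squares of the mean of the characters of `𝒜` over all residues -/
lemma charS_sum (𝒜 : Finset (DirichletCharacter ℂ q)) (h𝒜 : 𝒜.Nonempty) :
    ∑ a : ZMod q, (‖∑ χ ∈ 𝒜, χ a‖ / 𝒜.card) ^ 2 = hh 𝒜 := by
  have h0 : ((𝒜.card : ℕ) : ℝ) ≠ 0 := by exact_mod_cast h𝒜.card_pos.ne'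
  have h1 := Pool.Agent.H74.PZ.parseval 𝒜 (fun _ => (1 : ℂ))
  simp only [one_mul, norm_one, one_pow, sum_const, nsmul_eq_mul, mul_one] at h1
  rw [Nat.totient_prime Fact.out] at h1
  simp only [div_pow]
  rw [← sum_div, h1]
  unfold hh
  field_simp

theorem sum_va_le (𝒜 : Finset (DirichletCharacter ℂ q)) (h𝒜 : 𝒜.Nonempty) (m : ℕ)
    (hm : (m : ZMod q) ≠ 0) : ∑ k ∈ Icc 1 (q - 1), va 𝒜 (m * k, 1) ≤ hh 𝒜 := by
  classical
  rw [← charS_sum 𝒜 h𝒜]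
  have h1 : ∀ k ∈ Icc 1 (q - 1), va 𝒜 (m * k, 1) =
      (‖∑ χ ∈ 𝒜, χ (((m * k : ℕ) : ZMod q))‖ / 𝒜.card) ^ 2 := by
    intro k _
    unfold va fc
    simp only [Nat.cast_one, map_one, mul_one]
  rw [sum_congr rfl h1]
  have hinj : Set.InjOn (fun k : ℕ => ((m * k : ℕ) : ZMod q)) (Icc 1 (q - 1) : Finset ℕ) := by
    intro a ha b hb hab
    rw [mem_coe, mem_Icc] at ha hb
    have h2 : ((m * a : ℕ) : ZMod q) = ((m * b : ℕ) : ZMod q) := hab
    push_cast at h2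
    have h3 := mul_left_cancel₀ hm h2
    rw [ZMod.natCast_eq_natCast_iff] at h3
    exact h3.eq_of_lt_of_lt (by omega) (by omega)
  rw [← sum_image (f := fun a : ZMod q => (‖∑ χ ∈ 𝒜, χ a‖ / (𝒜.card : ℝ)) ^ 2) hinj]
  exact sum_le_sum_of_subset_of_nonneg (subset_univ _) fun _ _ _ => by positivity

/-- substitution in a weight -/
lemma kf_comp {h : ℝ} {v : ℕ × ℕ → ℝ} (hv : KF q h v) (f : ℕ × ℕ → ℕ × ℕ)
    (hf : Function.Injective f)
    (H : ∀ (k : ℕ) (u : ZMod q), ∃ u' : ZMod q, ∀ t : Fin k → ℕ × ℕ,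
      ((∏ i, (f (t i)).1 : ℕ) : ZMod q) = u * ((∏ i, (f (t i)).2 : ℕ) : ZMod q) →
      ((∏ i, (t i).1 : ℕ) : ZMod q) = u' * ((∏ i, (t i).2 : ℕ) : ZMod q)) :
    KF q h (fun p => v (f p)) where
  one_le := hv.one_le
  nonneg _ := hv.nonneg _
  le_one _ := hv.le_one _
  kf P k R hk hR := by
    classical
    have h1 : ∑ p ∈ P, v (f p) = ∑ p ∈ P.image f, v p :=
      (sum_image fun a _ b _ hab => hf hab).symm
    rw [h1]
    refine hv.kf (P.image f) k R hk fun u => ?_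
    obtain ⟨u', hu'⟩ := H k u
    refine le_trans ?_ (hR u')
    norm_cast
    refine (card_le_card (t := ((Fintype.piFinset (fun _ : Fin k => P)).filter (fun t =>
      ((∏ i, (t i).1 : ℕ) : ZMod q) = u' * ((∏ i, (t i).2 : ℕ) : ZMod q))).image
        (fun t i => f (t i))) ?_).trans card_image_le
    intro t ht
    rw [mem_filter, Fintype.mem_piFinset] at ht
    have h2 : ∀ i, ∃ p ∈ P, f p = t i := fun i => mem_image.1 (ht.1 i)
    choose s hs hst using h2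
    have h3 : (fun i => f (s i)) = t := funext hst
    refine mem_image.2 ⟨s, mem_filter.2 ⟨Fintype.mem_piFinset.2 hs, hu' s ?_⟩, h3⟩
    have h4 := ht.2
    rw [← h3] at h4
    exact_mod_cast h4

theorem kf_shiftL {h : ℝ} {v : ℕ × ℕ → ℝ} (hv : KF q h v) (m : ℕ)
    (hm : (m : ZMod q) ≠ 0) : KF q h (fun p => v (m * p.1, p.2)) := by
  have hm0 : m ≠ 0 := by
    rintro rfl
    exact hm (by simp)
  refine kf_comp hv (fun p => (m * p.1, p.2)) ?_ fun k u => ⟨((m : ZMod q) ^ k)⁻¹ * u, fun t ht => ?_⟩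
  · rintro ⟨a, b⟩ ⟨c, d⟩ h
    rw [Prod.mk.injEq] at h
    exact Prod.ext (Nat.eq_of_mul_eq_mul_left (Nat.pos_of_ne_zero hm0) h.1) h.2
  · rw [prod_mul_distrib, prod_const, card_univ, Fintype.card_fin] at ht
    push_cast at ht ⊢
    rw [mul_assoc, ← ht, inv_mul_cancel_left₀ (pow_ne_zero k hm)]

theorem kf_shiftR {h : ℝ} {v : ℕ × ℕ → ℝ} (hv : KF q h v) (m : ℕ)
    (hm : (m : ZMod q) ≠ 0) : KF q h (fun p => v (p.1, m * p.2)) := by
  have hm0 : m ≠ 0 := by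
    rintro rfl
    exact hm (by simp)
  refine kf_comp hv (fun p => (p.1, m * p.2)) ?_ fun k u => ⟨u * (m : ZMod q) ^ k, fun t ht => ?_⟩
  · rintro ⟨a, b⟩ ⟨c, d⟩ h
    rw [Prod.mk.injEq] at h
    exact Prod.ext h.1 (Nat.eq_of_mul_eq_mul_left (Nat.pos_of_ne_zero hm0) h.2)
  · rw [prod_mul_distrib, prod_const, card_univ, Fintype.card_fin] at ht
    push_cast at ht ⊢
    rw [ht, mul_assoc]

end Pool.Agent.H74.TS
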