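import Pool.Agent.H74.TS.Mom
import Pool.Agent.H74.TS.CharS
import Pool.Agent.H14.PT.S1b

/-!
# The first moment over a product set

`wfirst_moment`: as `first_moment` of `Pool/Agent/H14/PT/S1a.lean` (`LFunction_half_nat`,
`sum_pairs` with `b = 1`).

`wfirst_err`: as `first_moment_err` there, with `cZ_sub`; the terms are bounded by
`(3/√q) |fc 𝒜 (mk,1)| |fc ℬ (mk,1)| = (3/√q) |𝒜||ℬ| ww (va 𝒜) (va ℬ) (mk,1)` and for fixed `m`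
(a unit) Cauchy-Schwarz and `sum_va_le` give
`∑_k ww (va 𝒜) (va ℬ) (mk,1) ≤ √(hh 𝒜) √(hh ℬ)`; there are at most `Y` values of `m`.
-/

namespace Pool.Agent.H74.TS

open Finset Pool.Agent.H14.PT
open scoped ComplexConjugate Real

variable {q : ℕ} [Fact q.Prime]

theorem wfirst_moment (𝒜 ℬ : Finset (DirichletCharacter ℂ q)) (Mf : Finset ℕ) (w : ℕ → ℝ) :
    ∑ x ∈ 𝒜 ×ˢ ℬ, Mol Mf w (x.1 * x.2) * (x.1 * x.2).LFunction (1 / 2) =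
      ∑ i ∈ Mf ×ˢ Icc 1 (q - 1), ((w i.1 * (i.1 : ℝ) ^ (-(1 / 2) : ℝ) * cZ q i.2 : ℝ) : ℂ) *
        (fc 𝒜 (i.1 * i.2, 1) * fc ℬ (i.1 * i.2, 1)) := by
  have h1 : ∀ χ : DirichletCharacter ℂ q, Mol Mf w χ * χ.LFunction (1 / 2) =
      ∑ i ∈ Mf ×ˢ Icc 1 (q - 1), ((w i.1 * (i.1 : ℝ) ^ (-(1 / 2) : ℝ) * cZ q i.2 : ℝ) : ℂ) *
        (χ ((i.1 * i.2 : ℕ) : ZMod q) * conj (χ ((1 : ℕ) : ZMod q))) := by
    intro χ
    rw [LFunction_half_nat]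
    unfold Mol
    rw [Finset.sum_mul_sum, Finset.sum_product]
    refine Finset.sum_congr rfl fun m _ => Finset.sum_congr rfl fun k _ => ?_
    push_cast
    simp only [map_mul, map_one, mul_one]
    ring
  rw [Finset.sum_congr rfl fun x _ => h1 (x.1 * x.2), Finset.sum_comm]
  refine Finset.sum_congr rfl fun i _ => ?_
  rw [← Finset.mul_sum, sum_pairs]

theorem wfirst_err (𝒜 ℬ : Finset (DirichletCharacter ℂ q)) (h𝒜 : 𝒜.Nonempty) (hℬ : ℬ.Nonempty)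
    (Mf : Finset ℕ) (w : ℕ → ℝ) (Y : ℕ) (hM : ∀ m ∈ Mf, 1 ≤ m ∧ m ≤ Y) (hY : Y < q)
    (hw : ∀ m, |w m| ≤ 1) :
    ‖∑ i ∈ Mf ×ˢ Icc 1 (q - 1), ((w i.1 * (i.1 : ℝ) ^ (-(1 / 2) : ℝ) * cZ q i.2 : ℝ) : ℂ) *
        (fc 𝒜 (i.1 * i.2, 1) * fc ℬ (i.1 * i.2, 1)) -
      ∑ i ∈ Mf ×ˢ Icc 1 (q - 1), ((w i.1 * (((i.1 * i.2 : ℕ) : ℝ)) ^ (-(1 / 2) : ℝ) : ℝ) : ℂ) *
        (fc 𝒜 (i.1 * i.2, 1) * fc ℬ (i.1 * i.2, 1))‖
      ≤ 3 / √q * (Y * √(hh 𝒜 * hh ℬ)) * ((𝒜.card : ℝ) * ℬ.card) := by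
  have hA0 : (0 : ℝ) < 𝒜.card := by exact_mod_cast h𝒜.card_pos
  have hB0 : (0 : ℝ) < ℬ.card := by exact_mod_cast hℬ.card_pos
  rw [← Finset.sum_sub_distrib]
  refine (norm_sum_le _ _).trans ?_
  have h1 : ∀ i ∈ Mf ×ˢ Icc 1 (q - 1),
      ‖((w i.1 * (i.1 : ℝ) ^ (-(1 / 2) : ℝ) * cZ q i.2 : ℝ) : ℂ) *
        (fc 𝒜 (i.1 * i.2, 1) * fc ℬ (i.1 * i.2, 1)) -
      ((w i.1 * (((i.1 * i.2 : ℕ) : ℝ)) ^ (-(1 / 2) : ℝ) : ℝ) : ℂ) *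
        (fc 𝒜 (i.1 * i.2, 1) * fc ℬ (i.1 * i.2, 1))‖ ≤
      3 / √q * (‖fc 𝒜 (i.1 * i.2, 1)‖ * ‖fc ℬ (i.1 * i.2, 1)‖) := by
    intro i hi
    obtain ⟨h3, h4⟩ := Finset.mem_product.mp hi
    obtain ⟨h5, _⟩ := hM _ h3
    have hm0 : (0 : ℝ) < i.1 := by exact_mod_cast h5
    have hk := (Finset.mem_Icc.mp h4).1
    have hk0 : (0 : ℝ) < i.2 := by exact_mod_cast hk
    rw [← sub_mul, ← Complex.ofReal_sub, norm_mul, Complex.norm_real, Real.norm_eq_abs, norm_mul]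
    have e1 : w i.1 * (i.1 : ℝ) ^ (-(1 / 2) : ℝ) * cZ q i.2 - w i.1 * (((i.1 * i.2 : ℕ) : ℝ)) ^ (-(1 / 2) : ℝ)
        = w i.1 * (i.1 : ℝ) ^ (-(1 / 2) : ℝ) * (cZ q i.2 - (i.2 : ℝ) ^ (-(1 / 2) : ℝ)) := by
      rw [Nat.cast_mul, Real.mul_rpow hm0.le hk0.le]
      ring
    rw [e1, abs_mul, abs_mul]
    have e2 : |(i.1 : ℝ) ^ (-(1 / 2) : ℝ)| ≤ 1 := by
      rw [abs_of_nonneg (by positivity)]
      exact Real.rpow_le_one_of_one_le_of_nonpos (by exact_mod_cast h5) (by norm_num)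
    have e3 := cZ_sub i.2 h4
    have e5 : (0 : ℝ) ≤ 3 / √q := by positivity
    refine mul_le_mul_of_nonneg_right ?_ (by positivity)
    calc |w i.1| * |(i.1 : ℝ) ^ (-(1 / 2) : ℝ)| * |cZ q i.2 - (i.2 : ℝ) ^ (-(1 / 2) : ℝ)|
          ≤ 1 * 1 * (3 / √q) := by
          gcongr
          exact hw _
      _ = _ := by ring
  refine (Finset.sum_le_sum h1).trans ?_
  rw [← Finset.mul_sum, mul_assoc]
  refine mul_le_mul_of_nonneg_left ?_ (by positivity)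
  rw [Finset.sum_product]
  have hva : ∀ (𝒞 : Finset (DirichletCharacter ℂ q)), 𝒞.Nonempty → ∀ m ∈ Mf,
      ∑ k ∈ Icc 1 (q - 1), ‖fc 𝒞 (m * k, 1)‖ ^ 2 ≤ (𝒞.card : ℝ) ^ 2 * hh 𝒞 := by
    intro 𝒞 h𝒞 m hm
    have hC0 : (0 : ℝ) < 𝒞.card := by exact_mod_cast h𝒞.card_pos
    have hm0 : (m : ZMod q) ≠ 0 := by
      intro h0
      rw [ZMod.natCast_eq_zero_iff] at h0
      have := hM m hm
      exact absurd (Nat.le_of_dvd (by omega) h0) (by omega)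
    have h2 := sum_va_le 𝒞 h𝒞 m hm0
    have h3 : ∀ k ∈ Icc 1 (q - 1), ‖fc 𝒞 (m * k, 1)‖ ^ 2 = (𝒞.card : ℝ) ^ 2 * va 𝒞 (m * k, 1) := by
      intro k _
      unfold va
      field_simp
    rw [Finset.sum_congr rfl h3, ← Finset.mul_sum]
    exact mul_le_mul_of_nonneg_left h2 (by positivity)
  have hh0 : ∀ (𝒞 : Finset (DirichletCharacter ℂ q)), 0 ≤ hh 𝒞 := by
    intro 𝒞
    unfold hh
    positivity
  have hm : ∀ m ∈ Mf, ∑ k ∈ Icc 1 (q - 1), ‖fc 𝒜 (m * k, 1)‖ * ‖fc ℬ (m * k, 1)‖ ≤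
      √(hh 𝒜 * hh ℬ) * ((𝒜.card : ℝ) * ℬ.card) := by
    intro m hm
    have h2 := hva 𝒜 h𝒜 m hm
    have h3 := hva ℬ hℬ m hm
    have h4 := Finset.sum_mul_sq_le_sq_mul_sq (Icc 1 (q - 1))
      (fun k => ‖fc 𝒜 (m * k, 1)‖) (fun k => ‖fc ℬ (m * k, 1)‖)
    have h5 : (∑ k ∈ Icc 1 (q - 1), ‖fc 𝒜 (m * k, 1)‖ * ‖fc ℬ (m * k, 1)‖) ^ 2 ≤
        (√(hh 𝒜 * hh ℬ) * ((𝒜.card : ℝ) * ℬ.card)) ^ 2 := by
      refine h4.trans ?_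
      rw [mul_pow, Real.sq_sqrt (mul_nonneg (hh0 𝒜) (hh0 ℬ))]
      calc _ ≤ ((𝒜.card : ℝ) ^ 2 * hh 𝒜) * ((ℬ.card : ℝ) ^ 2 * hh ℬ) := by
            refine mul_le_mul h2 h3 (Finset.sum_nonneg fun _ _ => by positivity) ?_
            exact mul_nonneg (by positivity) (hh0 𝒜)
        _ = _ := by ring
    exact abs_le_of_sq_le_sq' h5 (by positivity) |>.2
  refine (Finset.sum_le_sum hm).trans ?_
  rw [Finset.sum_const, nsmul_eq_mul, mul_assoc]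
  refine mul_le_mul_of_nonneg_right ?_ (by positivity)
  have : Mf ⊆ Icc 1 Y := fun m hm => Finset.mem_Icc.mpr (hM m hm)
  have := Finset.card_le_card this
  have h6 : Mf.card ≤ Y := by simpa using this
  exact_mod_cast h6

end Pool.Agent.H74.TS
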