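import Pool.Agent.H74.TS.SecA

/-!
# The weighted sum of `|DN|`, small range

`wS2_small`: as `S2_small` of `Pool/Agent/H14/PT/S2b.lean`.
The bound is `1 + Ex^2 * (16 C L^4) ≤ exp (3 κ L)` with
`Ex = exp (κ L)`, `κ = kap ε Z`, for large `L` (`poly_le_exp`).
-/

namespace Pool.Agent.H74.TS

open Finset Pool.Agent.H14.PT Pool.Agent.H16
open scoped ArithmeticFunction.Omega

theorem wS2_small (ε : ℝ) (Z : ℕ) (hε : 0 < ε) (hε1 : ε ≤ 1 / 10) (hZ : 400 ≤ ε * Z) :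
    ∃ Q0 : ℝ, ∀ (q : ℕ) [Fact q.Prime], Q0 ≤ Real.log q → Bg ε Z (Real.log q) →
    ∀ (h1 h2 : ℝ) (v1 v2 : ℕ × ℕ → ℝ), KF q h1 v1 → KF q h2 v2 →
    Real.log h1 + 2 * Real.log h2 ≤ (1 - ε) * Real.log q → ∀ N : ℕ,
    1 ≤ N → (N : ℝ) ≤ Real.exp ((1 + ε / 1000) * Real.log q) →
    ∑ p ∈ RQ ((ty ε (Real.log q) * ty ε (Real.log q)) ^ 2 * N), ww v1 v2 p *
      |DN (MfS (tz Z (Real.log q)) (ty ε (Real.log q)) (ty ε (Real.log q)))
        (wS (tz Z (Real.log q)) (ty ε (Real.log q)) (ty ε (Real.log q))) N p.1 p.2| ≤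
      Real.exp (3 * kap ε Z * Real.log q) := by
  classical
  obtain ⟨C, hC, hdiv⟩ := divisor_bound (1 / 2) (by norm_num)
  obtain ⟨Ql, hsumL⟩ := wsum_L ε Z hε hε1 hZ
  have hκ : 0 < kap ε Z := by
    unfold kap
    have hZ0 : (0 : ℝ) < Z := by
      by_contra hc
      push Not at hc
      nlinarith
    positivity
  obtain ⟨Q1, _, hQ1⟩ := poly_le_exp 4 (16 * C + 1) (kap ε Z) hκ
  refine ⟨max Ql Q1, ?_⟩
  intro q _ hq hB h1 h2 v1 v2 hv1 hv2 hc N hN1 hN2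
  have hql : Ql ≤ Real.log q := (le_max_left _ _).trans hq
  have hq1 : Q1 ≤ Real.log q := (le_max_right _ _).trans hq
  have hsL := hsumL q hql h1 h2 v1 v2 hv1 hv2 hc
  set L := Real.log q with hL
  have hL100 := hB.hL
  have hLpos : 0 < L := by linarith
  have hN2' : (N : ℝ) ≤ Real.exp (1.001 * L) := by
    refine hN2.trans (Real.exp_le_exp.mpr ?_)
    nlinarith
  have hpoly := hQ1 L hq1
  set κ := kap ε Z with hκdef
  set Ex := Real.exp (κ * L) with hEx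
  set z := tz Z L with hz
  set Y := ty ε L with hY
  set P := RQ ((Y * Y) ^ 2 * N) with hP
  set D : ℕ × ℕ → ℝ := fun p => |DN (MfS z Y Y) (wS z Y Y) N p.1 p.2| with hD
  have hCPall : ∀ p ∈ P, Red p := fun p hp => (mem_RQ.mp hp).1
  have hup : ∀ p ∈ P, ((p.1 * p.2 : ℕ) : ℝ) ≤ Real.exp ((1 + ε / 100) * L) := by
    intro p hp
    have h1 := (mem_RQ.mp hp).2
    have h2 : ((p.1 * p.2 : ℕ) : ℝ) ≤ (((Y * Y) ^ 2 * N : ℕ) : ℝ) := by exact_mod_cast h1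
    refine h2.trans ?_
    push_cast
    have hY' := hB.Y_hi
    calc ((Y : ℝ) * Y) ^ 2 * N ≤ (Real.exp (ε / 1000 * L) * Real.exp (ε / 1000 * L)) ^ 2 *
          Real.exp ((1 + ε / 1000) * L) := by
          gcongr
      _ = Real.exp ((1 + 5 * ε / 1000) * L) := by
          rw [← Real.exp_add, ← Real.exp_nat_mul, ← Real.exp_add]; congr 1; push_cast; ring
      _ ≤ _ := Real.exp_le_exp.mpr (by nlinarith [mul_pos hε hLpos])
  have hpt : ∀ p ∈ P, ww v1 v2 p * D p ≤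
      (if Ex ≤ ((p.1 * p.2 : ℕ) : ℝ) then ww v1 v2 p * (T0 p * (16 * L ^ 4)) else 0) +
      (if ((p.1 * p.2 : ℕ) : ℝ) ≤ Ex then C * (16 * L ^ 4) else 0) := by
    intro p hp
    obtain ⟨hcop, h1, h2⟩ := hCPall p hp
    have hT : D p ≤ T0 p * (16 * L ^ 4) := wDN_T0 hB h1 h2 hcop hN1 hN2'
    have hD0 : 0 ≤ D p := abs_nonneg _
    have hw0 := ww_nonneg v1 v2 p
    have hw1 := ww_le_one hv1 hv2 p
    have hT0 : 0 ≤ T0 p * (16 * L ^ 4) := mul_nonneg (T0_nonneg p) (by positivity)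
    have hn0 : p.1 * p.2 ≠ 0 := Nat.mul_ne_zero h1 h2
    have hn0r : (0 : ℝ) < ((p.1 * p.2 : ℕ) : ℝ) := by exact_mod_cast Nat.pos_of_ne_zero hn0
    by_cases hbig : Ex ≤ ((p.1 * p.2 : ℕ) : ℝ)
    · rw [if_pos hbig]
      have h3 : 0 ≤ (if ((p.1 * p.2 : ℕ) : ℝ) ≤ Ex then C * (16 * L ^ 4) else 0) := by
        split_ifs <;> positivity
      have h4 : ww v1 v2 p * D p ≤ ww v1 v2 p * (T0 p * (16 * L ^ 4)) :=
        mul_le_mul_of_nonneg_left hT hw0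
      linarith
    · rw [if_neg hbig]
      push Not at hbig
      rw [if_pos hbig.le]
      have hTC : T0 p ≤ C := by
        unfold T0
        calc _ ≤ (C * (((p.1 * p.2 : ℕ) : ℝ)) ^ (1 / 2 : ℝ)) * (((p.1 * p.2 : ℕ) : ℝ)) ^ (-(1 / 2) : ℝ) := by
              gcongr
              exact hdiv _ hn0
          _ = C := by
              rw [mul_assoc, ← Real.rpow_add hn0r]; norm_num
      have h5 : T0 p * (16 * L ^ 4) ≤ C * (16 * L ^ 4) := by gcongr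
      have h6 : ww v1 v2 p * D p ≤ 1 * D p := mul_le_mul_of_nonneg_right hw1 hD0
      linarith
  refine (Finset.sum_le_sum hpt).trans ?_
  rw [Finset.sum_add_distrib]
  have s2 : ∑ p ∈ P, (if Ex ≤ ((p.1 * p.2 : ℕ) : ℝ) then ww v1 v2 p * (T0 p * (16 * L ^ 4)) else 0)
      ≤ 1 := by
    rw [← Finset.sum_filter]
    apply hsL
    intro p hp
    obtain ⟨h1, h2⟩ := Finset.mem_filter.mp hp
    exact ⟨hCPall p h1, h2, hup p h1⟩
  have s3 : ∑ p ∈ P, (if ((p.1 * p.2 : ℕ) : ℝ) ≤ Ex then C * (16 * L ^ 4) else 0) ≤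
      Ex ^ 2 * (C * (16 * L ^ 4)) := by
    rw [← Finset.sum_filter, Finset.sum_const, nsmul_eq_mul]
    have h1 := count_small (E := Ex) (Real.exp_pos _).le (P.filter (fun p => ((p.1 * p.2 : ℕ) : ℝ) ≤ Ex))
      (fun p hp => by
        obtain ⟨h1, h2⟩ := Finset.mem_filter.mp hp
        obtain ⟨_, h3, h4⟩ := hCPall p h1
        exact ⟨h3, h4, h2⟩)
    gcongr
  have hEx1 : 1 ≤ Ex ^ 2 := one_le_pow₀ (Real.one_le_exp (by positivity))
  have hL4 : 1 ≤ L ^ 4 := one_le_pow₀ (by linarith)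
  calc _ ≤ 1 + Ex ^ 2 * (C * (16 * L ^ 4)) := add_le_add s2 s3
    _ ≤ Ex ^ 2 * ((16 * C + 1) * L ^ 4) := by nlinarith
    _ ≤ Ex ^ 2 * Real.exp (κ * L) := by gcongr
    _ = Real.exp (3 * κ * L) := by
        rw [hEx, ← Real.exp_nat_mul, ← Real.exp_add]; congr 1; push_cast; ring

end Pool.Agent.H74.TS
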