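import Pool.Agent.H74.TS.Mom
import Pool.Agent.H74.TS.SecS
import Pool.Agent.H14.PT.S2d

/-!
# The total mollified second moment over a product set

`Cd ε 𝒜 ℬ` is the condition on the sizes: with `hh 𝒜 = (q-1)/|𝒜|`,
`log (hh 𝒜) + 2 log (hh ℬ) ≤ (1-ε) log q`.

`Cd.card_ge`: from `log (hh ℬ) ≤ (1-ε)/2 L` (as `log (hh 𝒜) ≥ 0` by `(va_kf ..).one_le`):
`|ℬ| ≥ (q-1) exp (-(1-ε) L/2) ≥ (q/2) exp (-(1-ε)L/2) ≥ exp ((1/2 + ε/4) L)` (`hLε`).

`wG_bounds`: as `G_bounds` of `Pool/Agent/H14/PT/S2c.lean`, from `wmoment_le`, `wS2_mid`,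
`wS2_small`, `sum_PN_sub`, `va_kf`.  The principal character contributes at most
`|𝒜| Y^4 √k (1 + log k)^2 ≤ |𝒜| exp ((4ε/1000 + 1/2 + ε/2000) L) (2L)^2 ≤ |𝒜| exp ((1/2 + ε/4) L)
≤ |𝒜| |ℬ|` for large `L`.
-/

namespace Pool.Agent.H74.TS

open Finset Pool.Agent.H14.PT
open scoped ComplexConjugate Real

/-- the condition on the sizes of the two sets -/
def Cd {q : ℕ} [Fact q.Prime] (ε : ℝ) (𝒜 ℬ : Finset (DirichletCharacter ℂ q)) : Prop :=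
  𝒜.Nonempty ∧ ℬ.Nonempty ∧ Real.log (hh 𝒜) + 2 * Real.log (hh ℬ) ≤ (1 - ε) * Real.log q

theorem Cd.card_ge {q : ℕ} [Fact q.Prime] {ε : ℝ} {Z : ℕ} (hB : Bg ε Z (Real.log q))
    {𝒜 ℬ : Finset (DirichletCharacter ℂ q)} (h : Cd ε 𝒜 ℬ) :
    Real.exp ((1 / 2 + ε / 4) * Real.log q) ≤ (ℬ.card : ℝ) := by
  obtain ⟨hA, hBn, hc⟩ := h
  have hqp : q.Prime := Fact.out
  have hq0 : (0 : ℝ) < q := by exact_mod_cast hqp.pos
  have hqe : Real.exp (Real.log q) = q := Real.exp_log hq0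
  have h1 := (va_kf 𝒜 hA).one_le
  have h2 := (va_kf ℬ hBn).one_le
  have h3 : 0 ≤ Real.log (hh 𝒜) := Real.log_nonneg h1
  set L := Real.log q with hL
  have hLpos := hB.Lpos
  have hε := hB.hLε
  have h4 : Real.log (hh ℬ) ≤ (1 - ε) / 2 * L := by linarith
  have hB0 : (0 : ℝ) < ℬ.card := by exact_mod_cast hBn.card_pos
  have hh0 : 0 < hh ℬ := lt_of_lt_of_le one_pos h2
  have h5 : hh ℬ ≤ Real.exp ((1 - ε) / 2 * L) := by
    rw [← Real.exp_log hh0]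
    exact Real.exp_le_exp.mpr h4
  have h6 : ((q - 1 : ℕ) : ℝ) = hh ℬ * ℬ.card := by
    unfold hh
    field_simp
  have h7 : ((q - 1 : ℕ) : ℝ) = q - 1 := by
    rw [Nat.cast_sub hqp.one_lt.le]; simp
  have h8 : (q : ℝ) ≤ 2 * ((q - 1 : ℕ) : ℝ) := by
    rw [h7]
    have : (2 : ℝ) ≤ q := by exact_mod_cast hqp.two_le
    linarith
  have h9 : Real.exp L ≤ 2 * (Real.exp ((1 - ε) / 2 * L) * ℬ.card) := by
    rw [hqe]
    refine h8.trans ?_
    rw [h6]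
    gcongr
  have h10 : (2 : ℝ) ≤ Real.exp (ε * L / 4) := by
    have := Real.add_one_le_exp (ε * L / 4)
    linarith
  have h11 : Real.exp ((1 / 2 + ε / 4) * L) * (Real.exp ((1 - ε) / 2 * L) * 2) ≤
      (ℬ.card : ℝ) * (Real.exp ((1 - ε) / 2 * L) * 2) := by
    calc Real.exp ((1 / 2 + ε / 4) * L) * (Real.exp ((1 - ε) / 2 * L) * 2)
        ≤ Real.exp ((1 / 2 + ε / 4) * L) * (Real.exp ((1 - ε) / 2 * L) * Real.exp (ε * L / 4)) := by
          gcongr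
      _ = Real.exp L := by
          rw [← Real.exp_add, ← Real.exp_add]
          congr 1
          ring
      _ ≤ 2 * (Real.exp ((1 - ε) / 2 * L) * ℬ.card) := h9
      _ = _ := by ring
  exact le_of_mul_le_mul_right h11 (by positivity)

theorem wG_bounds (ε : ℝ) (Z : ℕ) (hε : 0 < ε) (hε1 : ε ≤ 1 / 10) (hZ : 400 ≤ ε * Z) :
    ∃ C Q0 : ℝ, 0 < C ∧ ∀ (q : ℕ) [Fact q.Prime], Q0 ≤ Real.log q → Bg ε Z (Real.log q) →
    ∀ (𝒜 ℬ : Finset (DirichletCharacter ℂ q)), Cd ε 𝒜 ℬ →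
    ∀ k : ℕ, 1 ≤ k → (k : ℝ) ≤ Real.exp ((1 + ε / 1000) * Real.log q) →
    ‖∑ x ∈ PN 𝒜 ℬ, ((‖Mol (MfS (tz Z (Real.log q)) (ty ε (Real.log q)) (ty ε (Real.log q)))
        (wS (tz Z (Real.log q)) (ty ε (Real.log q)) (ty ε (Real.log q))) (x.1 * x.2)‖ ^ 2 : ℝ) : ℂ) *
        TT (x.1 * x.2) k‖ ≤ 2 * Real.exp (3 * kap ε Z * Real.log q) * ((𝒜.card : ℝ) * ℬ.card) ∧
    (Real.exp ((1 - ε / 1000) * Real.log q) ≤ k →
    ‖∑ x ∈ PN 𝒜 ℬ, ((‖Mol (MfS (tz Z (Real.log q)) (ty ε (Real.log q)) (ty ε (Real.log q)))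
        (wS (tz Z (Real.log q)) (ty ε (Real.log q)) (ty ε (Real.log q))) (x.1 * x.2)‖ ^ 2 : ℝ) : ℂ) *
        TT (x.1 * x.2) k‖ ≤ C * ((𝒜.card : ℝ) * ℬ.card)) := by
  obtain ⟨C, Q1, hC, hmid⟩ := wS2_mid ε Z hε hε1 hZ
  obtain ⟨Q2, hsmall⟩ := wS2_small ε Z hε hε1 hZ
  obtain ⟨Q3, _, hQ3⟩ := poly_le_exp 2 4 (ε / 100) (by positivity)
  refine ⟨C + 1, max (max Q1 Q2) Q3, by positivity, ?_⟩
  intro q _ hq hB 𝒜 ℬ hcd k hk1 hk2
  have hq1 : Q1 ≤ Real.log q := (le_max_left _ _).trans ((le_max_left _ _).trans hq)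
  have hq2 : Q2 ≤ Real.log q := (le_max_right _ _).trans ((le_max_left _ _).trans hq)
  have hq3 : Q3 ≤ Real.log q := (le_max_right _ _).trans hq
  have hqp : q.Prime := Fact.out
  have hq0 : (0 : ℝ) < q := by exact_mod_cast hqp.pos
  have hBge := hcd.card_ge hB
  obtain ⟨hA, hBn, hc⟩ := hcd
  have hva := va_kf 𝒜 hA
  have hvb := va_kf ℬ hBn
  have hm := hmid q hq1 hB _ _ _ _ hva hvb hc k
  have hs := hsmall q hq2 hB _ _ _ _ hva hvb hc k hk1 hk2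
  have hqe : Real.exp (Real.log q) = q := Real.exp_log hq0
  set L := Real.log q with hL
  have hL100 := hB.hL
  have hLpos : 0 < L := by linarith
  have hεL : 0 < ε * L := by positivity
  set Y := ty ε L with hY
  set z := tz Z L with hz
  have hYhi := hB.Y_hi
  have hYhi' := hB.Y_hi'
  have hY2 : 2 ≤ Y := hB.Y_two
  have hYq : Y * Y < q := by
    have : ((Y * Y : ℕ) : ℝ) < q := by
      push_cast
      calc (Y : ℝ) * Y ≤ Real.exp (L / 1000) * Real.exp (L / 1000) := by gcongr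
        _ = Real.exp (L / 1000 + L / 1000) := by rw [Real.exp_add]
        _ < Real.exp L := Real.exp_lt_exp.mpr (by linarith)
        _ = q := hqe
    exact_mod_cast this
  have hkq : k < q ^ 2 := by
    have : (k : ℝ) < ((q ^ 2 : ℕ) : ℝ) := by
      push_cast
      calc (k : ℝ) ≤ Real.exp ((1 + ε / 1000) * L) := hk2
        _ < Real.exp (2 * L) := Real.exp_lt_exp.mpr (by nlinarith)
        _ = (q : ℝ) ^ 2 := by
            rw [← hqe, ← Real.exp_nat_mul]; push_cast; rfl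
    exact_mod_cast this
  have hfull := wmoment_le 𝒜 ℬ hA hBn (MfS z Y Y) (wS z Y Y) k (Y * Y) (fun m hm => MfS_bounds hm)
    hYq hkq
  have hE : ‖((‖Mol (MfS z Y Y) (wS z Y Y) (1 : DirichletCharacter ℂ q)‖ ^ 2 : ℝ) : ℂ) *
      TT (1 : DirichletCharacter ℂ q) k‖ ≤ (ℬ.card : ℝ) := by
    rw [norm_mul, Complex.norm_real, Real.norm_of_nonneg (by positivity)]
    have h1 := norm_Mol_le (MfS z Y Y) (wS z Y Y) (1 : DirichletCharacter ℂ q) (Y := Y * Y)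
      (fun m hm => MfS_bounds hm) (fun m => abs_wS_le hY2 m)
    have h2 := norm_TT_le2 (1 : DirichletCharacter ℂ q) k
    have hk0 : (0 : ℝ) < k := by exact_mod_cast hk1
    have h3 : Real.log k ≤ (1 + ε / 1000) * L := by
      have := Real.log_le_log hk0 hk2
      rwa [Real.log_exp] at this
    have h4 : 0 ≤ Real.log k := Real.log_natCast_nonneg _
    have h5 : Real.sqrt k ≤ Real.exp ((1 / 2 + ε / 2000) * L) := by
      rw [Real.sqrt_le_left (Real.exp_pos _).le, ← Real.exp_nat_mul]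
      refine hk2.trans (Real.exp_le_exp.mpr ?_)
      push_cast
      linarith
    have h6 := hQ3 L hq3
    calc ‖Mol (MfS z Y Y) (wS z Y Y) (1 : DirichletCharacter ℂ q)‖ ^ 2 *
          ‖TT (1 : DirichletCharacter ℂ q) k‖
        ≤ ((Y * Y : ℕ) : ℝ) ^ 2 * (Real.sqrt k * (1 + Real.log k) ^ 2) := by gcongr
      _ ≤ (Real.exp (ε / 1000 * L) * Real.exp (ε / 1000 * L)) ^ 2 *
          (Real.exp ((1 / 2 + ε / 2000) * L) * (2 * L) ^ 2) := by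
          push_cast
          gcongr
          nlinarith
      _ = (Real.exp (ε / 1000 * L) * Real.exp (ε / 1000 * L)) ^ 2 *
          (Real.exp ((1 / 2 + ε / 2000) * L) * (4 * L ^ 2)) := by
          ring
      _ ≤ (Real.exp (ε / 1000 * L) * Real.exp (ε / 1000 * L)) ^ 2 *
          (Real.exp ((1 / 2 + ε / 2000) * L) * Real.exp (ε / 100 * L)) := by
          gcongr
      _ = Real.exp ((1 / 2 + ε * (29 / 2000)) * L) := by
          rw [← Real.exp_add, ← Real.exp_nat_mul, ← Real.exp_add, ← Real.exp_add]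
          congr 1; push_cast; ring
      _ ≤ Real.exp ((1 / 2 + ε / 4) * L) := Real.exp_le_exp.mpr (by nlinarith)
      _ ≤ _ := hBge
  have hPN : ‖∑ x ∈ PN 𝒜 ℬ, ((‖Mol (MfS z Y Y) (wS z Y Y) (x.1 * x.2)‖ ^ 2 : ℝ) : ℂ) *
        TT (x.1 * x.2) k‖ ≤
      ‖∑ x ∈ 𝒜 ×ˢ ℬ, ((‖Mol (MfS z Y Y) (wS z Y Y) (x.1 * x.2)‖ ^ 2 : ℝ) : ℂ) *
        TT (x.1 * x.2) k‖ + (𝒜.card : ℝ) * ℬ.card := by
    have h1 := sum_PN_sub 𝒜 ℬ (fun χ => ((‖Mol (MfS z Y Y) (wS z Y Y) χ‖ ^ 2 : ℝ) : ℂ) * TT χ k)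
    have h2 := norm_le_norm_add_norm_sub' (∑ x ∈ PN 𝒜 ℬ,
      ((‖Mol (MfS z Y Y) (wS z Y Y) (x.1 * x.2)‖ ^ 2 : ℝ) : ℂ) * TT (x.1 * x.2) k)
      (∑ x ∈ 𝒜 ×ˢ ℬ, ((‖Mol (MfS z Y Y) (wS z Y Y) (x.1 * x.2)‖ ^ 2 : ℝ) : ℂ) *
        TT (x.1 * x.2) k)
    rw [norm_sub_rev] at h2
    refine h2.trans (add_le_add le_rfl (h1.trans ?_))
    exact mul_le_mul_of_nonneg_left hE (Nat.cast_nonneg _)
  have hAB0 : (0 : ℝ) ≤ (𝒜.card : ℝ) * ℬ.card := by positivity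
  constructor
  · refine hPN.trans ?_
    have hk := hB.kpos
    have h1 : 1 ≤ Real.exp (3 * kap ε Z * L) := Real.one_le_exp (by positivity)
    calc _ ≤ ((𝒜.card : ℝ) * ℬ.card) * Real.exp (3 * kap ε Z * L) + (𝒜.card : ℝ) * ℬ.card := by
          refine add_le_add (hfull.trans ?_) le_rfl
          exact mul_le_mul_of_nonneg_left hs hAB0
      _ ≤ _ := by nlinarith
  · intro hk3
    refine hPN.trans ?_
    have hm' := hm hk3 hk2
    calc _ ≤ ((𝒜.card : ℝ) * ℬ.card) * C + (𝒜.card : ℝ) * ℬ.card := by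
          refine add_le_add (hfull.trans ?_) le_rfl
          exact mul_le_mul_of_nonneg_left hm' hAB0
      _ = _ := by ring

end Pool.Agent.H74.TS
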