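import Pool.Agent.H74.TS.FirA
import Pool.Agent.H74.TS.FirM
import Pool.Agent.H74.TS.SecB

/-!
# The first moment: lower bound

`wS1_total`: as `S1_total` of `Pool/Agent/H14/PT/S1c.lean`.  Use `wfirst_moment`, `wfirst_err`,
`wmain_term` with `c x = fc 𝒜 (x,1) * fc ℬ (x,1) / (|𝒜||ℬ|)` (so `c 1 = 1` and
`‖c x‖ = ww (va 𝒜) (va ℬ) (x, 1)`), `U = exp (κ L) ≤ Y`, `wsum_R1` for the `x ≤ U` and `wsum_L` for
the `x > U` (`x ≤ Y^2 q ≤ exp ((1 + ε/100) L)`).  The error term is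
`3 q^(-1/2) Y^2 √(hh 𝒜 hh ℬ) ≤ 3 exp (-L/2 + (2ε/1000) L + (1-ε) L/2) ≤ 1/8` (`hLε`; note that `Mf`
consists of numbers `≤ Y * Y`).  The principal character: `sum_PN_sub` and
`norm_LFunction_half_le`, `norm_Mol_le` give
`|𝒜| Y^2 √q (4 + L) ≤ |𝒜| exp ((1/2 + ε/4) L)/8 ≤ |𝒜||ℬ|/8` for large `L` (`Cd.card_ge`).
-/

namespace Pool.Agent.H74.TS

open Finset Pool.Agent.H14.PT
open scoped ComplexConjugate Real

/-- the normalised coefficient -/
lemma norm_fc_mul {q : ℕ} [Fact q.Prime] (𝒜 ℬ : Finset (DirichletCharacter ℂ q)) (p : ℕ × ℕ) :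
    ‖fc 𝒜 p * fc ℬ p / (((𝒜.card : ℝ) * ℬ.card : ℝ) : ℂ)‖ = ww (va 𝒜) (va ℬ) p := by
  unfold ww va
  rw [← mul_pow, Real.sqrt_sq (by positivity), norm_div, norm_mul, Complex.norm_real,
    Real.norm_of_nonneg (by positivity), div_mul_div_comm]

lemma fc_one {q : ℕ} [Fact q.Prime] (𝒜 : Finset (DirichletCharacter ℂ q)) :
    fc 𝒜 (1, 1) = 𝒜.card := by
  unfold fc
  simp

theorem wS1_total (ε : ℝ) (Z : ℕ) (hε : 0 < ε) (hε1 : ε ≤ 1 / 10) (hZ : 400 ≤ ε * Z) :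
    ∃ Q0 : ℝ, ∀ (q : ℕ) [Fact q.Prime], Q0 ≤ Real.log q → Bg ε Z (Real.log q) →
    ∀ (𝒜 ℬ : Finset (DirichletCharacter ℂ q)), Cd ε 𝒜 ℬ →
    ((𝒜.card : ℝ) * ℬ.card) / 2 ≤ ‖∑ x ∈ PN 𝒜 ℬ,
      Mol (MfS (tz Z (Real.log q)) (ty ε (Real.log q)) (ty ε (Real.log q)))
        (wS (tz Z (Real.log q)) (ty ε (Real.log q)) (ty ε (Real.log q))) (x.1 * x.2) *
        DirichletCharacter.LFunction (x.1 * x.2) (1 / 2)‖ := by
  classical
  obtain ⟨Q1, hsumL⟩ := wsum_L ε Z hε hε1 hZ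
  obtain ⟨Q2, _, hQ2⟩ := poly_le_exp 1 16 (ε / 8) (by positivity)
  refine ⟨max Q1 Q2, ?_⟩
  intro q _ hq hB 𝒜 ℬ hcd
  have hq1 : Q1 ≤ Real.log q := (le_max_left _ _).trans hq
  have hq2 : Q2 ≤ Real.log q := (le_max_right _ _).trans hq
  have hqp : q.Prime := Fact.out
  have hq0 : (0 : ℝ) < q := by exact_mod_cast hqp.pos
  have hℬge := hcd.card_ge hB
  have hqe : Real.exp (Real.log q) = q := Real.exp_log hq0
  obtain ⟨hAne, hBne, hsz⟩ := hcd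
  have kA := va_kf 𝒜 hAne
  have kB := va_kf ℬ hBne
  have hL' := hsumL q hq1 (hh 𝒜) (hh ℬ) (va 𝒜) (va ℬ) kA kB hsz
  have hR' := fun P hP => wsum_R1 hB kA kB hsz P hP
  have hLb := norm_LFunction_half_le (1 : DirichletCharacter ℂ q)
  have hpoly := hQ2 _ hq2
  have h1A := kA.one_le
  have h1B := kB.one_le
  set L := Real.log q with hL
  have hL100 := hB.hL
  have hLpos : 0 < L := by linarith
  have hLε := hB.hLε
  set Y := ty ε L with hY
  set z := tz Z L with hz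
  have hYhi : (Y : ℝ) ≤ Real.exp (ε / 1000 * L) := hB.Y_hi
  have hYlo : Real.exp (ε / 1000 * L) / 2 ≤ (Y : ℝ) := hB.Y_lo
  have hY2 : 2 ≤ Y := hB.Y_two
  have hYY : ((Y * Y : ℕ) : ℝ) ≤ Real.exp (2 * ε / 1000 * L) := by
    push_cast
    calc (Y : ℝ) * Y ≤ Real.exp (ε / 1000 * L) * Real.exp (ε / 1000 * L) := by gcongr
      _ = Real.exp (2 * ε / 1000 * L) := by rw [← Real.exp_add]; congr 1; ring
  have hYq : Y * Y < q := by
    have : ((Y * Y : ℕ) : ℝ) < q := by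
      calc _ ≤ Real.exp (2 * ε / 1000 * L) := hYY
        _ < Real.exp L := Real.exp_lt_exp.mpr (by nlinarith)
        _ = q := hqe
    exact_mod_cast this
  have hYq1 : Y < q := lt_of_le_of_lt (Nat.le_mul_of_pos_left _ (by omega)) hYq
  set U : ℝ := Real.exp (kap ε Z * L) with hU
  have hkle := hB.kle
  have hkpos := hB.kpos
  have hUY : U ≤ Y := by
    refine le_trans ?_ hYlo
    have h1 : (2 : ℝ) ≤ Real.exp (ε / 2000 * L) := by
      have := Real.add_one_le_exp (ε / 2000 * L)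
      linarith
    have h2 : U * 2 ≤ Real.exp (ε / 1000 * L) := by
      calc U * 2 ≤ U * Real.exp (ε / 2000 * L) := by gcongr
        _ = Real.exp (kap ε Z * L + ε / 2000 * L) := by rw [hU, ← Real.exp_add]
        _ ≤ _ := Real.exp_le_exp.mpr (by nlinarith)
    linarith
  set Mf := MfS z Y Y with hMf
  set w := wS z Y Y with hw
  set P : Finset ℕ := (Mf ×ˢ Icc 1 (q - 1)).image (fun i => i.1 * i.2) with hPdef
  have hP : ∀ x, x ∈ P ↔ ∃ m ∈ MfS z Y Y, ∃ k ∈ Icc 1 (q - 1), x = m * k := by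
    intro x
    rw [hPdef, Finset.mem_image]
    constructor
    · rintro ⟨i, hi, rfl⟩
      obtain ⟨h3, h4⟩ := Finset.mem_product.mp hi
      exact ⟨i.1, h3, i.2, h4, rfl⟩
    · rintro ⟨m, hm, k, hk, rfl⟩
      exact ⟨(m, k), Finset.mem_product.mpr ⟨hm, hk⟩, rfl⟩
  set M : ℝ := (𝒜.card : ℝ) * ℬ.card with hM
  have hA0 : (0 : ℝ) < 𝒜.card := by exact_mod_cast hAne.card_pos
  have hB0' : (0 : ℝ) < ℬ.card := by exact_mod_cast hBne.card_pos
  have hM0 : 0 < M := by positivity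
  have hMc : (M : ℂ) ≠ 0 := by exact_mod_cast hM0.ne'
  set c : ℕ → ℂ := fun x => fc 𝒜 (x, 1) * fc ℬ (x, 1) / (M : ℂ) with hc
  have hc1 : c 1 = 1 := by
    simp only [hc]
    rw [fc_one, fc_one, hM]
    push_cast
    rw [div_self]
    push_cast [hM] at hMc
    exact hMc
  have hcn : ∀ x, ‖c x‖ = ww (va 𝒜) (va ℬ) (x, 1) := fun x => norm_fc_mul 𝒜 ℬ (x, 1)
  have hmain := wmain_term (q := q) z Y U hY2 hUY hYq1 c hc1 P hP
  have herr := wfirst_err 𝒜 ℬ hAne hBne Mf w (Y * Y) (fun m hm => MfS_bounds hm) hYq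
    (fun m => abs_wS_le hY2 m)
  have hfm := wfirst_moment 𝒜 ℬ Mf w
  -- size facts for elements of P
  have hPx : ∀ x ∈ P, Red (x, 1) ∧ (x : ℝ) ≤ Real.exp ((1 + ε / 100) * L) := by
    intro x hx
    obtain ⟨m, hm, k, hk, rfl⟩ := (hP x).mp hx
    have hm1 := MfS_bounds hm
    obtain ⟨hk1, hk2⟩ := Finset.mem_Icc.mp hk
    refine ⟨⟨Nat.coprime_one_right _, Nat.mul_ne_zero (by omega) (by omega), one_ne_zero⟩, ?_⟩
    have h1 : ((m * k : ℕ) : ℝ) ≤ ((Y * Y * q : ℕ) : ℝ) := by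
      exact_mod_cast Nat.mul_le_mul hm1.2 (by omega)
    calc ((m * k : ℕ) : ℝ) ≤ ((Y * Y * q : ℕ) : ℝ) := h1
      _ = ((Y * Y : ℕ) : ℝ) * q := by push_cast; ring
      _ ≤ Real.exp (2 * ε / 1000 * L) * Real.exp L := by
          rw [hqe]; gcongr
      _ = Real.exp ((1 + 2 * ε / 1000) * L) := by rw [← Real.exp_add]; congr 1; ring
      _ ≤ _ := Real.exp_le_exp.mpr (by nlinarith)
  -- the sum of T0
  set Q := (P.erase 1).filter (fun x : ℕ => ¬ ((x : ℝ) ≤ U ∧ ∃ r, r.Prime ∧ r ≤ z ∧ r ∣ x)) with hQ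
  have hT : ∑ x ∈ Q, ‖c x‖ * T0 (x, 1) ≤ 1 / 8 := by
    rw [← Finset.sum_filter_add_sum_filter_not Q (fun x : ℕ => (x : ℝ) ≤ U)]
    have hpair : ∀ S : Finset ℕ, ∑ x ∈ S, ‖c x‖ * T0 (x, 1) =
        ∑ p ∈ S ×ˢ ({1} : Finset ℕ), ww (va 𝒜) (va ℬ) p * T0 p := by
      intro S
      rw [Finset.sum_product]
      simp [hcn]
    have h16 : (0 : ℝ) < 16 * L ^ 4 := by positivity
    have h16' : 16 ≤ 16 * L ^ 4 := by
      have : 1 ≤ L ^ 4 := one_le_pow₀ (by linarith)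
      linarith
    have hmul : ∀ S : Finset ℕ, (∑ x ∈ S, ‖c x‖ * T0 (x, 1)) * (16 * L ^ 4) =
        ∑ p ∈ S ×ˢ ({1} : Finset ℕ), ww (va 𝒜) (va ℬ) p * (T0 p * (16 * L ^ 4)) := by
      intro S
      rw [hpair, Finset.sum_mul]
      refine Finset.sum_congr rfl fun p _ => by ring
    have hA : (∑ x ∈ Q.filter (fun x : ℕ => (x : ℝ) ≤ U), ‖c x‖ * T0 (x, 1)) * (16 * L ^ 4) ≤ 1 := by
      rw [hmul]
      refine hR' _ ?_
      intro p hp
      obtain ⟨h1, h2⟩ := Finset.mem_product.mp hp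
      obtain ⟨h3, h4⟩ := Finset.mem_filter.mp h1
      obtain ⟨h5, h6⟩ := Finset.mem_filter.mp h3
      obtain ⟨h7, h8⟩ := Finset.mem_erase.mp h5
      have hp2 : p.2 = 1 := Finset.mem_singleton.mp h2
      have hpe : p = (p.1, 1) := Prod.ext rfl hp2
      obtain ⟨g1, g3⟩ := hPx p.1 h8
      have hx0 : p.1 ≠ 0 := g1.2.1
      have hrough : ∀ r, r.Prime → r ∣ p.1 → z < r := by
        intro r hr hrd
        by_contra hc
        exact h6 ⟨h4, r, hr, by omega, hrd⟩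
      rw [hpe]
      simp only [mul_one]
      refine ⟨g1, rough_ge hx0 h7 hrough, h4, ?_⟩
      unfold Few
      have h9 := rough_Omega p.1 hx0 hrough
      have hlz : 0 < Real.log z := by have := hB.logz_1000; linarith
      have h10 : (ArithmeticFunction.cardFactors p.1 : ℝ) ≤ Real.log p.1 / Real.log z := by
        rw [le_div_iff₀ hlz]; exact h9
      linarith
    have hBd : (∑ x ∈ Q.filter (fun x : ℕ => ¬ (x : ℝ) ≤ U), ‖c x‖ * T0 (x, 1)) * (16 * L ^ 4) ≤ 1 := by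
      rw [hmul]
      refine hL' _ ?_
      intro p hp
      obtain ⟨h1, h2⟩ := Finset.mem_product.mp hp
      obtain ⟨h3, h4⟩ := Finset.mem_filter.mp h1
      obtain ⟨h5, h6⟩ := Finset.mem_filter.mp h3
      obtain ⟨h7, h8⟩ := Finset.mem_erase.mp h5
      have hp2 : p.2 = 1 := Finset.mem_singleton.mp h2
      have hpe : p = (p.1, 1) := Prod.ext rfl hp2
      obtain ⟨g1, g3⟩ := hPx p.1 h8
      push Not at h4
      rw [hpe]
      simp only [mul_one]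
      exact ⟨g1, h4.le, g3⟩
    have hA0 : 0 ≤ ∑ x ∈ Q.filter (fun x : ℕ => (x : ℝ) ≤ U), ‖c x‖ * T0 (x, 1) :=
      Finset.sum_nonneg fun x _ => mul_nonneg (norm_nonneg _) (T0_nonneg _)
    have hB0 : 0 ≤ ∑ x ∈ Q.filter (fun x : ℕ => ¬ (x : ℝ) ≤ U), ‖c x‖ * T0 (x, 1) :=
      Finset.sum_nonneg fun x _ => mul_nonneg (norm_nonneg _) (T0_nonneg _)
    nlinarith
  -- the error term
  have hs : √(q : ℝ) = Real.exp (L / 2) := by
    rw [← hqe, Real.sqrt_eq_iff_mul_self_eq (Real.exp_pos _).le (Real.exp_pos _).le, ← Real.exp_add]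
    congr 1; ring
  have hE : 3 / √(q : ℝ) * (((Y * Y : ℕ) : ℝ) * √(hh 𝒜 * hh ℬ)) ≤ 1 / 8 := by
    have hpA : 0 < hh 𝒜 := by linarith
    have hpB : 0 < hh ℬ := by linarith
    have hd2 : √(hh 𝒜 * hh ℬ) ≤ Real.exp ((1 - ε) / 2 * L) := by
      rw [Real.sqrt_le_left (Real.exp_pos _).le, ← Real.exp_nat_mul]
      rw [← Real.exp_log (mul_pos hpA hpB)]
      apply Real.exp_le_exp.mpr
      rw [Real.log_mul hpA.ne' hpB.ne']
      have h1 : 0 ≤ Real.log (hh ℬ) := Real.log_nonneg h1B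
      push_cast
      linarith
    have hexp : (24 : ℝ) ≤ Real.exp (ε / 4 * L) := by
      have := Real.add_one_le_exp (ε / 4 * L)
      linarith
    rw [hs]
    calc 3 / Real.exp (L / 2) * (((Y * Y : ℕ) : ℝ) * √(hh 𝒜 * hh ℬ))
        ≤ 3 / Real.exp (L / 2) * (Real.exp (2 * ε / 1000 * L) * Real.exp ((1 - ε) / 2 * L)) := by
          gcongr
      _ = 3 * Real.exp (-(L / 2) + (2 * ε / 1000 * L + (1 - ε) / 2 * L)) := by
          rw [Real.exp_add, Real.exp_add, Real.exp_neg]; ring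
      _ ≤ 3 * Real.exp (-(ε / 4 * L)) := by
          have : -(L / 2) + (2 * ε / 1000 * L + (1 - ε) / 2 * L) ≤ -(ε / 4 * L) := by
            nlinarith
          have := Real.exp_le_exp.mpr this
          linarith
      _ ≤ 1 / 8 := by
          rw [Real.exp_neg, ← div_eq_mul_inv, div_le_div_iff₀ (Real.exp_pos _) (by norm_num)]
          linarith
  set S1 := ∑ i ∈ Mf ×ˢ Icc 1 (q - 1), ((w i.1 * (i.1 : ℝ) ^ (-(1 / 2) : ℝ) * cZ q i.2 : ℝ) : ℂ) *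
        (fc 𝒜 (i.1 * i.2, 1) * fc ℬ (i.1 * i.2, 1)) with hS1
  set S2 := ∑ i ∈ Mf ×ˢ Icc 1 (q - 1), ((w i.1 * (((i.1 * i.2 : ℕ) : ℝ)) ^ (-(1 / 2) : ℝ) : ℝ) : ℂ) *
        (fc 𝒜 (i.1 * i.2, 1) * fc ℬ (i.1 * i.2, 1)) with hS2
  have hS2' : S2 = (M : ℂ) * ∑ i ∈ MfS z Y Y ×ˢ Icc 1 (q - 1),
        ((wS z Y Y i.1 * (((i.1 * i.2 : ℕ) : ℝ)) ^ (-(1 / 2) : ℝ) : ℝ) : ℂ) * c (i.1 * i.2) := by
    rw [hS2, Finset.mul_sum]
    refine Finset.sum_congr rfl fun i _ => ?_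
    have h0 : ∀ a b : ℂ, a * b = (M : ℂ) * (a * (b / (M : ℂ))) := by
      intro a b
      field_simp
    exact h0 _ _
  have hS2n : ‖S2 - (M : ℂ)‖ ≤ M / 8 := by
    have h1 : S2 - (M : ℂ) = (M : ℂ) * (∑ i ∈ MfS z Y Y ×ˢ Icc 1 (q - 1),
        ((wS z Y Y i.1 * (((i.1 * i.2 : ℕ) : ℝ)) ^ (-(1 / 2) : ℝ) : ℝ) : ℂ) * c (i.1 * i.2) - 1) := by
      rw [hS2']; ring
    rw [h1, norm_mul, Complex.norm_real, Real.norm_of_nonneg hM0.le]
    have h2 := hmain.trans hT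
    calc M * _ ≤ M * (1 / 8) := by gcongr
      _ = M / 8 := by ring
  have hS1n : ‖S1 - S2‖ ≤ M / 8 := by
    refine herr.trans ?_
    calc _ ≤ 1 / 8 * M := by gcongr
      _ = M / 8 := by ring
  have hS : 3 / 4 * M ≤ ‖S1‖ := by
    have h1 : ‖(M : ℂ)‖ ≤ ‖S1‖ + ‖S1 - (M : ℂ)‖ := by
      have := norm_sub_le S1 (S1 - (M : ℂ))
      rwa [sub_sub_cancel] at this
    have h2 : ‖S1 - (M : ℂ)‖ ≤ M / 4 := by
      have h3 : S1 - (M : ℂ) = (S1 - S2) + (S2 - (M : ℂ)) := by ring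
      rw [h3]
      refine (norm_add_le _ _).trans ?_
      linarith
    rw [Complex.norm_real, Real.norm_of_nonneg hM0.le] at h1
    linarith
  have hprin : (𝒜.card : ℝ) * ‖Mol Mf w (1 : DirichletCharacter ℂ q) *
      (1 : DirichletCharacter ℂ q).LFunction (1 / 2)‖ ≤ M / 8 := by
    rw [norm_mul]
    have h1 := norm_Mol_le Mf w (1 : DirichletCharacter ℂ q) (Y := Y * Y)
      (fun m hm => MfS_bounds hm) (fun m => abs_wS_le hY2 m)
    rw [hs] at hLb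
    rw [pow_one] at hpoly
    have h2 : 8 * (4 + L) ≤ Real.exp (ε / 8 * L) := by linarith
    have h3 : ‖Mol Mf w (1 : DirichletCharacter ℂ q)‖ * ‖(1 : DirichletCharacter ℂ q).LFunction (1 / 2)‖
        ≤ (ℬ.card : ℝ) / 8 := by
      calc ‖Mol Mf w (1 : DirichletCharacter ℂ q)‖ * ‖(1 : DirichletCharacter ℂ q).LFunction (1 / 2)‖
          ≤ Real.exp (2 * ε / 1000 * L) * (Real.exp (L / 2) * (4 + L)) := by
            gcongr
            exact h1.trans hYY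
        _ ≤ Real.exp (2 * ε / 1000 * L) * (Real.exp (L / 2) * (Real.exp (ε / 8 * L) / 8)) := by
            gcongr
            linarith
        _ = Real.exp (2 * ε / 1000 * L + (L / 2 + ε / 8 * L)) / 8 := by
            rw [Real.exp_add, Real.exp_add]; ring
        _ ≤ Real.exp ((1 / 2 + ε / 4) * L) / 8 := by
            have : 2 * ε / 1000 * L + (L / 2 + ε / 8 * L) ≤ (1 / 2 + ε / 4) * L := by nlinarith
            have := Real.exp_le_exp.mpr this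
            linarith
        _ ≤ _ := by linarith
    calc _ ≤ (𝒜.card : ℝ) * ((ℬ.card : ℝ) / 8) := by gcongr
      _ = M / 8 := by rw [hM]; ring
  have hsub := sum_PN_sub 𝒜 ℬ (fun χ => Mol Mf w χ * χ.LFunction (1 / 2))
  rw [hfm] at hsub
  have h1 : ‖S1‖ ≤ ‖∑ x ∈ PN 𝒜 ℬ, Mol Mf w (x.1 * x.2) * (x.1 * x.2).LFunction (1 / 2)‖ +
      ‖S1 - ∑ x ∈ PN 𝒜 ℬ, Mol Mf w (x.1 * x.2) * (x.1 * x.2).LFunction (1 / 2)‖ := by
    have := norm_add_le (∑ x ∈ PN 𝒜 ℬ, Mol Mf w (x.1 * x.2) * (x.1 * x.2).LFunction (1 / 2))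
      (S1 - ∑ x ∈ PN 𝒜 ℬ, Mol Mf w (x.1 * x.2) * (x.1 * x.2).LFunction (1 / 2))
    rwa [add_sub_cancel] at this
  have h2 := hsub.trans hprin
  linarith

end Pool.Agent.H74.TS
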