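import Pool.Agent.H74.TS.Mid

/-!
# Size of the main terms

`wfull_bounds` is `full_bounds` of `Pool/Agent/H14/PT/Mid2.lean`: copy the proof; the only change is
`log z / log Y ≤ (2000/ε) log z / L` (from `Bg.logY_lo`), so the constant becomes
`12000 C0 / ε`.
-/

namespace Pool.Agent.H74.TS

open Finset Pool.Agent.H14.PT Pool.Agent.H16

theorem wfull_bounds (ε : ℝ) (hε : 0 < ε) : ∃ C : ℝ, 0 < C ∧ ∀ (Z : ℕ) (L : ℝ), Bg ε Z L →
    ∀ N : ℕ, 1 ≤ N → (N : ℝ) ≤ Real.exp (1.001 * L) →
    |Full (tz Z L) (ty ε L) N 1 1| ≤ C ∧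
    ∀ a b r j : ℕ, r.Prime → r ≤ tz Z L → 1 ≤ j → a * b = r ^ j →
      |Full (tz Z L) (ty ε L) N a b| ≤ C * (Real.log r / L) := by
  obtain ⟨C0, hC0, hR⟩ := rough_bounds
  refine ⟨12000 * C0 / ε, by positivity, ?_⟩
  intro Z L hB N hN1 hN2
  have hs : ∀ p ∈ Nat.primesLE (tz Z L), p.Prime := fun p hp => (Nat.mem_primesLE.mp hp).2
  have hz2 := hB.z_two
  have hlz : 1000 ≤ Real.log (tz Z L) := hB.logz_1000
  have hlz0 : 0 < Real.log (tz Z L) := by linarith
  have hlY := hB.logY_lo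
  have hL := hB.hL
  have hLpos : 0 < L := by linarith
  have hlY0 : 0 < Real.log (ty ε L) := by
    have : 0 < ε / 2000 * L := by positivity
    linarith
  have hV := Vp_le (tz Z L) hz2
  have hV0 := Vp_pos (tz Z L)
  have hVe : ∏ p ∈ Nat.primesLE (tz Z L), (1 - 1 / (p : ℝ)) = Vp (tz Z L) := rfl
  have hlzL : Real.log (tz Z L) ≤ L := by
    have h1 := hB.zL
    linarith
  have hε1 := hB.hε1
  have hC0ε : C0 ≤ C0 / ε := by
    rw [le_div_iff₀ hε]
    nlinarith
  have hR0' : Real.log (tz Z L) / Real.log (ty ε L) ≤ 2000 * Real.log (tz Z L) / (ε * L) := by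
    rw [div_le_div_iff₀ hlY0 (by positivity)]
    have h1 : ε * L ≤ 2000 * Real.log (ty ε L) := by linarith
    calc Real.log (tz Z L) * (ε * L) ≤ Real.log (tz Z L) * (2000 * Real.log (ty ε L)) :=
          mul_le_mul_of_nonneg_left h1 hlz0.le
      _ = _ := by ring
  constructor
  · have hn1 : ∀ p ∈ rs (Nat.primesLE (tz Z L)) (ty ε L), ¬ (p ∣ 1 ∨ p ∣ 1) := by
      intro p hp h
      have hpp := rs_prime hp
      have : p ∣ 1 := by tauto
      exact hpp.one_lt.ne' (Nat.dvd_one.mp this)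
    have hn2 : ∀ p ∈ Nat.primesLE (tz Z L), ¬ (p ∣ 1 ∨ p ∣ 1) := by
      intro p hp h
      have : p ∣ 1 := by tauto
      exact (hs p hp).one_lt.ne' (Nat.dvd_one.mp this)
    obtain ⟨r0, r1⟩ := hR (tz Z L) (ty ε L) hz2 hB.zY 1 1 hn1
    have e0 : S0 1 1 (Nat.primesLE (tz Z L)) = Vp (tz Z L) := S0_none hs hn2
    have e1 : |S1 1 1 (Nat.primesLE (tz Z L))| ≤ 8 := by
      have h1 := S1_none hs hn2
      rw [hVe] at h1
      have h2 := mA_le (tz Z L) (by omega)
      have h3 : ∑ p ∈ Nat.primesLE (tz Z L), Real.log p / (p : ℝ) = mA (tz Z L) := rfl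
      rw [h3] at h1
      have h4 : Real.log 4 ≤ 2 := by
        rw [show (4 : ℝ) = 2 ^ 2 by norm_num, Real.log_pow]
        have := Real.log_two_lt_d9
        push_cast; linarith
      have h5 : mA (tz Z L) ≤ 2 * Real.log (tz Z L) := by linarith
      calc _ ≤ 4 * Vp (tz Z L) * mA (tz Z L) := h1
        _ ≤ 4 * (1 / Real.log (tz Z L)) * (2 * Real.log (tz Z L)) := by
            have : 0 ≤ mA (tz Z L) := by
              have := mA_ge (tz Z L) (by omega)
              linarith
            gcongr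
        _ = 8 := by field_simp; norm_num
    have hcc := abs_cc_le' hL one_ne_zero one_ne_zero hN1 hN2 (by
      simp only [mul_one, Nat.cast_one]
      exact Real.one_le_exp (by positivity))
    unfold Full
    rw [e0]
    calc |cc N 1 1 * Vp (tz Z L) * R0 1 1 (Nat.primesLE (tz Z L)) (ty ε L) +
          1 / 2 * S1 1 1 (Nat.primesLE (tz Z L)) * R0 1 1 (Nat.primesLE (tz Z L)) (ty ε L) +
          1 / 2 * Vp (tz Z L) * R1 1 1 (Nat.primesLE (tz Z L)) (ty ε L)|
        ≤ |cc N 1 1| * Vp (tz Z L) * |R0 1 1 (Nat.primesLE (tz Z L)) (ty ε L)| +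
          1 / 2 * |S1 1 1 (Nat.primesLE (tz Z L))| * |R0 1 1 (Nat.primesLE (tz Z L)) (ty ε L)| +
          1 / 2 * Vp (tz Z L) * |R1 1 1 (Nat.primesLE (tz Z L)) (ty ε L)| := by
          refine (abs_add_three _ _ _).trans (le_of_eq ?_)
          rw [abs_mul, abs_mul, abs_mul, abs_mul, abs_mul, abs_mul, abs_of_pos hV0,
            abs_of_pos (by norm_num : (0 : ℝ) < 1 / 2)]
      _ ≤ L * (1 / Real.log (tz Z L)) * (C0 * (2000 * Real.log (tz Z L) / (ε * L))) +
          1 / 2 * 8 * (C0 * (2000 * Real.log (tz Z L) / (ε * L))) +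
          1 / 2 * (1 / Real.log (tz Z L)) * (C0 * Real.log (tz Z L)) := by
          have r0' := r0.trans (mul_le_mul_of_nonneg_left hR0' hC0.le)
          gcongr
      _ = 2000 * (C0 / ε) + 8000 * (C0 / ε) * (Real.log (tz Z L) / L) + 1 / 2 * C0 := by
          field_simp
          ring
      _ ≤ 2000 * (C0 / ε) + 8000 * (C0 / ε) * 1 + 1 / 2 * (C0 / ε) := by
          have : Real.log (tz Z L) / L ≤ 1 := by rw [div_le_one hLpos]; exact hlzL
          gcongr
      _ ≤ 12000 * C0 / ε := by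
          have h0 : 0 < C0 / ε := by positivity
          have h1 : 12000 * C0 / ε = 12000 * (C0 / ε) := by ring
          rw [h1]
          linarith
  · intro a b r j hr hrz hj hab
    have hdvd : r ∣ a ∨ r ∣ b := by
      have : r ∣ a * b := by rw [hab]; exact dvd_pow_self r (by omega)
      exact (Nat.Prime.dvd_mul hr).mp this
    have honly : ∀ p : ℕ, p.Prime → (p ∣ a ∨ p ∣ b) → p = r := by
      intro p hp h
      have h1 : p ∣ a * b := by
        rcases h with h | h
        · exact Dvd.dvd.mul_right h b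
        · exact Dvd.dvd.mul_left h a
      rw [hab] at h1
      exact (Nat.prime_dvd_prime_iff_eq hp hr).mp (hp.dvd_of_dvd_pow h1)
    have h1 : r ∈ Nat.primesLE (tz Z L) := Nat.mem_primesLE.mpr ⟨hrz, hr⟩
    have e0 : S0 a b (Nat.primesLE (tz Z L)) = 0 := S0_zero hs h1 hdvd
    have e1 : S1 a b (Nat.primesLE (tz Z L)) = - Real.log r * Vp (tz Z L) :=
      S1_single hs h1 hdvd (fun p hp hne h => hne (honly p (hs p hp) h))
    have hn1 : ∀ p ∈ rs (Nat.primesLE (tz Z L)) (ty ε L), ¬ (p ∣ a ∨ p ∣ b) := by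
      intro p hp h
      have := honly p (rs_prime hp) h
      rw [this] at hp
      exact (Finset.mem_sdiff.mp hp).2 h1
    obtain ⟨r0, _⟩ := hR (tz Z L) (ty ε L) hz2 hB.zY a b hn1
    have hlr : 0 ≤ Real.log r := Real.log_nonneg (by exact_mod_cast hr.one_lt.le)
    unfold Full
    rw [e0, e1]
    have e2 : cc N a b * 0 * R0 a b (Nat.primesLE (tz Z L)) (ty ε L) +
        1 / 2 * (-Real.log r * Vp (tz Z L)) * R0 a b (Nat.primesLE (tz Z L)) (ty ε L) +
        1 / 2 * 0 * R1 a b (Nat.primesLE (tz Z L)) (ty ε L) =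
        -(1 / 2 * (Real.log r * Vp (tz Z L)) * R0 a b (Nat.primesLE (tz Z L)) (ty ε L)) := by ring
    rw [e2, abs_neg, abs_mul,
      abs_of_nonneg (by positivity : 0 ≤ 1 / 2 * (Real.log r * Vp (tz Z L)))]
    calc 1 / 2 * (Real.log r * Vp (tz Z L)) * |R0 a b (Nat.primesLE (tz Z L)) (ty ε L)|
        ≤ 1 / 2 * (Real.log r * (1 / Real.log (tz Z L))) *
            (C0 * (2000 * Real.log (tz Z L) / (ε * L))) := by
          have r0' := r0.trans (mul_le_mul_of_nonneg_left hR0' hC0.le)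
          gcongr
      _ = 1000 * (C0 / ε) * (Real.log r / L) := by
          field_simp
          ring
      _ ≤ 12000 * C0 / ε * (Real.log r / L) := by
          have h0 : 0 < C0 / ε := by positivity
          have h2 : 12000 * C0 / ε = 12000 * (C0 / ε) := by ring
          rw [h2]
          have h3 : 0 ≤ Real.log r / L := by positivity
          exact mul_le_mul_of_nonneg_right (by linarith) h3

end Pool.Agent.H74.TS
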