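import Pool.Agent.H74.TS.Param
import Pool.Agent.H14.PT.S2d

/-!
# The weights of the approximate functional equation

`wpik_far`, `wWt_init`: as `pik_far`, `Wt_init` of `Pool/Agent/H14/PT/S2d.lean`:
for `k > exp ((1 + ε/1000) L)` one has `k / q ≥ k^(ε/2000)`, and `Wt_upper` with `A = 5000/ε`.
`1 - Wt(K) ≤ c (π K / q)^(ex κ)` (`Wt_lower`), `K ≤ 2 exp ((1 - ε/1000) L)`, so
`π K / q ≤ 7 exp (-(ε/1000) L) ≤ 1` and `ex κ ≥ 1/4`.
-/

namespace Pool.Agent.H74.TS

open Finset Pool.Agent.H14.PT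
open scoped ComplexConjugate Real

theorem wpik_far {q : ℕ} [Fact q.Prime] {ε : ℝ} {Z : ℕ} (hB : Bg ε Z (Real.log q)) (κ : ℕ) {k : ℕ}
    (hk : Real.exp ((1 + ε / 1000) * Real.log q) < k) :
    pik q κ k ≤ (Real.Gamma (ex κ + 5000 / ε) / Real.Gamma (ex κ)) ^ 2 * (1 / (k : ℝ) ^ 5) := by
  have hqp : q.Prime := Fact.out
  have hq0 : (0 : ℝ) < q := by exact_mod_cast hqp.pos
  have hε := hB.hε
  have hε1 := hB.hε1
  have hk0 : (0 : ℝ) < k := lt_trans (Real.exp_pos _) hk
  have h1 := (pik_le (q := q) κ k).trans (Wt_upper (q := q) κ (A := 5000 / ε) (by positivity) hk0)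
  refine h1.trans ?_
  refine mul_le_mul_of_nonneg_left ?_ (sq_nonneg _)
  have hL := hB.hL
  have h2 : (1 + ε / 1000) * Real.log q ≤ Real.log k := by
    have := Real.log_le_log (Real.exp_pos _) hk.le
    rwa [Real.log_exp] at this
  have h3 : (k : ℝ) ^ (ε / 2000 : ℝ) ≤ k / q := by
    rw [le_div_iff₀ hq0]
    have h5 : Real.log k * (ε / 2000) + Real.log q ≤ Real.log k := by
      have h6 : (1 - ε / 2000) * ((1 + ε / 1000) * Real.log q) ≤ (1 - ε / 2000) * Real.log k :=
        mul_le_mul_of_nonneg_left h2 (by linarith)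
      have h7 : Real.log q ≤ (1 - ε / 2000) * ((1 + ε / 1000) * Real.log q) := by
        have h8 : 0 ≤ ε * (1 - ε / 1000) * Real.log q := by
          have h9 : 0 ≤ 1 - ε / 1000 := by linarith
          positivity
        nlinarith
      linarith
    calc (k : ℝ) ^ (ε / 2000 : ℝ) * q = Real.exp (Real.log k * (ε / 2000)) * Real.exp (Real.log q) := by
          rw [Real.rpow_def_of_pos hk0, Real.exp_log hq0]
      _ = Real.exp (Real.log k * (ε / 2000) + Real.log q) := by rw [Real.exp_add]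
      _ ≤ Real.exp (Real.log k) := Real.exp_le_exp.mpr h5
      _ = k := Real.exp_log hk0
  calc ((k : ℝ) / q) ^ (-(2 * (5000 / ε)) : ℝ) ≤ ((k : ℝ) ^ (ε / 2000 : ℝ)) ^ (-(2 * (5000 / ε)) : ℝ) := by
        rw [Real.rpow_neg (by positivity), Real.rpow_neg (by positivity)]
        apply inv_anti₀ (by positivity)
        exact Real.rpow_le_rpow (by positivity) h3 (by positivity)
    _ = (k : ℝ) ^ (-5 : ℝ) := by
        rw [← Real.rpow_mul hk0.le]
        congr 1
        field_simp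
        norm_num
    _ = 1 / (k : ℝ) ^ 5 := by
        rw [Real.rpow_neg hk0.le, one_div]
        congr 1
        exact_mod_cast Real.rpow_natCast (k : ℝ) 5

theorem wWt_init {q : ℕ} [Fact q.Prime] {ε : ℝ} {Z : ℕ} (hB : Bg ε Z (Real.log q)) (κ : ℕ) :
    1 - Wt q κ (⌈Real.exp ((1 - ε / 1000) * Real.log q)⌉₊ : ℕ) ≤
      2 / (Real.Gamma (ex κ) * ex κ) * (7 * Real.exp (-(ε / 4000 * Real.log q))) := by
  have hqp : q.Prime := Fact.out
  have hq0 : (0 : ℝ) < q := by exact_mod_cast hqp.pos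
  have hG := Real.Gamma_pos_of_pos (ex_pos κ)
  have hex := ex_pos κ
  have hε := hB.hε
  have hε1 := hB.hε1
  have hLε := hB.hLε
  have hL100 := hB.hL
  set L := Real.log q with hL
  set K : ℕ := ⌈Real.exp ((1 - ε / 1000) * L)⌉₊ with hK
  have h1 := Wt_lower (q := q) κ (x := (K : ℝ)) (by positivity)
  refine h1.trans ?_
  refine mul_le_mul_of_nonneg_left ?_ (by positivity)
  have hK1 : (K : ℝ) ≤ 2 * Real.exp ((1 - ε / 1000) * L) := by
    have h2 : (K : ℝ) < Real.exp ((1 - ε / 1000) * L) + 1 := Nat.ceil_lt_add_one (Real.exp_pos _).le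
    have h3 : 1 ≤ Real.exp ((1 - ε / 1000) * L) := by
      apply Real.one_le_exp
      have h9 : 0 ≤ 1 - ε / 1000 := by linarith
      positivity
    linarith
  have hqe : (q : ℝ) = Real.exp L := (Real.exp_log hq0).symm
  have h4 : π * K / q ≤ 7 * Real.exp (-(ε / 1000 * L)) := by
    rw [div_le_iff₀ hq0, hqe, mul_assoc, ← Real.exp_add]
    have hp : π < 3.15 := Real.pi_lt_d2
    have e1 : Real.exp (-(ε / 1000 * L) + L) = Real.exp ((1 - ε / 1000) * L) := by congr 1; ring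
    rw [e1]
    have := Real.exp_pos ((1 - ε / 1000) * L)
    calc π * K ≤ 3.15 * (2 * Real.exp ((1 - ε / 1000) * L)) := by gcongr
      _ ≤ _ := by nlinarith
  have h5 : 7 * Real.exp (-(ε / 1000 * L)) ≤ 1 := by
    have e1 : Real.exp (-(ε / 1000 * L)) ≤ Real.exp (-2) := Real.exp_le_exp.mpr (by linarith)
    have e2 : Real.exp (-2) * Real.exp 2 = 1 := by rw [← Real.exp_add]; norm_num
    have e3 : 7 ≤ Real.exp 2 := by
      have := Real.exp_one_gt_d9
      have e4 : Real.exp 2 = Real.exp 1 * Real.exp 1 := by rw [← Real.exp_add]; norm_num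
      rw [e4]
      nlinarith
    have e5 := Real.exp_pos (-2)
    nlinarith
  have hex4 : 1 / 4 ≤ ex κ := by unfold ex; have : (0 : ℝ) ≤ κ := by positivity
                                 linarith
  have hpos : 0 < 7 * Real.exp (-(ε / 1000 * L)) := by positivity
  calc (π * K / q) ^ (ex κ) ≤ (7 * Real.exp (-(ε / 1000 * L))) ^ (ex κ) :=
        Real.rpow_le_rpow (by positivity) h4 hex.le
    _ ≤ (7 * Real.exp (-(ε / 1000 * L))) ^ (1 / 4 : ℝ) :=
        Real.rpow_le_rpow_of_exponent_ge hpos h5 hex4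
    _ = (7 : ℝ) ^ (1 / 4 : ℝ) * (Real.exp (-(ε / 1000 * L))) ^ (1 / 4 : ℝ) :=
        Real.mul_rpow (by norm_num) (Real.exp_pos _).le
    _ ≤ 7 * Real.exp (-(ε / 4000 * L)) := by
        have e1 : (Real.exp (-(ε / 1000 * L))) ^ (1 / 4 : ℝ) = Real.exp (-(ε / 4000 * L)) := by
          rw [← Real.exp_mul]; congr 1; ring
        have e2 : (7 : ℝ) ^ (1 / 4 : ℝ) ≤ (7 : ℝ) ^ (1 : ℝ) :=
          Real.rpow_le_rpow_of_exponent_le (by norm_num) (by norm_num)
        rw [Real.rpow_one] at e2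
        rw [e1]
        gcongr

end Pool.Agent.H74.TS
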