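import Pool.Agent.H74.TS.SecB
import Pool.Agent.H74.TS.SecC

/-!
# The total mollified second moment over a product set

`wS2_total`: as `S2_total` of `Pool/Agent/H14/PT/S2d.lean`.  The initial part: `28 c1 exp (-(ε/4000) L) exp (3 κ L) ≤ 28 c1`
(`Bg.kle`).
-/

namespace Pool.Agent.H74.TS

open Finset Pool.Agent.H14.PT
open scoped ComplexConjugate Real

theorem wS2_total (ε : ℝ) (Z : ℕ) (hε : 0 < ε) (hε1 : ε ≤ 1 / 10) (hZ : 400 ≤ ε * Z) :
    ∃ C Q0 : ℝ, 0 < C ∧ ∀ (q : ℕ) [Fact q.Prime], Q0 ≤ Real.log q → Bg ε Z (Real.log q) →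
    ∀ (𝒜 ℬ : Finset (DirichletCharacter ℂ q)) (κ : ℕ), Cd ε 𝒜 ℬ →
    (∀ x ∈ 𝒜 ×ˢ ℬ, Par κ (x.1 * x.2)) →
    ∑ x ∈ PN 𝒜 ℬ, ‖Mol (MfS (tz Z (Real.log q)) (ty ε (Real.log q)) (ty ε (Real.log q)))
        (wS (tz Z (Real.log q)) (ty ε (Real.log q)) (ty ε (Real.log q))) (x.1 * x.2)‖ ^ 2 *
        ‖DirichletCharacter.LFunction (x.1 * x.2) (1 / 2)‖ ^ 2 ≤ C * ((𝒜.card : ℝ) * ℬ.card) := by
  obtain ⟨C2, Q1, hC2, hG⟩ := wG_bounds ε Z hε hε1 hZ
  set c1 : ℝ := 2 / (Real.Gamma (ex 0) * ex 0) + 2 / (Real.Gamma (ex 1) * ex 1) with hc1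
  set D : ℝ := (Real.Gamma (ex 0 + 5000 / ε) / Real.Gamma (ex 0)) ^ 2 +
    (Real.Gamma (ex 1 + 5000 / ε) / Real.Gamma (ex 1)) ^ 2 with hD
  have hsq : Summable (fun k : ℕ => 1 / (k : ℝ) ^ 2) :=
    Real.summable_one_div_nat_pow.mpr (by norm_num)
  set S : ℝ := ∑' k : ℕ, 1 / (k : ℝ) ^ 2 with hS
  have hSnn : 0 ≤ S := tsum_nonneg fun k => by positivity
  have hexp0 := Real.Gamma_pos_of_pos (ex_pos 0)
  have hexp1 := Real.Gamma_pos_of_pos (ex_pos 1)
  have hex0 := ex_pos 0
  have hex1 := ex_pos 1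
  have hc1nn : 0 ≤ c1 := by positivity
  have hDnn : 0 ≤ D := by positivity
  refine ⟨28 * c1 + 2 * C2 + 2 * D * S, Q1, by positivity, ?_⟩
  intro q _ hq1 hB 𝒜 ℬ κ hCd hpar
  have hG' := hG q hq1 hB 𝒜 ℬ hCd
  have hκ1 : κ = 0 ∨ κ = 1 := by
    obtain ⟨χ, hχ⟩ := hCd.1
    obtain ⟨ψ, hψ⟩ := hCd.2.1
    rcases hpar (χ, ψ) (Finset.mem_product.mpr ⟨hχ, hψ⟩) with h | h
    · exact Or.inl h.1
    · exact Or.inr h.1
  have hDκ : (Real.Gamma (ex κ + 5000 / ε) / Real.Gamma (ex κ)) ^ 2 ≤ D := by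
    rcases hκ1 with rfl | rfl
    · rw [hD]; linarith [sq_nonneg (Real.Gamma (ex 1 + 5000 / ε) / Real.Gamma (ex 1))]
    · rw [hD]; linarith [sq_nonneg (Real.Gamma (ex 0 + 5000 / ε) / Real.Gamma (ex 0))]
  have hcκ : 2 / (Real.Gamma (ex κ) * ex κ) ≤ c1 := by
    rcases hκ1 with rfl | rfl
    · rw [hc1]; have : 0 ≤ 2 / (Real.Gamma (ex 1) * ex 1) := by positivity
      linarith
    · rw [hc1]; have : 0 ≤ 2 / (Real.Gamma (ex 0) * ex 0) := by positivity
      linarith
  set L := Real.log q with hL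
  set Y := ty ε L with hY
  set z := tz Z L with hz
  have hLpos : 0 < L := hB.Lpos
  have hεL : 0 < ε * L := mul_pos hε hLpos
  have hY2 : 2 ≤ Y := hB.Y_two
  have hYhi : (Y : ℝ) ≤ Real.exp (L / 1000) := hB.Y_hi'
  set NA : ℝ := (𝒜.card : ℝ) * ℬ.card with hNA
  have hXc : (0 : ℝ) ≤ NA := by positivity
  set B1 : ℝ := 2 * Real.exp (3 * kap ε Z * L) * NA with hB1
  set B2 : ℝ := C2 * NA with hB2
  set G : ℕ → ℂ := fun k => ∑ x ∈ PN 𝒜 ℬ,
    ((‖Mol (MfS z Y Y) (wS z Y Y) (x.1 * x.2)‖ ^ 2 : ℝ) : ℂ) * TT (x.1 * x.2) k with hGdef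
  set K1 : ℕ := ⌈Real.exp ((1 - ε / 1000) * L)⌉₊ with hK1
  -- the series
  have hsum : HasSum (fun k : ℕ => pik q κ k * (2 * (G k).re))
      (∑ x ∈ PN 𝒜 ℬ, ‖Mol (MfS z Y Y) (wS z Y Y) (x.1 * x.2)‖ ^ 2 *
        ‖DirichletCharacter.LFunction (x.1 * x.2) (1 / 2)‖ ^ 2) := by
    have h1 : HasSum (fun k : ℕ => ∑ x ∈ PN 𝒜 ℬ, ‖Mol (MfS z Y Y) (wS z Y Y) (x.1 * x.2)‖ ^ 2 *
        (pik q κ k * (2 * (TT (x.1 * x.2) k).re)))
        (∑ x ∈ PN 𝒜 ℬ, ‖Mol (MfS z Y Y) (wS z Y Y) (x.1 * x.2)‖ ^ 2 *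
        ‖DirichletCharacter.LFunction (x.1 * x.2) (1 / 2)‖ ^ 2) := by
      apply hasSum_sum
      intro x hx
      have hx' : x ∈ 𝒜 ×ˢ ℬ ∧ x.1 * x.2 ≠ 1 := by
        unfold PN at hx
        exact Finset.mem_filter.mp hx
      exact (afe_discrete hx'.2 (hpar x hx'.1)).mul_left _
    refine h1.congr_fun fun k => ?_
    simp only [hGdef]
    rw [Complex.re_sum, Finset.mul_sum, Finset.mul_sum]
    refine Finset.sum_congr rfl fun x _ => ?_
    rw [Complex.re_ofReal_mul]
    ring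
  -- majorants
  have hu : HasSum (fun k : ℕ => if k < K1 then pik q κ k * (2 * B1) else 0)
      ((1 - Wt q κ K1) * (2 * B1)) := by
    have h1 : ∀ k ∉ range K1, (if k < K1 then pik q κ k * (2 * B1) else 0) = 0 := by
      intro k hk
      rw [if_neg (by simpa using hk)]
    have h2 : HasSum (fun k : ℕ => if k < K1 then pik q κ k * (2 * B1) else 0)
        (∑ k ∈ range K1, if k < K1 then pik q κ k * (2 * B1) else 0) :=
      hasSum_sum_of_ne_finset_zero h1
    convert h2 using 1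
    rw [← sum_pik_range, Finset.sum_mul]
    refine Finset.sum_congr rfl fun k hk => ?_
    rw [if_pos (by simpa using hk)]
  have hv : HasSum (fun k : ℕ => pik q κ k * (2 * B2)) (1 * (2 * B2)) := (hasSum_pik κ).mul_right _
  have hw : HasSum (fun k : ℕ => (2 * D * NA) * (1 / (k : ℝ) ^ 2)) ((2 * D * NA) * S) :=
    hsq.hasSum.mul_left _
  have hall := (hu.add hv).add hw
  have hle := hasSum_le (fun k => ?_) hsum hall
  · refine hle.trans ?_
    have h1 := wWt_init hB κ
    rw [← hL, ← hK1] at h1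
    have h2 : (1 - Wt q κ K1) * (2 * B1) ≤ 28 * c1 * NA := by
      have h3 : 1 - Wt q κ K1 ≤ c1 * (7 * Real.exp (-(ε / 4000 * L))) := by
        refine h1.trans ?_
        gcongr
      have h4 : Real.exp (-(ε / 4000 * L)) * Real.exp (3 * kap ε Z * L) ≤ 1 := by
        rw [← Real.exp_add]
        apply Real.exp_le_one_iff.mpr
        have hk := mul_le_mul_of_nonneg_right hB.kle hLpos.le
        have h5 : 3 * kap ε Z * L ≤ 3 * (ε / 10 ^ 8 * L) := by linarith
        have h6 : ε / 10 ^ 8 * L = ε * L / 10 ^ 8 := by ring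
        have h7 : ε / 4000 * L = ε * L / 4000 := by ring
        rw [h6] at h5
        rw [h7]
        linarith
      calc (1 - Wt q κ K1) * (2 * B1) ≤ (c1 * (7 * Real.exp (-(ε / 4000 * L)))) * (2 * B1) := by
            gcongr
        _ = (Real.exp (-(ε / 4000 * L)) * Real.exp (3 * kap ε Z * L)) * (28 * c1 * NA) := by
            rw [hB1]; ring
        _ ≤ 1 * (28 * c1 * NA) := by
            gcongr
        _ = _ := by ring
    rw [hB2]
    calc _ ≤ 28 * c1 * NA + 1 * (2 * (C2 * NA)) + (2 * D * NA) * S := by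
          linarith
      _ = _ := by ring
  · -- termwise
    have hpn := pik_nonneg (q := q) κ k
    have hB1n : 0 ≤ B1 := by rw [hB1]; positivity
    have hB2n : 0 ≤ B2 := by rw [hB2]; positivity
    have hwn : 0 ≤ (2 * D * NA) * (1 / (k : ℝ) ^ 2) := by positivity
    have hun : 0 ≤ (if k < K1 then pik q κ k * (2 * B1) else 0) := by
      split_ifs
      · positivity
      · exact le_rfl
    have hvn : 0 ≤ pik q κ k * (2 * B2) := by positivity
    have hre : (G k).re ≤ ‖G k‖ := Complex.re_le_norm _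
    rcases Nat.eq_zero_or_pos k with rfl | hk
    · have : G 0 = 0 := by
        simp only [hGdef]
        simp [TT_zero]
      rw [this]
      simp only [Complex.zero_re, mul_zero]
      linarith
    · by_cases hk2 : (k : ℝ) ≤ Real.exp ((1 + ε / 1000) * L)
      · obtain ⟨g1, g2⟩ := hG' k hk hk2
        by_cases hk3 : Real.exp ((1 - ε / 1000) * L) ≤ k
        · have g3 := g2 hk3
          have : pik q κ k * (2 * (G k).re) ≤ pik q κ k * (2 * B2) := by
            refine mul_le_mul_of_nonneg_left ?_ hpn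
            have : ‖G k‖ ≤ B2 := g3
            linarith
          linarith
        · push Not at hk3
          have hk4 : k < K1 := by
            rw [hK1]
            exact Nat.lt_ceil.mpr hk3
          have : pik q κ k * (2 * (G k).re) ≤ (if k < K1 then pik q κ k * (2 * B1) else 0) := by
            rw [if_pos hk4]
            refine mul_le_mul_of_nonneg_left ?_ hpn
            have : ‖G k‖ ≤ B1 := g1
            linarith
          linarith
      · push Not at hk2
        have hk0 : (0 : ℝ) < k := by exact_mod_cast hk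
        have hfar := wpik_far hB κ hk2
        have hGk : ‖G k‖ ≤ NA * (k : ℝ) ^ 3 := by
          simp only [hGdef]
          calc _ ≤ ∑ x ∈ PN 𝒜 ℬ, ‖((‖Mol (MfS z Y Y) (wS z Y Y) (x.1 * x.2)‖ ^ 2 : ℝ) : ℂ) *
                TT (x.1 * x.2) k‖ := norm_sum_le _ _
            _ ≤ ∑ x ∈ PN 𝒜 ℬ, (k : ℝ) ^ 3 := by
                refine Finset.sum_le_sum fun x _ => ?_
                rw [norm_mul, Complex.norm_real, Real.norm_of_nonneg (by positivity)]
                have h1 := norm_Mol_le (MfS z Y Y) (wS z Y Y) (x.1 * x.2) (Y := Y * Y)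
                  (fun m hm => MfS_bounds hm) (fun m => abs_wS_le hY2 m)
                have h2 := norm_TT_le (x.1 * x.2) k
                have h3 : (((Y * Y : ℕ) : ℝ)) ^ 2 ≤ k := by
                  push_cast
                  calc ((Y : ℝ) * Y) ^ 2 ≤ (Real.exp (L / 1000) * Real.exp (L / 1000)) ^ 2 := by gcongr
                    _ = Real.exp (4 * (L / 1000)) := by
                        rw [← Real.exp_add, ← Real.exp_nat_mul]; congr 1; push_cast; ring
                    _ ≤ Real.exp ((1 + ε / 1000) * L) := Real.exp_le_exp.mpr (by nlinarith)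
                    _ ≤ k := hk2.le
                calc ‖Mol (MfS z Y Y) (wS z Y Y) (x.1 * x.2)‖ ^ 2 * ‖TT (x.1 * x.2) k‖
                    ≤ (((Y * Y : ℕ) : ℝ)) ^ 2 * (k : ℝ) ^ 2 := by gcongr
                  _ ≤ k * (k : ℝ) ^ 2 := by gcongr
                  _ = (k : ℝ) ^ 3 := by ring
            _ = ((PN 𝒜 ℬ).card : ℝ) * (k : ℝ) ^ 3 := by rw [Finset.sum_const, nsmul_eq_mul]
            _ ≤ _ := by
                have h5 : (PN 𝒜 ℬ).card ≤ 𝒜.card * ℬ.card := by
                  unfold PN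
                  refine (Finset.card_filter_le _ _).trans ?_
                  rw [Finset.card_product]
                have h6 : ((PN 𝒜 ℬ).card : ℝ) ≤ NA := by
                  rw [hNA]
                  exact_mod_cast h5
                gcongr
        have : pik q κ k * (2 * (G k).re) ≤ (2 * D * NA) * (1 / (k : ℝ) ^ 2) := by
          calc pik q κ k * (2 * (G k).re) ≤ pik q κ k * (2 * (NA * (k : ℝ) ^ 3)) := by
                refine mul_le_mul_of_nonneg_left ?_ hpn
                linarith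
            _ ≤ (D * (1 / (k : ℝ) ^ 5)) * (2 * (NA * (k : ℝ) ^ 3)) := by
                refine mul_le_mul_of_nonneg_right (hfar.trans ?_) (by positivity)
                gcongr
            _ = _ := by
                field_simp
        linarith

end Pool.Agent.H74.TS
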