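import Pool.Agent.H74.TS.FirB
import Pool.Agent.H74.TS.SecD
import Pool.Agent.H14.PT.Main

/-!
# Positive proportion of nonvanishing in product sets
-/

namespace Pool.Agent.H74.TS

open Finset Pool.Agent.H14.PT
open scoped ComplexConjugate Real

/-- Cauchy-Schwarz with the number of non-zero terms -/
lemma csq_norm_sum_le {ι : Type*} (s : Finset ι) (f : ι → ℂ) [DecidablePred fun x => f x ≠ 0] :
    ‖∑ x ∈ s, f x‖ ^ 2 ≤ ((s.filter fun x => f x ≠ 0).card : ℝ) * ∑ x ∈ s, ‖f x‖ ^ 2 := by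
  have h1 : ∑ x ∈ s, f x = ∑ x ∈ s.filter (fun x => f x ≠ 0), f x := by
    rw [Finset.sum_filter_ne_zero]
  rw [h1]
  calc ‖∑ x ∈ s.filter (fun x => f x ≠ 0), f x‖ ^ 2
      ≤ (∑ x ∈ s.filter (fun x => f x ≠ 0), ‖f x‖) ^ 2 := by
        gcongr
        exact norm_sum_le _ _
    _ ≤ ((s.filter fun x => f x ≠ 0).card : ℝ) * ∑ x ∈ s.filter (fun x => f x ≠ 0), ‖f x‖ ^ 2 :=
        sq_sum_le_card_mul_sum_sq
    _ ≤ _ := by
        refine mul_le_mul_of_nonneg_left ?_ (by positivity)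
        exact Finset.sum_le_sum_of_subset_of_nonneg (Finset.filter_subset _ _)
          (fun _ _ _ => by positivity)

/-- fixed parity -/
theorem wcount_par (ε : ℝ) (hε : 0 < ε) (hε1 : ε ≤ 1 / 10) : ∃ c Q0 : ℝ, 0 < c ∧
    ∀ (q : ℕ) [Fact q.Prime], Q0 ≤ Real.log q → ∀ (𝒜 ℬ : Finset (DirichletCharacter ℂ q)) (κ : ℕ),
    Cd ε 𝒜 ℬ → (∀ x ∈ 𝒜 ×ˢ ℬ, Par κ (x.1 * x.2)) →
    ∀ (S : Finset (DirichletCharacter ℂ q × DirichletCharacter ℂ q)),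
    (∀ x ∈ 𝒜 ×ˢ ℬ, x.1 * x.2 ≠ 1 → (x.1 * x.2).LFunction (1 / 2) ≠ 0 → x ∈ S) →
    c * ((𝒜.card : ℝ) * ℬ.card) ≤ (S.card : ℝ) := by
  classical
  obtain ⟨Z, hZ'⟩ := exists_nat_ge (400 / ε)
  have hZ : 400 ≤ ε * Z := by
    rw [div_le_iff₀ hε] at hZ'
    linarith
  obtain ⟨C, Q1, hC, hS2⟩ := wS2_total ε Z hε hε1 hZ
  obtain ⟨Q2, hS1⟩ := wS1_total ε Z hε hε1 hZ
  obtain ⟨Q3, hbig⟩ := bg_facts ε Z hε hε1 hZ
  refine ⟨1 / (4 * C), max (max Q1 Q2) Q3, by positivity, ?_⟩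
  intro q _ hq 𝒜 ℬ κ hcd hpar S hS
  have hq1 : Q1 ≤ Real.log q := (le_max_left _ _).trans ((le_max_left _ _).trans hq)
  have hq2 : Q2 ≤ Real.log q := (le_max_right _ _).trans ((le_max_left _ _).trans hq)
  have hB : Bg ε Z (Real.log q) := hbig _ ((le_max_right _ _).trans hq)
  have h2 := hS2 q hq1 hB 𝒜 ℬ κ hcd hpar
  have h1 := hS1 q hq2 hB 𝒜 ℬ hcd
  set f : DirichletCharacter ℂ q × DirichletCharacter ℂ q → ℂ := fun x =>
    Mol (MfS (tz Z (Real.log q)) (ty ε (Real.log q)) (ty ε (Real.log q)))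
        (wS (tz Z (Real.log q)) (ty ε (Real.log q)) (ty ε (Real.log q))) (x.1 * x.2) *
        DirichletCharacter.LFunction (x.1 * x.2) (1 / 2) with hf
  have hcs := csq_norm_sum_le (PN 𝒜 ℬ) f
  have hf2 : ∑ x ∈ PN 𝒜 ℬ, ‖f x‖ ^ 2 ≤ C * ((𝒜.card : ℝ) * ℬ.card) := by
    refine le_trans (le_of_eq ?_) h2
    refine Finset.sum_congr rfl fun x _ => ?_
    simp only [hf]
    rw [norm_mul, mul_pow]
  have hcard : ((PN 𝒜 ℬ).filter fun x => f x ≠ 0).card ≤ S.card := by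
    refine Finset.card_le_card ?_
    intro x hx
    obtain ⟨a1, a2⟩ := Finset.mem_filter.mp hx
    unfold PN at a1
    obtain ⟨a3, a4⟩ := Finset.mem_filter.mp a1
    refine hS x a3 a4 ?_
    intro h0
    apply a2
    simp only [hf]
    rw [h0, mul_zero]
  have hXpos : (0 : ℝ) < (𝒜.card : ℝ) * ℬ.card := by
    have h3 : (0 : ℝ) < 𝒜.card := by exact_mod_cast hcd.1.card_pos
    have h4 : (0 : ℝ) < ℬ.card := by exact_mod_cast hcd.2.1.card_pos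
    positivity
  set M : ℝ := (𝒜.card : ℝ) * ℬ.card with hM
  have hnn : 0 ≤ ‖∑ x ∈ PN 𝒜 ℬ, f x‖ := norm_nonneg _
  have h3 : M ^ 2 / 4 ≤ ‖∑ x ∈ PN 𝒜 ℬ, f x‖ ^ 2 := by
    have : M / 2 ≤ ‖∑ x ∈ PN 𝒜 ℬ, f x‖ := h1
    nlinarith
  have hScard : (((PN 𝒜 ℬ).filter fun x => f x ≠ 0).card : ℝ) ≤ S.card := by exact_mod_cast hcard
  have h4 : M ^ 2 / 4 ≤ (S.card : ℝ) * (C * M) := by
    refine h3.trans (hcs.trans ?_)
    have h5 : 0 ≤ ∑ x ∈ PN 𝒜 ℬ, ‖f x‖ ^ 2 := Finset.sum_nonneg fun _ _ => by positivity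
    calc _ ≤ (S.card : ℝ) * ∑ x ∈ PN 𝒜 ℬ, ‖f x‖ ^ 2 := by gcongr
      _ ≤ _ := by gcongr
  have h5 : M / 4 ≤ S.card * C := by
    have h6 : M / 4 * M ≤ (S.card * C) * M := by
      calc _ = M ^ 2 / 4 := by ring
        _ ≤ _ := h4
        _ = _ := by ring
    exact le_of_mul_le_mul_right h6 hXpos
  rw [div_mul_eq_mul_div, one_mul, div_le_iff₀ (by positivity)]
  linarith

/-- a set of characters contains a subset of half its size with constant parity -/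
lemma exists_parity {q : ℕ} [Fact q.Prime] (𝒜 : Finset (DirichletCharacter ℂ q)) :
    ∃ 𝒜' ⊆ 𝒜, 𝒜.card ≤ 2 * 𝒜'.card ∧ ((∀ χ ∈ 𝒜', χ.Even) ∨ (∀ χ ∈ 𝒜', χ.Odd)) := by
  classical
  have h1 : 𝒜.card = (𝒜.filter (fun χ => χ.Even)).card + (𝒜.filter (fun χ => ¬ χ.Even)).card :=
    (Finset.card_filter_add_card_filter_not _).symm
  by_cases h : (𝒜.filter (fun χ => ¬ χ.Even)).card ≤ (𝒜.filter (fun χ => χ.Even)).card
  · refine ⟨𝒜.filter (fun χ => χ.Even), Finset.filter_subset _ _, by omega, Or.inl ?_⟩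
    intro χ hχ
    exact (Finset.mem_filter.mp hχ).2
  · refine ⟨𝒜.filter (fun χ => ¬ χ.Even), Finset.filter_subset _ _, by omega, Or.inr ?_⟩
    intro χ hχ
    have h2 := (Finset.mem_filter.mp hχ).2
    rcases χ.even_or_odd with h3 | h3
    · exact absurd h3 h2
    · exact h3

/-- **positive proportion of nonvanishing in product sets** -/
theorem wcount (ε : ℝ) (hε : 0 < ε) : ∃ c : ℝ, 0 < c ∧ ∃ Q0 : ℝ,
    ∀ (q : ℕ) [Fact q.Prime], Q0 ≤ Real.log q → ∀ (𝒜 ℬ : Finset (DirichletCharacter ℂ q)),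
    (q : ℝ) ^ (2 + ε) ≤ (𝒜.card : ℝ) * (ℬ.card : ℝ) ^ 2 →
    ∀ (S : Finset (DirichletCharacter ℂ q × DirichletCharacter ℂ q)),
    (∀ x ∈ 𝒜 ×ˢ ℬ, x.1 * x.2 ≠ 1 → (x.1 * x.2).LFunction (1 / 2) ≠ 0 → x ∈ S) →
    c * ((𝒜.card : ℝ) * ℬ.card) ≤ (S.card : ℝ) := by
  classical
  set ε' : ℝ := min (ε / 2) (1 / 10) with hε'
  have hε'0 : 0 < ε' := lt_min (by linarith) (by norm_num)
  obtain ⟨c, Q1, hc, hmain⟩ := wcount_par ε' hε'0 (min_le_right _ _)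
  refine ⟨c / 4, by positivity, max Q1 (6 / ε), ?_⟩
  intro q _ hq 𝒜 ℬ hsize S hS
  have hqp : q.Prime := Fact.out
  have hq0 : (0 : ℝ) < q := by exact_mod_cast hqp.pos
  have hq1 : Q1 ≤ Real.log q := (le_max_left _ _).trans hq
  have hq2 : 6 / ε ≤ Real.log q := (le_max_right _ _).trans hq
  have hLε : 6 ≤ Real.log q * ε := (div_le_iff₀ hε).mp hq2
  obtain ⟨𝒜', hA1, hA2, hA3⟩ := exists_parity 𝒜
  obtain ⟨ℬ', hB1, hB2, hB3⟩ := exists_parity ℬ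
  have hpos : (0 : ℝ) < (𝒜.card : ℝ) * (ℬ.card : ℝ) ^ 2 := lt_of_lt_of_le (by positivity) hsize
  have hApos : 0 < 𝒜.card := by
    rcases Nat.eq_zero_or_pos 𝒜.card with h | h
    · rw [h] at hpos; simp at hpos
    · exact h
  have hBpos : 0 < ℬ.card := by
    rcases Nat.eq_zero_or_pos ℬ.card with h | h
    · rw [h] at hpos; simp at hpos
    · exact h
  have hA'pos : 0 < 𝒜'.card := by omega
  have hB'pos : 0 < ℬ'.card := by omega
  have rA : (0 : ℝ) < 𝒜.card := by exact_mod_cast hApos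
  have rB : (0 : ℝ) < ℬ.card := by exact_mod_cast hBpos
  have rA' : (0 : ℝ) < 𝒜'.card := by exact_mod_cast hA'pos
  have rB' : (0 : ℝ) < ℬ'.card := by exact_mod_cast hB'pos
  have cA : (𝒜.card : ℝ) ≤ 2 * 𝒜'.card := by exact_mod_cast hA2
  have cB : (ℬ.card : ℝ) ≤ 2 * ℬ'.card := by exact_mod_cast hB2
  have hl2 := Real.log_two_lt_d9
  have hl20 : 0 < Real.log 2 := Real.log_pos (by norm_num)
  have hL0 : 0 ≤ Real.log q := Real.log_natCast_nonneg _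
  -- logarithms of the sizes
  have lA : Real.log 𝒜.card ≤ Real.log 2 + Real.log 𝒜'.card := by
    rw [← Real.log_mul (by norm_num) rA'.ne']
    exact Real.log_le_log rA cA
  have lB : Real.log ℬ.card ≤ Real.log 2 + Real.log ℬ'.card := by
    rw [← Real.log_mul (by norm_num) rB'.ne']
    exact Real.log_le_log rB cB
  have lS : (2 + ε) * Real.log q ≤ Real.log 𝒜.card + 2 * Real.log ℬ.card := by
    have h1 := Real.log_le_log (by positivity) hsize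
    rw [Real.log_rpow hq0, Real.log_mul rA.ne' (by positivity), Real.log_pow] at h1
    push_cast at h1
    exact h1
  have hq1' : (0 : ℝ) < ((q - 1 : ℕ) : ℝ) := by
    have := hqp.one_lt
    exact_mod_cast (by omega : 0 < q - 1)
  have lq1 : Real.log ((q - 1 : ℕ) : ℝ) ≤ Real.log q :=
    Real.log_le_log hq1' (by exact_mod_cast Nat.sub_le q 1)
  have lhA : Real.log (hh 𝒜') = Real.log ((q - 1 : ℕ) : ℝ) - Real.log 𝒜'.card := by
    unfold hh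
    rw [Real.log_div hq1'.ne' rA'.ne']
  have lhB : Real.log (hh ℬ') = Real.log ((q - 1 : ℕ) : ℝ) - Real.log ℬ'.card := by
    unfold hh
    rw [Real.log_div hq1'.ne' rB'.ne']
  have hcd : Cd ε' 𝒜' ℬ' := by
    refine ⟨Finset.card_pos.mp hA'pos, Finset.card_pos.mp hB'pos, ?_⟩
    rw [lhA, lhB]
    have h1 : ε' * Real.log q ≤ ε / 2 * Real.log q :=
      mul_le_mul_of_nonneg_right (min_le_left _ _) hL0
    nlinarith
  -- parity
  have hpar : ∃ κ, ∀ x ∈ 𝒜' ×ˢ ℬ', Par κ (x.1 * x.2) := by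
    rcases hA3 with hA3 | hA3 <;> rcases hB3 with hB3 | hB3
    · refine ⟨0, fun x hx => Or.inl ⟨rfl, ?_⟩⟩
      obtain ⟨h1, h2⟩ := Finset.mem_product.mp hx
      show (x.1 * x.2) (-1) = 1
      rw [MulChar.mul_apply, (hA3 _ h1 : x.1 (-1) = 1), (hB3 _ h2 : x.2 (-1) = 1), one_mul]
    · refine ⟨1, fun x hx => Or.inr ⟨rfl, ?_⟩⟩
      obtain ⟨h1, h2⟩ := Finset.mem_product.mp hx
      show (x.1 * x.2) (-1) = -1
      rw [MulChar.mul_apply, (hA3 _ h1 : x.1 (-1) = 1), (hB3 _ h2 : x.2 (-1) = -1), one_mul]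
    · refine ⟨1, fun x hx => Or.inr ⟨rfl, ?_⟩⟩
      obtain ⟨h1, h2⟩ := Finset.mem_product.mp hx
      show (x.1 * x.2) (-1) = -1
      rw [MulChar.mul_apply, (hA3 _ h1 : x.1 (-1) = -1), (hB3 _ h2 : x.2 (-1) = 1), mul_one]
    · refine ⟨0, fun x hx => Or.inl ⟨rfl, ?_⟩⟩
      obtain ⟨h1, h2⟩ := Finset.mem_product.mp hx
      show (x.1 * x.2) (-1) = 1
      rw [MulChar.mul_apply, (hA3 _ h1 : x.1 (-1) = -1), (hB3 _ h2 : x.2 (-1) = -1)]
      norm_num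
  obtain ⟨κ, hκ⟩ := hpar
  have h2 := hmain q hq1 𝒜' ℬ' κ hcd hκ S (fun x hx h3 h4 => by
    obtain ⟨h5, h6⟩ := Finset.mem_product.mp hx
    exact hS x (Finset.mem_product.mpr ⟨hA1 h5, hB1 h6⟩) h3 h4)
  refine le_trans ?_ h2
  have h3 : (𝒜.card : ℝ) * ℬ.card ≤ (2 * 𝒜'.card) * (2 * ℬ'.card) :=
    mul_le_mul cA cB rB.le (by positivity)
  calc c / 4 * ((𝒜.card : ℝ) * ℬ.card) ≤ c / 4 * ((2 * 𝒜'.card) * (2 * ℬ'.card)) := by gcongr
    _ = _ := by ring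

end Pool.Agent.H74.TS
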