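import Pool.Agent.H74.TS.Param
import Pool.Agent.H14.PT.Mid2

/-!
# Error term and size of the main terms

`werr_bound` is `err_bound` of `Pool/Agent/H14/PT/Mid.lean` with the new parameters: copy the proof.
Use `DN_eval` with `σ = 1 / (5 Z)`; write `κ = kap ε Z = ε / (10^5 Z)`, so that
`(ε / 1000) σ = 20 κ`.  First term: `2 Y^4 / √N ≤ 2 exp (-0.4 L)` (`Y ≤ exp (L/1000)`,
`N ≥ exp (0.999 L)`).  Second term: `C^4 * (6 L^Z) (3 L^3) * (2 exp (-20 κ L)) * exp (2 κ L)`, where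
`36 C^4 L^(Z+3) ≤ exp (κ L)` for large `L` (`poly_le_exp (Z+3) (36 C^4) κ`), so at most
`exp (-17 κ L)`.  Total at most `4 exp (-17 κ L) ≤ exp (-10 κ L)` (`exp (κ L) ≥ 4` from `hLκ`).
`abs_cc_le'` is `abs_cc_le` there (only `100 ≤ L` is used).
-/

namespace Pool.Agent.H74.TS

open Finset Pool.Agent.H14.PT Pool.Agent.H16

theorem abs_cc_le' {L : ℝ} (h : 100 ≤ L) {N a b : ℕ} (ha : a ≠ 0) (hb : b ≠ 0) (hN1 : 1 ≤ N)
    (hN2 : (N : ℝ) ≤ Real.exp (1.001 * L)) (hab : ((a * b : ℕ) : ℝ) ≤ Real.exp (1 / 10 ^ 8 * L)) :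
    |cc N a b| ≤ L := by
  have hNr : (1 : ℝ) ≤ N := by exact_mod_cast hN1
  have h1 : 0 ≤ Real.log N := Real.log_nonneg hNr
  have h2 : Real.log N ≤ 1.001 * L := by
    have := Real.log_le_log (by linarith) hN2
    rwa [Real.log_exp] at this
  have hn : (1 : ℝ) ≤ ((a * b : ℕ) : ℝ) := by
    exact_mod_cast Nat.one_le_iff_ne_zero.mpr (Nat.mul_ne_zero ha hb)
  have h3 : 0 ≤ Real.log ((a : ℝ) * b) := by
    push_cast at hn
    exact Real.log_nonneg hn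
  have h4 : Real.log ((a : ℝ) * b) ≤ 1 / 10 ^ 8 * L := by
    have := Real.log_le_log (by linarith) hab
    rw [Real.log_exp] at this
    push_cast at this
    exact this
  have h5 := Real.eulerMascheroniConstant_lt_two_thirds
  have h6 := Real.one_half_lt_eulerMascheroniConstant
  unfold cc
  rw [abs_le]
  constructor <;> linarith

theorem werr_bound (ε : ℝ) (Z : ℕ) : ∃ Q0 : ℝ, ∀ L : ℝ, Q0 ≤ L → Bg ε Z L → ∀ N a b : ℕ, a ≠ 0 →
    b ≠ 0 → Nat.Coprime a b → Real.exp ((1 - ε / 1000) * L) ≤ N →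
    (N : ℝ) ≤ Real.exp ((1 + ε / 1000) * L) →
    ((a * b : ℕ) : ℝ) ≤ Real.exp (kap ε Z * L) →
    |DN (MfS (tz Z L) (ty ε L) (ty ε L)) (wS (tz Z L) (ty ε L) (ty ε L)) N a b -
      ((a * b : ℕ) : ℝ) ^ (-(1 / 2) : ℝ) * Full (tz Z L) (ty ε L) N a b| ≤
      Real.exp (-(10 * kap ε Z) * L) := by
  by_cases hκ : 0 < kap ε Z
  swap
  · exact ⟨0, fun L _ hB => absurd hB.kpos hκ⟩
  obtain ⟨C, hC, hdiv⟩ := divisor_bound (1 / 32) (by norm_num)
  obtain ⟨Q1, _, hQ1⟩ := poly_le_exp (Z + 3) (36 * C ^ 4) (kap ε Z) hκ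
  refine ⟨Q1, ?_⟩
  intro L hLQ1 hB N a b ha hb hab hN1 hN2 hn
  have hL100 := hB.hL
  have hLpos := hB.Lpos
  have hε := hB.hε
  have hε1 := hB.hε1
  have hZpos := hB.Zpos
  have hZbig := hB.Zbig
  have hLκ := hB.hLκ
  have hZ1 : 1 ≤ Z := by
    have : (0 : ℝ) < Z := hZpos
    exact_mod_cast this
  have hκle : kap ε Z ≤ 1 / 10 ^ 9 := by
    have h1 := hB.kle
    have h2 : ε / 10 ^ 8 ≤ 1 / 10 ^ 9 := by linarith
    linarith
  have hεL : ε / 1000 * L ≤ 1 / 10000 * L := by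
    apply mul_le_mul_of_nonneg_right _ hLpos.le
    linarith
  have hκL : kap ε Z * L ≤ 1 / 10 ^ 9 * L := mul_le_mul_of_nonneg_right hκle hLpos.le
  have hNr : (0 : ℝ) < N := lt_of_lt_of_le (Real.exp_pos _) hN1
  have hN1a : Real.exp (0.999 * L) ≤ N := by
    refine le_trans (Real.exp_le_exp.mpr ?_) hN1
    linarith
  have hN2a : (N : ℝ) ≤ Real.exp (1.001 * L) := by
    refine hN2.trans (Real.exp_le_exp.mpr ?_)
    linarith
  have hN1' : 1 ≤ N := by exact_mod_cast Nat.one_le_cast.mp (by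
    have : (1 : ℝ) ≤ N := (Real.one_le_exp (by positivity)).trans hN1a
    exact this)
  have hYhi := hB.Y_hi'
  have hYpos := hB.Y_pos
  have hnr : (1 : ℝ) ≤ ((a * b : ℕ) : ℝ) := by
    exact_mod_cast Nat.one_le_iff_ne_zero.mpr (Nat.mul_ne_zero ha hb)
  have hnr0 : (0 : ℝ) < ((a * b : ℕ) : ℝ) := by linarith
  have hn8 : ((a * b : ℕ) : ℝ) ≤ Real.exp (1 / 10 ^ 8 * L) := by
    refine hn.trans (Real.exp_le_exp.mpr ?_)
    linarith
  have hY4 : (ty ε L : ℝ) ^ 4 ≤ Real.exp (0.004 * L) := by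
    calc (ty ε L : ℝ) ^ 4 ≤ (Real.exp (L / 1000)) ^ 4 := by gcongr
      _ = Real.exp (0.004 * L) := by rw [← Real.exp_nat_mul]; congr 1; push_cast; ring
  have hcond : a * b * (ty ε L * ty ε L) ^ 2 ≤ N := by
    have h1 : ((a * b * (ty ε L * ty ε L) ^ 2 : ℕ) : ℝ) ≤ (N : ℝ) := by
      have e1 : ((a * b * (ty ε L * ty ε L) ^ 2 : ℕ) : ℝ) =
          ((a * b : ℕ) : ℝ) * (ty ε L : ℝ) ^ 4 := by
        push_cast; ring
      rw [e1]
      calc ((a * b : ℕ) : ℝ) * (ty ε L : ℝ) ^ 4 ≤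
            Real.exp (1 / 10 ^ 8 * L) * Real.exp (0.004 * L) := by
            gcongr
        _ = Real.exp (1 / 10 ^ 8 * L + 0.004 * L) := by rw [Real.exp_add]
        _ ≤ Real.exp (0.999 * L) := Real.exp_le_exp.mpr (by nlinarith)
        _ ≤ N := hN1a
    exact_mod_cast h1
  have hσ0 : (0 : ℝ) ≤ 1 / (5 * Z) := by positivity
  have hσs : (1 : ℝ) / (5 * Z) ≤ 1 / 20000 := by
    apply one_div_le_one_div_of_le (by norm_num)
    linarith
  have hσ1 : (1 : ℝ) / (5 * Z) ≤ 1 := by linarith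
  have h := DN_eval (z := tz Z L) (Y := ty ε L) (N := N) ha hb hab
    (by linarith [hB.logz_1000]) hB.zY hcond (σ := 1 / (5 * Z)) hσ0 hσ1
  refine h.trans ?_
  -- first term
  have h1 : 2 * (ty ε L : ℝ) ^ 4 / Real.sqrt N ≤ 2 * Real.exp (-0.4 * L) := by
    have hs : Real.exp (0.4995 * L) ≤ Real.sqrt N := by
      apply Real.le_sqrt_of_sq_le
      rw [← Real.exp_nat_mul]
      refine le_trans (Real.exp_le_exp.mpr ?_) hN1a
      push_cast
      linarith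
    have hs0 : 0 < Real.sqrt N := Real.sqrt_pos.mpr hNr
    rw [div_le_iff₀ hs0]
    calc 2 * (ty ε L : ℝ) ^ 4 ≤ 2 * Real.exp (0.004 * L) := by gcongr
      _ ≤ 2 * (Real.exp (-0.4 * L) * Real.exp (0.4995 * L)) := by
          rw [← Real.exp_add]
          have : Real.exp (0.004 * L) ≤ Real.exp (-0.4 * L + 0.4995 * L) :=
            Real.exp_le_exp.mpr (by linarith)
          linarith
      _ ≤ 2 * (Real.exp (-0.4 * L) * Real.sqrt N) := by gcongr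
      _ = _ := by ring
  -- second term
  have hcc := abs_cc_le' hL100 ha hb hN1' hN2a hn8
  have hl4 : Real.log 4 ≤ 2 := by
    rw [show (4 : ℝ) = 2 ^ 2 by norm_num, Real.log_pow]
    have := Real.log_two_lt_d9
    push_cast; linarith
  have hl40 : 0 < Real.log 4 := Real.log_pos (by norm_num)
  have hLL : L ≤ L ^ Z := le_self_pow₀ (by linarith) (by omega)
  have hlY : Real.log (ty ε L) ≤ L := by
    have := hB.logY_hi
    linarith
  have hlY0 : 0 ≤ Real.log (ty ε L) := by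
    have := hB.logY_lo
    have h2 : 0 ≤ ε / 2000 * L := by positivity
    linarith
  have hA : |cc N a b| + (tz Z L : ℝ) * Real.log 4 + Real.log (ty ε L) ≤ 6 * L ^ Z := by
    have : (tz Z L : ℝ) * Real.log 4 ≤ 2 * L ^ Z * 2 := by
      have := hB.z_hi
      gcongr
    linarith
  have hlY3 : 3 * Real.log (ty ε L) ^ 3 ≤ 3 * L ^ 3 := by
    gcongr
  have hYσ : (ty ε L : ℝ) ^ (-(1 / (5 * Z)) : ℝ) ≤ 2 * Real.exp (-(20 * kap ε Z) * L) := by
    have e1 : (ty ε L : ℝ) ^ (-(1 / (5 * Z)) : ℝ) ≤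
        (Real.exp (ε / 1000 * L) / 2) ^ (-(1 / (5 * Z)) : ℝ) :=
      Real.rpow_le_rpow_of_nonpos (by positivity) hB.Y_lo (by linarith)
    refine e1.trans ?_
    rw [Real.div_rpow (by positivity) (by norm_num), div_eq_mul_inv, ← Real.rpow_neg (by norm_num),
      neg_neg, mul_comm]
    have e2 : (2 : ℝ) ^ (1 / (5 * Z) : ℝ) ≤ 2 := by
      calc (2 : ℝ) ^ (1 / (5 * Z) : ℝ) ≤ (2 : ℝ) ^ (1 : ℝ) :=
            Real.rpow_le_rpow_of_exponent_le (by norm_num) hσ1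
        _ = 2 := Real.rpow_one _
    have e3 : (Real.exp (ε / 1000 * L)) ^ (-(1 / (5 * Z)) : ℝ) =
        Real.exp (-(20 * kap ε Z) * L) := by
      rw [← Real.exp_mul]
      congr 1
      unfold kap
      field_simp
      norm_num
    rw [e3]
    gcongr
  have hexp : Real.exp (3 * (tz Z L : ℝ) ^ (2 * (1 / (5 * Z)) : ℝ) * (1 + Real.log (tz Z L))) ≤
      Real.exp (2 * kap ε Z * L) := Real.exp_le_exp.mpr hB.exp3
  have hτ : ((a * b : ℕ) : ℝ) ^ (-(1 / 2) : ℝ) *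
      (((a * b).divisors.card : ℝ) ^ 4 * ((a * b : ℕ) : ℝ) ^ (1 / (5 * Z) : ℝ)) ≤ C ^ 4 := by
    have e1 := hdiv (a * b) (Nat.mul_ne_zero ha hb)
    set x : ℝ := ((a * b : ℕ) : ℝ) with hx
    calc x ^ (-(1 / 2) : ℝ) * (((a * b).divisors.card : ℝ) ^ 4 * x ^ (1 / (5 * Z) : ℝ))
        ≤ x ^ (-(1 / 2) : ℝ) * ((C * x ^ (1 / 32 : ℝ)) ^ 4 * x ^ (1 / (5 * Z) : ℝ)) := by gcongr
      _ = C ^ 4 * (x ^ (-(1 / 2) : ℝ) * ((x ^ (1 / 32 : ℝ)) ^ 4 * x ^ (1 / (5 * Z) : ℝ))) := by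
          ring
      _ = C ^ 4 * x ^ (-(1 / 2) + (1 / 8 + 1 / (5 * Z)) : ℝ) := by
          rw [← Real.rpow_natCast (x ^ (1 / 32 : ℝ)), ← Real.rpow_mul hnr0.le, ← Real.rpow_add hnr0,
            ← Real.rpow_add hnr0]
          norm_num
      _ ≤ C ^ 4 * 1 := by
          gcongr
          exact Real.rpow_le_one_of_one_le_of_nonpos hnr (by linarith)
      _ = C ^ 4 := mul_one _
  have h2 : ((a * b : ℕ) : ℝ) ^ (-(1 / 2) : ℝ) *
      ((|cc N a b| + (tz Z L : ℝ) * Real.log 4 + Real.log (ty ε L)) *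
        ((3 * (Real.log (ty ε L)) ^ 3) *
        (ty ε L : ℝ) ^ (-(1 / (5 * Z)) : ℝ) *
        Real.exp (3 * (tz Z L : ℝ) ^ (2 * (1 / (5 * Z)) : ℝ) * (1 + Real.log (tz Z L)))) *
        (((a * b).divisors.card : ℝ) ^ 4 * ((a * b : ℕ) : ℝ) ^ (1 / (5 * Z) : ℝ))) ≤
      Real.exp (-(17 * kap ε Z) * L) := by
    calc _ = ((|cc N a b| + (tz Z L : ℝ) * Real.log 4 + Real.log (ty ε L)) *
        ((3 * (Real.log (ty ε L)) ^ 3) *
        (ty ε L : ℝ) ^ (-(1 / (5 * Z)) : ℝ) *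
        Real.exp (3 * (tz Z L : ℝ) ^ (2 * (1 / (5 * Z)) : ℝ) * (1 + Real.log (tz Z L))))) *
        (((a * b : ℕ) : ℝ) ^ (-(1 / 2) : ℝ) *
          (((a * b).divisors.card : ℝ) ^ 4 * ((a * b : ℕ) : ℝ) ^ (1 / (5 * Z) : ℝ))) := by ring
      _ ≤ ((6 * L ^ Z) * ((3 * L ^ 3) * (2 * Real.exp (-(20 * kap ε Z) * L)) *
        Real.exp (2 * kap ε Z * L))) * C ^ 4 := by
          have hK1 : 0 ≤ |cc N a b| + (tz Z L : ℝ) * Real.log 4 + Real.log (ty ε L) := by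
            positivity
          gcongr
      _ = (36 * C ^ 4 * L ^ (Z + 3)) * (Real.exp (-(20 * kap ε Z) * L) *
          Real.exp (2 * kap ε Z * L)) := by
          rw [pow_add]
          ring
      _ ≤ Real.exp (kap ε Z * L) * (Real.exp (-(20 * kap ε Z) * L) *
          Real.exp (2 * kap ε Z * L)) := by
          gcongr
          exact hQ1 L hLQ1
      _ = Real.exp (-(17 * kap ε Z) * L) := by
          rw [← Real.exp_add, ← Real.exp_add]; congr 1; ring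
  have h3 : Real.exp (-0.4 * L) ≤ Real.exp (-(17 * kap ε Z) * L) :=
    Real.exp_le_exp.mpr (by linarith)
  have h4 : 4 ≤ Real.exp (kap ε Z * L) := by
    have := Real.add_one_le_exp (kap ε Z * L)
    linarith
  have hp := Real.exp_pos (-(17 * kap ε Z) * L)
  calc _ ≤ 2 * Real.exp (-0.4 * L) + Real.exp (-(17 * kap ε Z) * L) := add_le_add h1 h2
    _ ≤ 4 * Real.exp (-(17 * kap ε Z) * L) := by
        linarith
    _ ≤ Real.exp (kap ε Z * L) * Real.exp (-(17 * kap ε Z) * L) := by gcongr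
    _ ≤ Real.exp (-(10 * kap ε Z) * L) := by
        rw [← Real.exp_add]
        exact Real.exp_le_exp.mpr (by linarith)

end Pool.Agent.H74.TS
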