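import Pool.Agent.H74.TS.SecA
import Pool.Agent.H14.PT.S2b

/-!
# The twisted second moment over a product set, and removal of the principal character

`𝒜`, `ℬ` finite sets of characters modulo the prime `q`; the pair `x = (χ, ψ)` runs over
`𝒜 ×ˢ ℬ`, and the character is `x.1 * x.2`.

`sum_pairs`: `∑_{x ∈ 𝒜 ×ˢ ℬ} (x.1 x.2)(a) conj((x.1 x.2)(b)) = fc 𝒜 (a,b) * fc ℬ (a,b)`
(`Finset.sum_product`, `Finset.sum_mul_sum`, `MulChar.mul_apply`).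

`fc_red`: if `x = a t`, `y = b t` and `t ≠ 0` mod `q` then `fc 𝒜 (x, y) = fc 𝒜 (a, b)`
(`‖χ t‖ = 1`); if `t = 0` mod `q` both sides need not agree, so `hYq` and `hNq` below guarantee that
the gcd is a unit, exactly as in `moment_le` of `Pool/Agent/H14/PT/DN.lean`.

`wmoment_le`: as `moment_le` of `Pool/Agent/H14/PT/DN.lean`: expand with `mollified_term`, exchange
the sums, use `sum_pairs`, group the quadruples by the reduced fraction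
`(x, y) / gcd(x, y)`, which lies in `RQ (Y^2 N)`; on the fibre of `p` the character factor is
`fc 𝒜 p * fc ℬ p` and the sum of the weights `qw` is `DN Mf w N p.1 p.2` (`red_iff`).  Finally
`‖fc 𝒜 p‖ ‖fc ℬ p‖ = |𝒜| |ℬ| ww (va 𝒜) (va ℬ) p`.

`sum_PN_le`: `F (x.1 x.2)` for the pairs with `x.1 x.2 = 1` is `F 1`, and for each `χ ∈ 𝒜` there is
at most one `ψ` with `χ ψ = 1`.
-/

namespace Pool.Agent.H74.TS

open Finset Pool.Agent.H14.PT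
open scoped ComplexConjugate

variable {q : ℕ} [Fact q.Prime]

/-- the pairs of characters with non-principal product -/
noncomputable def PN (𝒜 ℬ : Finset (DirichletCharacter ℂ q)) :
    Finset (DirichletCharacter ℂ q × DirichletCharacter ℂ q) :=
  open Classical in (𝒜 ×ˢ ℬ).filter (fun x => x.1 * x.2 ≠ 1)

theorem sum_pairs (𝒜 ℬ : Finset (DirichletCharacter ℂ q)) (a b : ℕ) :
    ∑ x ∈ 𝒜 ×ˢ ℬ, (x.1 * x.2) (a : ZMod q) * conj ((x.1 * x.2) (b : ZMod q)) =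
      fc 𝒜 (a, b) * fc ℬ (a, b) := by
  unfold fc
  rw [Finset.sum_mul_sum, Finset.sum_product]
  refine Finset.sum_congr rfl fun χ _ => Finset.sum_congr rfl fun ψ _ => ?_
  simp only [MulChar.mul_apply, map_mul]
  ring

theorem fc_red (𝒜 : Finset (DirichletCharacter ℂ q)) (a b t : ℕ) (ht : (t : ZMod q) ≠ 0) :
    fc 𝒜 (a * t, b * t) = fc 𝒜 (a, b) := by
  unfold fc
  refine Finset.sum_congr rfl fun χ _ => ?_
  have h4 : χ ((t : ℕ) : ZMod q) * conj (χ ((t : ℕ) : ZMod q)) = 1 := by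
    rw [conj_chi, ← map_mul, mul_inv_cancel₀ ht, map_one]
  simp only [Nat.cast_mul, map_mul]
  calc χ (a : ZMod q) * χ (t : ZMod q) * (conj (χ (b : ZMod q)) * conj (χ (t : ZMod q)))
      = χ (a : ZMod q) * conj (χ (b : ZMod q)) * (χ (t : ZMod q) * conj (χ (t : ZMod q))) := by ring
    _ = _ := by rw [h4, mul_one]

lemma mom_quads (𝒜 ℬ : Finset (DirichletCharacter ℂ q)) (Mf : Finset ℕ) (w : ℕ → ℝ) (N : ℕ) :
    ∑ x ∈ 𝒜 ×ˢ ℬ, ((‖Mol Mf w (x.1 * x.2)‖ ^ 2 : ℝ) : ℂ) * TT (x.1 * x.2) N =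
      ∑ i ∈ quads Mf N, ((qw w i : ℝ) : ℂ) *
        (fc 𝒜 (i.1.1 * i.2.1, i.1.2 * i.2.2) * fc ℬ (i.1.1 * i.2.1, i.1.2 * i.2.2)) := by
  simp_rw [mollified_term]
  rw [Finset.sum_comm]
  refine Finset.sum_congr rfl fun i _ => ?_
  rw [← Finset.mul_sum, sum_pairs]

lemma mom_ww (𝒜 ℬ : Finset (DirichletCharacter ℂ q)) (h𝒜 : 𝒜.Nonempty) (hℬ : ℬ.Nonempty)
    (p : ℕ × ℕ) :
    ‖fc 𝒜 p * fc ℬ p‖ = ((𝒜.card : ℝ) * ℬ.card) * ww (va 𝒜) (va ℬ) p := by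
  have hA : (0 : ℝ) < 𝒜.card := by exact_mod_cast h𝒜.card_pos
  have hB : (0 : ℝ) < ℬ.card := by exact_mod_cast hℬ.card_pos
  unfold ww va
  rw [← mul_pow, Real.sqrt_sq (by positivity), norm_mul]
  field_simp

theorem wmoment_le (𝒜 ℬ : Finset (DirichletCharacter ℂ q)) (h𝒜 : 𝒜.Nonempty) (hℬ : ℬ.Nonempty)
    (Mf : Finset ℕ) (w : ℕ → ℝ) (N Y : ℕ) (hM : ∀ m ∈ Mf, 1 ≤ m ∧ m ≤ Y) (hYq : Y < q)
    (hNq : N < q ^ 2) :
    ‖∑ x ∈ 𝒜 ×ˢ ℬ, ((‖Mol Mf w (x.1 * x.2)‖ ^ 2 : ℝ) : ℂ) * TT (x.1 * x.2) N‖ ≤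
      ((𝒜.card : ℝ) * ℬ.card) * ∑ p ∈ RQ (Y ^ 2 * N), ww (va 𝒜) (va ℬ) p * |DN Mf w N p.1 p.2| := by
  classical
  rw [mom_quads]
  set r : (ℕ × ℕ) × (ℕ × ℕ) → ℕ × ℕ := fun i =>
    ((i.1.1 * i.2.1) / Nat.gcd (i.1.1 * i.2.1) (i.1.2 * i.2.2),
     (i.1.2 * i.2.2) / Nat.gcd (i.1.1 * i.2.1) (i.1.2 * i.2.2)) with hr
  have hqp : q.Prime := Fact.out
  have hquad : ∀ i ∈ quads Mf N, (1 ≤ i.1.1 ∧ i.1.1 ≤ Y) ∧ (1 ≤ i.1.2 ∧ i.1.2 ≤ Y) ∧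
      1 ≤ i.2.1 ∧ 1 ≤ i.2.2 ∧ i.2.1 * i.2.2 ≤ N := by
    intro i hi
    unfold quads at hi
    simp only [mem_product, mem_hyp] at hi
    exact ⟨hM _ hi.1.1, hM _ hi.1.2, hi.2.1, hi.2.2.1, hi.2.2.2⟩
  have hunit : ∀ i ∈ quads Mf N, ((Nat.gcd (i.1.1 * i.2.1) (i.1.2 * i.2.2) : ℕ) : ZMod q) ≠ 0 := by
    intro i hi h0
    obtain ⟨⟨a1, a2⟩, ⟨a3, a4⟩, a5, a6, a7⟩ := hquad i hi
    rw [ZMod.natCast_eq_zero_iff] at h0
    have h1 : q ∣ i.1.1 * i.2.1 := h0.trans (Nat.gcd_dvd_left _ _)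
    have h2 : q ∣ i.1.2 * i.2.2 := h0.trans (Nat.gcd_dvd_right _ _)
    have h3 : q ∣ i.2.1 := by
      rcases (Nat.Prime.dvd_mul hqp).mp h1 with h | h
      · exact absurd (Nat.le_of_dvd (by omega) h) (by omega)
      · exact h
    have h4 : q ∣ i.2.2 := by
      rcases (Nat.Prime.dvd_mul hqp).mp h2 with h | h
      · exact absurd (Nat.le_of_dvd (by omega) h) (by omega)
      · exact h
    have h5 : q ≤ i.2.1 := Nat.le_of_dvd (by omega) h3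
    have h6 : q ≤ i.2.2 := Nat.le_of_dvd (by omega) h4
    have h7 : q ^ 2 ≤ N := by
      calc q ^ 2 = q * q := sq q
        _ ≤ i.2.1 * i.2.2 := Nat.mul_le_mul h5 h6
        _ ≤ N := a7
    omega
  have hpos : ∀ i ∈ quads Mf N, i.1.1 * i.2.1 ≠ 0 ∧ i.1.2 * i.2.2 ≠ 0 := by
    intro i hi
    obtain ⟨⟨a1, a2⟩, ⟨a3, a4⟩, a5, a6, a7⟩ := hquad i hi
    exact ⟨Nat.mul_ne_zero (by omega) (by omega), Nat.mul_ne_zero (by omega) (by omega)⟩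
  have hmaps : ∀ i ∈ quads Mf N, r i ∈ RQ (Y ^ 2 * N) := by
    intro i hiq
    obtain ⟨hx, hy⟩ := hpos i hiq
    obtain ⟨⟨a1, a2⟩, ⟨a3, a4⟩, a5, a6, a7⟩ := hquad i hiq
    have hg : 0 < Nat.gcd (i.1.1 * i.2.1) (i.1.2 * i.2.2) :=
      Nat.gcd_pos_of_pos_left _ (Nat.pos_of_ne_zero hx)
    rw [mem_RQ]
    simp only [hr]
    refine ⟨⟨Nat.coprime_div_gcd_div_gcd hg, ?_, ?_⟩, ?_⟩
    · exact (Nat.div_pos (Nat.le_of_dvd (Nat.pos_of_ne_zero hx) (Nat.gcd_dvd_left _ _)) hg).ne'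
    · exact (Nat.div_pos (Nat.le_of_dvd (Nat.pos_of_ne_zero hy) (Nat.gcd_dvd_right _ _)) hg).ne'
    · calc (i.1.1 * i.2.1) / Nat.gcd (i.1.1 * i.2.1) (i.1.2 * i.2.2) *
            ((i.1.2 * i.2.2) / Nat.gcd (i.1.1 * i.2.1) (i.1.2 * i.2.2))
          ≤ (i.1.1 * i.2.1) * (i.1.2 * i.2.2) := Nat.mul_le_mul (Nat.div_le_self _ _) (Nat.div_le_self _ _)
        _ = (i.1.1 * i.1.2) * (i.2.1 * i.2.2) := by ring
        _ ≤ (Y * Y) * N := Nat.mul_le_mul (Nat.mul_le_mul a2 a4) a7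
        _ = Y ^ 2 * N := by ring
  rw [← Finset.sum_fiberwise_of_maps_to hmaps, Finset.mul_sum]
  refine (norm_sum_le _ _).trans (Finset.sum_le_sum fun p hp => ?_)
  obtain ⟨⟨hcop, hp1, hp2⟩, _⟩ := mem_RQ.mp hp
  have hfib : (quads Mf N).filter (fun i => r i = p) =
      (quads Mf N).filter (fun i => i.1.1 * i.2.1 * p.2 = i.1.2 * i.2.2 * p.1) := by
    ext i
    simp only [hr, mem_filter, Prod.ext_iff]
    constructor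
    · rintro ⟨h1, h3⟩
      exact ⟨h1, (red_iff (hpos i h1).1 hcop).mp h3⟩
    · rintro ⟨h1, h2⟩
      exact ⟨h1, (red_iff (hpos i h1).1 hcop).mpr h2⟩
  rw [hfib]
  have hval : ∑ i ∈ (quads Mf N).filter (fun i => i.1.1 * i.2.1 * p.2 = i.1.2 * i.2.2 * p.1),
      ((qw w i : ℝ) : ℂ) * (fc 𝒜 (i.1.1 * i.2.1, i.1.2 * i.2.2) *
        fc ℬ (i.1.1 * i.2.1, i.1.2 * i.2.2)) =
      (fc 𝒜 p * fc ℬ p) * ((DN Mf w N p.1 p.2 : ℝ) : ℂ) := by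
    unfold DN
    rw [Complex.ofReal_sum, Finset.mul_sum]
    refine Finset.sum_congr rfl fun i hi => ?_
    obtain ⟨h1, h2⟩ := Finset.mem_filter.mp hi
    have h3 := (red_iff (hpos i h1).1 hcop).mpr h2
    have ex := Nat.div_mul_cancel (Nat.gcd_dvd_left (i.1.1 * i.2.1) (i.1.2 * i.2.2))
    have ey := Nat.div_mul_cancel (Nat.gcd_dvd_right (i.1.1 * i.2.1) (i.1.2 * i.2.2))
    rw [h3.1] at ex
    rw [h3.2] at ey
    have hu := hunit i h1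
    have e1 := fc_red 𝒜 p.1 p.2 _ hu
    have e2 := fc_red ℬ p.1 p.2 _ hu
    rw [ex, ey] at e1 e2
    rw [e1, e2]
    ring
  rw [hval, norm_mul, mom_ww 𝒜 ℬ h𝒜 hℬ, Complex.norm_real, Real.norm_eq_abs]
  exact le_of_eq (by ring)

theorem sum_PN_sub (𝒜 ℬ : Finset (DirichletCharacter ℂ q)) (F : DirichletCharacter ℂ q → ℂ) :
    ‖∑ x ∈ 𝒜 ×ˢ ℬ, F (x.1 * x.2) - ∑ x ∈ PN 𝒜 ℬ, F (x.1 * x.2)‖ ≤ 𝒜.card * ‖F 1‖ := by
  classical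
  have h1 : ∑ x ∈ 𝒜 ×ˢ ℬ, F (x.1 * x.2) = ∑ x ∈ PN 𝒜 ℬ, F (x.1 * x.2) +
      ∑ x ∈ (𝒜 ×ˢ ℬ).filter (fun x => ¬ (x.1 * x.2 ≠ 1)), F (x.1 * x.2) := by
    unfold PN
    rw [← Finset.sum_filter_add_sum_filter_not (𝒜 ×ˢ ℬ) (fun x => x.1 * x.2 ≠ 1)]
  have h2 : ∑ x ∈ 𝒜 ×ˢ ℬ, F (x.1 * x.2) - ∑ x ∈ PN 𝒜 ℬ, F (x.1 * x.2) =
      ∑ x ∈ (𝒜 ×ˢ ℬ).filter (fun x => ¬ (x.1 * x.2 ≠ 1)), F (x.1 * x.2) := by
    rw [h1]; ring
  rw [h2]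
  have h3 : ∀ x ∈ (𝒜 ×ˢ ℬ).filter (fun x => ¬ (x.1 * x.2 ≠ 1)), ‖F (x.1 * x.2)‖ = ‖F 1‖ := by
    intro x hx
    have := (Finset.mem_filter.mp hx).2
    push Not at this
    rw [this]
  refine (norm_sum_le _ _).trans ?_
  rw [Finset.sum_congr rfl h3, Finset.sum_const, nsmul_eq_mul]
  refine mul_le_mul_of_nonneg_right ?_ (norm_nonneg _)
  have h4 : ((𝒜 ×ˢ ℬ).filter (fun x => ¬ (x.1 * x.2 ≠ 1))).card ≤ 𝒜.card := by
    refine Finset.card_le_card_of_injOn (fun x => x.1) ?_ ?_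
    · intro x hx
      have := (Finset.mem_filter.mp hx).1
      exact (Finset.mem_product.mp this).1
    · intro x hx y hy hxy
      have h5 := (Finset.mem_filter.mp hx).2
      have h6 := (Finset.mem_filter.mp hy).2
      push Not at h5 h6
      have h7 : x.1 = y.1 := hxy
      refine Prod.ext h7 ?_
      have h8 : x.2 = x.1⁻¹ := eq_inv_of_mul_eq_one_right h5
      have h9 : y.2 = y.1⁻¹ := eq_inv_of_mul_eq_one_right h6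
      rw [h8, h9, h7]
  exact_mod_cast h4

end Pool.Agent.H74.TS
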