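import Pool.Agent.H74.TS.ClsR
import Pool.Agent.H74.TS.ClsP
import Pool.Agent.H74.TS.ClsL
import Pool.Agent.H14.PT.S2

/-!
# The weighted sum of `|DN|` over the reduced fractions

`wDN_T0`: as `DN_T0` of `Pool/Agent/H14/PT/S2.lean` (`Bg.Y_hi'`).

`wS2_mid`: as `S2_mid` there, with `wfull_bounds`, `werr_bound`, `wsum_L`, `wsum_P`, `wsum_R1`,
`wsum_R2`, `classify` (which is stated for general `z`), `count_small`; every bound for
`D p = |DN ...|` is multiplied by `ww v1 v2 p` (`ww ≤ 1` for the first and third class).  Size of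
`a b`: `a b ≤ (Y Y)^2 N ≤ exp ((1 + 5 ε / 1000) L) ≤ exp ((1 + ε/100) L)`.  Third class:
`Ex^2 * exp (-10 κ L) = exp (-8 κ L) ≤ 1` with `Ex = exp (κ L)`.
-/

namespace Pool.Agent.H74.TS

open Finset Pool.Agent.H14.PT Pool.Agent.H16
open scoped ArithmeticFunction.Omega

/-- the reduced fractions `a / b` with `a b ≤ B` -/
def RQ (B : ℕ) : Finset (ℕ × ℕ) :=
  ((Icc 1 B) ×ˢ (Icc 1 B)).filter (fun p => Nat.Coprime p.1 p.2 ∧ p.1 * p.2 ≤ B)

lemma mem_RQ {B : ℕ} {p : ℕ × ℕ} : p ∈ RQ B ↔ Red p ∧ p.1 * p.2 ≤ B := by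
  unfold RQ Red
  simp only [mem_filter, mem_product, mem_Icc]
  constructor
  · rintro ⟨⟨⟨h1, _⟩, h2, _⟩, h3, h4⟩
    exact ⟨⟨h3, by omega, by omega⟩, h4⟩
  · rintro ⟨⟨h1, h2, h3⟩, h4⟩
    have h5 : p.1 ≤ p.1 * p.2 := Nat.le_mul_of_pos_right _ (Nat.pos_of_ne_zero h3)
    have h6 : p.2 ≤ p.1 * p.2 := Nat.le_mul_of_pos_left _ (Nat.pos_of_ne_zero h2)
    exact ⟨⟨⟨by omega, by omega⟩, by omega, by omega⟩, h1, h4⟩

theorem wDN_T0 {ε L : ℝ} {Z : ℕ} (hB : Bg ε Z L) {N a b : ℕ} (ha : a ≠ 0) (hb : b ≠ 0)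
    (hab : Nat.Coprime a b) (hN1 : 1 ≤ N) (hN2 : (N : ℝ) ≤ Real.exp (1.001 * L)) :
    |DN (MfS (tz Z L) (ty ε L) (ty ε L)) (wS (tz Z L) (ty ε L) (ty ε L)) N a b| ≤
      T0 (a, b) * (16 * L ^ 4) := by
  have hL := hB.hL
  have hY2 : 2 ≤ ty ε L := hB.z_two.trans hB.zY
  have hYpos := hB.Y_pos
  have h := DN_trivial (MfS (tz Z L) (ty ε L) (ty ε L)) (wS (tz Z L) (ty ε L) (ty ε L)) N
    (ty ε L * ty ε L)
    ((ty ε L * ty ε L) * N) a b hab ha hb (fun m hm => MfS_bounds hm) (fun m => abs_wS_le hY2 m)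
    (by
      calc (ty ε L * ty ε L) ^ 2 * N ≤ (ty ε L * ty ε L) ^ 2 * (N * N) :=
            Nat.mul_le_mul_left _ (Nat.le_mul_of_pos_left _ hN1)
        _ = (ty ε L * ty ε L * N) ^ 2 := by ring)
  refine h.trans ?_
  unfold T0
  refine mul_le_mul_of_nonneg_left ?_ (by positivity)
  have hNr : (0 : ℝ) < N := by exact_mod_cast hN1
  have h1 : Real.log ((ty ε L * ty ε L * N : ℕ) : ℝ) ≤ 1.003 * L := by
    push_cast
    rw [Real.log_mul (by positivity) hNr.ne', Real.log_mul hYpos.ne' hYpos.ne']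
    have h2 := Real.log_le_log hB.Y_pos hB.Y_hi'
    rw [Real.log_exp] at h2
    have h3 := Real.log_le_log hNr hN2
    rw [Real.log_exp] at h3
    linarith
  have h0 : 0 ≤ Real.log ((ty ε L * ty ε L * N : ℕ) : ℝ) := Real.log_natCast_nonneg _
  calc (1 + Real.log ((ty ε L * ty ε L * N : ℕ) : ℝ)) ^ 4 ≤ (2 * L) ^ 4 := by
        apply pow_le_pow_left₀ (by linarith)
        linarith
    _ = 16 * L ^ 4 := by ring

theorem wS2_mid (ε : ℝ) (Z : ℕ) (hε : 0 < ε) (hε1 : ε ≤ 1 / 10) (hZ : 400 ≤ ε * Z) :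
    ∃ C Q0 : ℝ, 0 < C ∧ ∀ (q : ℕ) [Fact q.Prime], Q0 ≤ Real.log q → Bg ε Z (Real.log q) →
    ∀ (h1 h2 : ℝ) (v1 v2 : ℕ × ℕ → ℝ), KF q h1 v1 → KF q h2 v2 →
    Real.log h1 + 2 * Real.log h2 ≤ (1 - ε) * Real.log q → ∀ N : ℕ,
    Real.exp ((1 - ε / 1000) * Real.log q) ≤ N → (N : ℝ) ≤ Real.exp ((1 + ε / 1000) * Real.log q) →
    ∑ p ∈ RQ ((ty ε (Real.log q) * ty ε (Real.log q)) ^ 2 * N), ww v1 v2 p *
      |DN (MfS (tz Z (Real.log q)) (ty ε (Real.log q)) (ty ε (Real.log q)))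
        (wS (tz Z (Real.log q)) (ty ε (Real.log q)) (ty ε (Real.log q))) N p.1 p.2| ≤ C := by
  classical
  obtain ⟨C1, hC1, hfull⟩ := wfull_bounds ε hε
  obtain ⟨Qe, herr⟩ := werr_bound ε Z
  obtain ⟨Ql, hsumL⟩ := wsum_L ε Z hε hε1 hZ
  obtain ⟨Qp, hsumP⟩ := wsum_P ε Z
  refine ⟨3 * C1 + 4, max (max Qe Ql) Qp, by positivity, ?_⟩
  intro q _ hq hB h1 h2 v1 v2 hv1 hv2 hc N hN1 hN2
  have hqe : Qe ≤ Real.log q := (le_max_left _ _).trans ((le_max_left _ _).trans hq)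
  have hql : Ql ≤ Real.log q := (le_max_right _ _).trans ((le_max_left _ _).trans hq)
  have hqp : Qp ≤ Real.log q := (le_max_right _ _).trans hq
  have hsP := hsumP q hqp hB h1 h2 v1 v2 hv1 hv2 hc
  have hsL := hsumL q hql h1 h2 v1 v2 hv1 hv2 hc
  have hsR1 := fun P => wsum_R1 hB hv1 hv2 hc P
  have hsR2 := fun P => wsum_R2 hB hv1 hv2 hc P
  set L := Real.log q with hL
  have hL100 := hB.hL
  have hLpos : 0 < L := by linarith
  have hεL : 0 < ε * L := by positivity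
  have hN1' : 1 ≤ N := by
    have h0 : 0 ≤ (1 - ε / 1000) * L := mul_nonneg (by linarith) hLpos.le
    have : (1 : ℝ) ≤ N := (Real.one_le_exp h0).trans hN1
    exact_mod_cast this
  have hN2' : (N : ℝ) ≤ Real.exp (1.001 * L) := by
    refine hN2.trans (Real.exp_le_exp.mpr ?_)
    apply mul_le_mul_of_nonneg_right _ hLpos.le
    linarith
  have hful := hfull Z L hB N hN1' hN2'
  set Ex := Real.exp (kap ε Z * L) with hEx
  set z := tz Z L with hz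
  set Y := ty ε L with hY
  set P := RQ ((Y * Y) ^ 2 * N) with hP
  set D : ℕ × ℕ → ℝ := fun p => |DN (MfS z Y Y) (wS z Y Y) N p.1 p.2| with hD
  set clsP : ℕ × ℕ → Prop := fun p => ((p.1 * p.2 : ℕ) : ℝ) ≤ Ex ∧
    ∃ r j, r.Prime ∧ r ≤ z ∧ 1 ≤ j ∧ p.1 * p.2 = r ^ j with hclsP
  set clsR1 : ℕ × ℕ → Prop := fun p => ((p.1 * p.2 : ℕ) : ℝ) ≤ Ex ∧ z ≤ p.1 * p.2 ∧ Few z (p.1 * p.2)
    with hclsR1
  set clsR2 : ℕ × ℕ → Prop := fun p => ((p.1 * p.2 : ℕ) : ℝ) ≤ Ex ∧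
    ∃ r j n', r.Prime ∧ r ≤ z ∧ 2 ≤ j ∧ p.1 * p.2 = r ^ j * n' ∧ ¬ r ∣ n' ∧ z ≤ n' ∧ Few z n' with hclsR2
  have hpt : ∀ p ∈ P, ww v1 v2 p * D p ≤ (if p = (1, 1) then C1 else 0) +
      (if Ex ≤ ((p.1 * p.2 : ℕ) : ℝ) then ww v1 v2 p * (T0 p * (16 * L ^ 4)) else 0) +
      (if ((p.1 * p.2 : ℕ) : ℝ) ≤ Ex then Real.exp (-(10 * kap ε Z) * L) else 0) +
      (if clsP p then C1 * (ww v1 v2 p * ((((p.1 * p.2 : ℕ) : ℝ)) ^ (-(1 / 2) : ℝ) *
        (Real.log (Nat.minFac (p.1 * p.2)) / L))) else 0) +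
      (if clsR1 p then ww v1 v2 p * (T0 p * (16 * L ^ 4)) else 0) +
      (if clsR2 p then ww v1 v2 p * (T0 p * (16 * L ^ 4)) else 0) := by
    intro p hp
    obtain ⟨⟨hcop, h1, h2⟩, _⟩ := mem_RQ.mp hp
    have hw0 := ww_nonneg v1 v2 p
    have hw1 := ww_le_one hv1 hv2 p
    have hT := mul_le_mul_of_nonneg_left (wDN_T0 hB h1 h2 hcop hN1' hN2') hw0
    have hT0 : 0 ≤ T0 p * (16 * L ^ 4) := mul_nonneg (T0_nonneg p) (by positivity)
    have hn0 : p.1 * p.2 ≠ 0 := Nat.mul_ne_zero h1 h2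
    have hmf : 0 ≤ Real.log (Nat.minFac (p.1 * p.2)) := Real.log_natCast_nonneg _
    have g1 : 0 ≤ (if p = (1, 1) then C1 else 0) := by split_ifs <;> positivity
    have g2 : 0 ≤ (if Ex ≤ ((p.1 * p.2 : ℕ) : ℝ) then ww v1 v2 p * (T0 p * (16 * L ^ 4)) else 0) := by
      split_ifs <;> positivity
    have g3 : 0 ≤ (if ((p.1 * p.2 : ℕ) : ℝ) ≤ Ex then Real.exp (-(10 * kap ε Z) * L) else 0) := by
      split_ifs <;> positivity
    have g4 : 0 ≤ (if clsP p then C1 * (ww v1 v2 p * ((((p.1 * p.2 : ℕ) : ℝ)) ^ (-(1 / 2) : ℝ) *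
        (Real.log (Nat.minFac (p.1 * p.2)) / L))) else 0) := by
      split_ifs <;> positivity
    have g5 : 0 ≤ (if clsR1 p then ww v1 v2 p * (T0 p * (16 * L ^ 4)) else 0) := by
      split_ifs <;> positivity
    have g6 : 0 ≤ (if clsR2 p then ww v1 v2 p * (T0 p * (16 * L ^ 4)) else 0) := by
      split_ifs <;> positivity
    by_cases hbig : Ex ≤ ((p.1 * p.2 : ℕ) : ℝ)
    · rw [if_pos hbig] at g2 ⊢
      have : ww v1 v2 p * D p ≤ ww v1 v2 p * (T0 p * (16 * L ^ 4)) := hT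
      linarith
    · push Not at hbig
      have hle := hbig.le
      have herr' := herr L hqe hB N p.1 p.2 h1 h2 hcop hN1 hN2 hle
      have hDmain : D p ≤ (((p.1 * p.2 : ℕ) : ℝ)) ^ (-(1 / 2) : ℝ) * |Full z Y N p.1 p.2| +
          Real.exp (-(10 * kap ε Z) * L) := by
        have e1 : D p ≤ |(((p.1 * p.2 : ℕ) : ℝ)) ^ (-(1 / 2) : ℝ) * Full z Y N p.1 p.2| +
            |DN (MfS z Y Y) (wS z Y Y) N p.1 p.2 -
              (((p.1 * p.2 : ℕ) : ℝ)) ^ (-(1 / 2) : ℝ) * Full z Y N p.1 p.2| := by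
          have := abs_add_le ((((p.1 * p.2 : ℕ) : ℝ)) ^ (-(1 / 2) : ℝ) * Full z Y N p.1 p.2)
            (DN (MfS z Y Y) (wS z Y Y) N p.1 p.2 -
              (((p.1 * p.2 : ℕ) : ℝ)) ^ (-(1 / 2) : ℝ) * Full z Y N p.1 p.2)
          rw [add_sub_cancel] at this
          exact this
        rw [abs_mul, abs_of_nonneg (by positivity : (0 : ℝ) ≤ (((p.1 * p.2 : ℕ) : ℝ)) ^ (-(1 / 2) : ℝ))] at e1
        linarith
      have hE0 : 0 < Real.exp (-(10 * kap ε Z) * L) := Real.exp_pos _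
      have hwE : ww v1 v2 p * Real.exp (-(10 * kap ε Z) * L) ≤ Real.exp (-(10 * kap ε Z) * L) :=
        mul_le_of_le_one_left hE0.le hw1
      have hwD : ww v1 v2 p * D p ≤
          ww v1 v2 p * ((((p.1 * p.2 : ℕ) : ℝ)) ^ (-(1 / 2) : ℝ) * |Full z Y N p.1 p.2|) +
          Real.exp (-(10 * kap ε Z) * L) := by
        have := mul_le_mul_of_nonneg_left hDmain hw0
        rw [mul_add] at this
        linarith
      rw [if_pos hle] at g3 ⊢
      rcases classify (z := z) (by linarith [hB.logz_1000]) hn0 with hc | hc | hc | hc | hc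
      · -- p = (1,1)
        have e1 : p.1 = 1 := Nat.eq_one_of_mul_eq_one_right hc
        have e2 : p.2 = 1 := Nat.eq_one_of_mul_eq_one_left hc
        have e3 : p = (1, 1) := Prod.ext e1 e2
        rw [if_pos e3]
        have h5 : (((p.1 * p.2 : ℕ) : ℝ)) ^ (-(1 / 2) : ℝ) * |Full z Y N p.1 p.2| ≤ C1 := by
          rw [hc, e1, e2]
          simpa using hful.1
        have h50 : 0 ≤ (((p.1 * p.2 : ℕ) : ℝ)) ^ (-(1 / 2) : ℝ) * |Full z Y N p.1 p.2| := by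
          positivity
        have h6 := mul_le_of_le_one_left h50 hw1
        linarith
      · -- two small primes
        obtain ⟨r, r', hr, hrz, hr', hrz', hne, hd, hd'⟩ := hc
        have h6 : Full z Y N p.1 p.2 = 0 :=
          full_M hr hrz hr' hrz' hne ((Nat.Prime.dvd_mul hr).mp hd) ((Nat.Prime.dvd_mul hr').mp hd')
        rw [h6, abs_zero, mul_zero, mul_zero, zero_add] at hwD
        linarith
      · -- prime power
        obtain ⟨r, j, hr, hrz, hj, hprod⟩ := hc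
        have h6 : clsP p := ⟨hle, r, j, hr, hrz, hj, hprod⟩
        rw [if_pos h6]
        have h7 := hful.2 p.1 p.2 r j hr hrz hj hprod
        have h8 : Nat.minFac (p.1 * p.2) = r := by rw [hprod]; exact hr.pow_minFac (by omega)
        rw [h8]
        have h9 : ww v1 v2 p * ((((p.1 * p.2 : ℕ) : ℝ)) ^ (-(1 / 2) : ℝ) * |Full z Y N p.1 p.2|) ≤
            C1 * (ww v1 v2 p * ((((p.1 * p.2 : ℕ) : ℝ)) ^ (-(1 / 2) : ℝ) * (Real.log r / L))) := by
          calc _ ≤ ww v1 v2 p *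
                ((((p.1 * p.2 : ℕ) : ℝ)) ^ (-(1 / 2) : ℝ) * (C1 * (Real.log r / L))) := by gcongr
            _ = _ := by ring
        linarith
      · have h6 : clsR1 p := ⟨hle, hc.1, hc.2⟩
        rw [if_pos h6]
        have : ww v1 v2 p * D p ≤ ww v1 v2 p * (T0 p * (16 * L ^ 4)) := hT
        linarith
      · have h6 : clsR2 p := ⟨hle, hc⟩
        rw [if_pos h6]
        have : ww v1 v2 p * D p ≤ ww v1 v2 p * (T0 p * (16 * L ^ 4)) := hT
        linarith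
  refine (Finset.sum_le_sum hpt).trans ?_
  rw [Finset.sum_add_distrib, Finset.sum_add_distrib, Finset.sum_add_distrib, Finset.sum_add_distrib,
    Finset.sum_add_distrib]
  have hCPall : ∀ p ∈ P, Red p := fun p hp => (mem_RQ.mp hp).1
  have hup : ∀ p ∈ P, ((p.1 * p.2 : ℕ) : ℝ) ≤ Real.exp ((1 + ε / 100) * L) := by
    intro p hp
    have h1 := (mem_RQ.mp hp).2
    have h2 : ((p.1 * p.2 : ℕ) : ℝ) ≤ (((Y * Y) ^ 2 * N : ℕ) : ℝ) := by exact_mod_cast h1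
    refine h2.trans ?_
    push_cast
    have hY' := hB.Y_hi
    calc ((Y : ℝ) * Y) ^ 2 * N ≤ (Real.exp (ε / 1000 * L) * Real.exp (ε / 1000 * L)) ^ 2 *
          Real.exp ((1 + ε / 1000) * L) := by
          gcongr
      _ = Real.exp ((1 + 5 * ε / 1000) * L) := by
          rw [← Real.exp_add, ← Real.exp_nat_mul, ← Real.exp_add]; congr 1; push_cast; ring
      _ ≤ _ := Real.exp_le_exp.mpr (by nlinarith)
  have s1 : ∑ p ∈ P, (if p = (1, 1) then C1 else 0) ≤ C1 := by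
    rw [Finset.sum_ite_eq']
    split_ifs <;> linarith
  have s2 : ∑ p ∈ P, (if Ex ≤ ((p.1 * p.2 : ℕ) : ℝ) then
      ww v1 v2 p * (T0 p * (16 * L ^ 4)) else 0) ≤ 1 := by
    rw [← Finset.sum_filter]
    apply hsL
    intro p hp
    obtain ⟨h1, h2⟩ := Finset.mem_filter.mp hp
    exact ⟨hCPall p h1, h2, hup p h1⟩
  have s3 : ∑ p ∈ P, (if ((p.1 * p.2 : ℕ) : ℝ) ≤ Ex then Real.exp (-(10 * kap ε Z) * L) else 0) ≤ 1 := by
    rw [← Finset.sum_filter, Finset.sum_const, nsmul_eq_mul]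
    have h1 := count_small (E := Ex) (Real.exp_pos _).le (P.filter (fun p => ((p.1 * p.2 : ℕ) : ℝ) ≤ Ex))
      (fun p hp => by
        obtain ⟨h1, h2⟩ := Finset.mem_filter.mp hp
        obtain ⟨_, h3, h4⟩ := hCPall p h1
        exact ⟨h3, h4, h2⟩)
    calc _ ≤ Ex ^ 2 * Real.exp (-(10 * kap ε Z) * L) := by gcongr
      _ = Real.exp (2 * (kap ε Z * L) + -(10 * kap ε Z) * L) := by
          rw [hEx, ← Real.exp_nat_mul, Real.exp_add]; push_cast; ring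
      _ ≤ 1 := by
          rw [Real.exp_le_one_iff]
          have := mul_pos hB.kpos hLpos
          nlinarith
  have s4 : ∑ p ∈ P, (if clsP p then C1 * (ww v1 v2 p * ((((p.1 * p.2 : ℕ) : ℝ)) ^ (-(1 / 2) : ℝ) *
        (Real.log (Nat.minFac (p.1 * p.2)) / L))) else 0) ≤ C1 * 2 := by
    rw [← Finset.sum_filter, ← Finset.mul_sum]
    refine mul_le_mul_of_nonneg_left ?_ hC1.le
    apply hsP
    intro p hp
    obtain ⟨h1, h2, h3⟩ := Finset.mem_filter.mp hp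
    exact ⟨hCPall p h1, h2, h3⟩
  have s5 : ∑ p ∈ P, (if clsR1 p then ww v1 v2 p * (T0 p * (16 * L ^ 4)) else 0) ≤ 1 := by
    rw [← Finset.sum_filter]
    apply hsR1
    intro p hp
    obtain ⟨h1, h2, h3, h4⟩ := Finset.mem_filter.mp hp
    exact ⟨hCPall p h1, h3, h2, h4⟩
  have s6 : ∑ p ∈ P, (if clsR2 p then ww v1 v2 p * (T0 p * (16 * L ^ 4)) else 0) ≤ 1 := by
    rw [← Finset.sum_filter]
    apply hsR2
    intro p hp
    obtain ⟨h1, h2, h3⟩ := Finset.mem_filter.mp hp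
    exact ⟨hCPall p h1, h2, h3⟩
  linarith

end Pool.Agent.H74.TS
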