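import Pool.Agent.H74.TS.KF
import Pool.Agent.H90.MLS
import Pool.Agent.H14.PT.DN

/-!
# The weight attached to a set of characters

For a finite set `𝒜` of Dirichlet characters modulo a prime `q`, the weight of the fraction `a / b`
is `|E_{χ ∈ 𝒜} χ(a) conj χ(b)|²`.

`va_kf` (the property `kf`): write `F p = fc 𝒜 p / |𝒜|`, so that `va 𝒜 p = ‖F p‖²`, and
`S = ∑_{p ∈ P} va 𝒜 p`, `θ_p = conj (F p)`.  Then `S = ∑_p θ_p F p = E_{χ ∈ 𝒜} D(χ)` with
`D(χ) = ∑_p θ_p χ(p.1) conj χ(p.2)`, so `S ≤ E_{χ ∈ 𝒜} ‖D χ‖` and, by the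
power mean inequality (`Real.pow_arith_mean_le_arith_mean_pow`, exponent `2k`), `S ^ (2k) ≤ E_{χ ∈ 𝒜} ‖D χ‖ ^ (2k) ≤ (1/|𝒜|) ∑_{all χ} ‖D χ‖^(2k)`.
Now `(D χ)^k = ∑_{t ∈ P^k} θ_t χ(a_t) conj χ(b_t)` (`Finset.sum_pow'`, `Finset.prod_univ_sum`) with
`θ_t = ∏ θ_{t i}`, `a_t = ∏ (t i).1`, `b_t = ∏ (t i).2`.  The terms with `a_t` or `b_t` divisible by
`q` vanish (then some `θ` is zero, as `fc 𝒜 p = 0` if `p.1` or `p.2` is `0` mod `q`), and for the
others `χ(a_t) conj χ(b_t) = χ (a_t b_t⁻¹)`.  So `(D χ)^k = ∑_{u : ZMod q} χ(u) Θ_u` with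
`Θ_u = ∑_{t : a_t = u b_t, b_t ≠ 0} θ_t` and by `Pool.Agent.H90.MLS.sum_char_sq`
`∑_χ ‖D χ‖^(2k) = (q-1) ∑_{u unit} ‖Θ_u‖² ≤ (q-1) ∑_u R ∑_{t : a_t = u b_t} ‖θ_t‖²
≤ (q-1) R ∑_t ‖θ_t‖² = (q-1) R S^k` (Cauchy-Schwarz with at most `R` terms; each `t` with
`b_t ≠ 0` belongs to exactly one `u`).  Hence `S^(2k) ≤ hh 𝒜 * R * S^k`, and one divides by `S^k`
(trivial if `S = 0`, since `1 ≤ k` and `0 ≤ hh 𝒜 * R`).

`one_le`: there are `q - 1 = φ(q)` characters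
(`DirichletCharacter.card_eq_totient_of_hasEnoughRootsOfUnity`, see also `H14/PPGroup.lean`,
`H14/GP`).
-/

namespace Pool.Agent.H74.TS

open Finset Pool.Agent.H14.PT
open scoped ComplexConjugate

variable {q : ℕ} [Fact q.Prime]

/-- the character sum over `𝒜` at the fraction `p.1 / p.2` -/
noncomputable def fc (𝒜 : Finset (DirichletCharacter ℂ q)) (p : ℕ × ℕ) : ℂ :=
  ∑ χ ∈ 𝒜, χ (p.1 : ZMod q) * conj (χ (p.2 : ZMod q))

/-- the weight -/
noncomputable def va (𝒜 : Finset (DirichletCharacter ℂ q)) (p : ℕ × ℕ) : ℝ :=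
  (‖fc 𝒜 p‖ / 𝒜.card) ^ 2

/-- the constant -/
noncomputable def hh (𝒜 : Finset (DirichletCharacter ℂ q)) : ℝ := ((q - 1 : ℕ) : ℝ) / 𝒜.card

theorem chars_conj (χ : DirichletCharacter ℂ q) (a b : ZMod q) (hb : b ≠ 0) :
    χ a * conj (χ b) = χ (a * b⁻¹) := by
  have h1 : χ a = χ (a * b⁻¹) * χ b := by
    rw [← map_mul, mul_assoc, inv_mul_cancel₀ hb, mul_one]
  have h2 : χ b * conj (χ b) = 1 := by
    rw [Complex.mul_conj, Complex.normSq_eq_norm_sq, Pool.Agent.H90.MLS.norm_char,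
      if_pos (isUnit_iff_ne_zero.2 hb)]
    simp
  rw [h1, mul_assoc, h2, mul_one]

theorem chars_card (𝒜 : Finset (DirichletCharacter ℂ q)) : 𝒜.card ≤ q - 1 := by
  have h1 : 𝒜.card ≤ Fintype.card (DirichletCharacter ℂ q) := Finset.card_le_univ 𝒜
  rw [← Nat.card_eq_fintype_card,
    DirichletCharacter.card_eq_totient_of_hasEnoughRootsOfUnity,
    Nat.totient_prime (Fact.out : q.Prime)] at h1
  exact h1

/-- the `2k`-th moment over all characters -/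
theorem chars_moment (P : Finset (ℕ × ℕ)) (k : ℕ) (R : ℝ) (θ : ℕ × ℕ → ℂ)
    (hR : ∀ u : ZMod q, (((Fintype.piFinset (fun _ : Fin k => P)).filter (fun t =>
      ((∏ i, (t i).1 : ℕ) : ZMod q) = u * ((∏ i, (t i).2 : ℕ) : ZMod q))).card : ℝ) ≤ R) :
    ∑ χ : DirichletCharacter ℂ q,
      ‖(∑ p ∈ P, θ p * (χ (p.1 : ZMod q) * conj (χ (p.2 : ZMod q)))) ^ k‖ ^ 2 ≤
      ((q - 1 : ℕ) : ℝ) * (R * (∑ p ∈ P, ‖θ p‖ ^ 2) ^ k) := by
  classical
  set T := (Fintype.piFinset (fun _ : Fin k => P)).filter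
    (fun t => ((∏ i, (t i).2 : ℕ) : ZMod q) ≠ 0) with hT
  set g : (Fin k → ℕ × ℕ) → ZMod q :=
    fun t => ((∏ i, (t i).1 : ℕ) : ZMod q) * ((∏ i, (t i).2 : ℕ) : ZMod q)⁻¹ with hg
  set Θ : ZMod q → ℂ := fun u => ∑ t ∈ T.filter (fun t => g t = u), ∏ i, θ (t i) with hΘ
  have h1 : ∀ χ : DirichletCharacter ℂ q,
      (∑ p ∈ P, θ p * (χ (p.1 : ZMod q) * conj (χ (p.2 : ZMod q)))) ^ k =
        ∑ u : ZMod q, χ u * Θ u := by
    intro χ
    rw [Finset.sum_pow']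
    have h2 : ∀ t : Fin k → ℕ × ℕ,
        ∏ i, (θ (t i) * (χ ((t i).1 : ZMod q) * conj (χ ((t i).2 : ZMod q)))) =
          (∏ i, θ (t i)) * (χ ((∏ i, (t i).1 : ℕ) : ZMod q) *
            conj (χ ((∏ i, (t i).2 : ℕ) : ZMod q))) := by
      intro t
      rw [Finset.prod_mul_distrib, Finset.prod_mul_distrib]
      congr 2
      · push_cast
        rw [map_prod]
      · push_cast
        rw [map_prod, map_prod]
    rw [Finset.sum_congr rfl (fun t _ => h2 t)]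
    have h3 : ∑ t ∈ Fintype.piFinset (fun _ : Fin k => P),
        (∏ i, θ (t i)) * (χ ((∏ i, (t i).1 : ℕ) : ZMod q) *
            conj (χ ((∏ i, (t i).2 : ℕ) : ZMod q))) =
        ∑ t ∈ T, (∏ i, θ (t i)) * χ (g t) := by
      rw [hT, Finset.sum_filter]
      refine Finset.sum_congr rfl (fun t _ => ?_)
      split_ifs with h
      · rw [chars_conj χ _ _ h]
      · rw [not_not] at h
        rw [h, MulChar.map_zero, map_zero, mul_zero, mul_zero]
    rw [h3, ← Finset.sum_fiberwise T g]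
    refine Finset.sum_congr rfl (fun u _ => ?_)
    rw [hΘ, Finset.mul_sum]
    refine Finset.sum_congr rfl (fun t ht => ?_)
    rw [(Finset.mem_filter.1 ht).2, mul_comm]
  rw [Finset.sum_congr rfl (fun χ _ => by rw [h1 χ]), Pool.Agent.H90.MLS.sum_char_sq,
    Nat.totient_prime (Fact.out : q.Prime)]
  refine mul_le_mul_of_nonneg_left ?_ (Nat.cast_nonneg _)
  have h4 : ∀ u : ZMod q, (if IsUnit u then ‖Θ u‖ ^ 2 else 0) ≤
      R * ∑ t ∈ T.filter (fun t => g t = u), ‖∏ i, θ (t i)‖ ^ 2 := by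
    intro u
    have h5 : ‖Θ u‖ ^ 2 ≤ R * ∑ t ∈ T.filter (fun t => g t = u), ‖∏ i, θ (t i)‖ ^ 2 := by
      calc ‖Θ u‖ ^ 2 ≤ (∑ t ∈ T.filter (fun t => g t = u), ‖∏ i, θ (t i)‖) ^ 2 :=
            pow_le_pow_left₀ (norm_nonneg _) (norm_sum_le _ _) 2
        _ ≤ (T.filter (fun t => g t = u)).card *
            ∑ t ∈ T.filter (fun t => g t = u), ‖∏ i, θ (t i)‖ ^ 2 := sq_sum_le_card_mul_sum_sq
        _ ≤ R * ∑ t ∈ T.filter (fun t => g t = u), ‖∏ i, θ (t i)‖ ^ 2 := by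
            refine mul_le_mul_of_nonneg_right ?_ (Finset.sum_nonneg (fun _ _ => by positivity))
            refine le_trans ?_ (hR u)
            exact_mod_cast Finset.card_le_card (fun t ht => by
              rw [Finset.mem_filter, hT, Finset.mem_filter] at ht
              rw [Finset.mem_filter]
              refine ⟨ht.1.1, ?_⟩
              rw [← ht.2, hg]
              simp only
              rw [mul_assoc, inv_mul_cancel₀ ht.1.2, mul_one])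
    split_ifs
    · exact h5
    · exact le_trans (by positivity) h5
  refine (Finset.sum_le_sum (fun u _ => h4 u)).trans ?_
  rw [← Finset.mul_sum, Finset.sum_fiberwise T g (fun t => ‖∏ i, θ (t i)‖ ^ 2)]
  have hR0 : 0 ≤ R := le_trans (Nat.cast_nonneg _) (hR 0)
  refine mul_le_mul_of_nonneg_left ?_ hR0
  rw [Finset.sum_pow']
  refine (Finset.sum_le_sum_of_subset_of_nonneg (Finset.filter_subset _ _)
    (fun _ _ _ => by positivity)).trans (le_of_eq ?_)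
  refine Finset.sum_congr rfl (fun t _ => ?_)
  rw [norm_prod, Finset.prod_pow]

theorem chars_kf (𝒜 : Finset (DirichletCharacter ℂ q)) (h𝒜 : 𝒜.Nonempty)
    (P : Finset (ℕ × ℕ)) (k : ℕ) (R : ℝ) (hk : 1 ≤ k)
    (hR : ∀ u : ZMod q, (((Fintype.piFinset (fun _ : Fin k => P)).filter (fun t =>
      ((∏ i, (t i).1 : ℕ) : ZMod q) = u * ((∏ i, (t i).2 : ℕ) : ZMod q))).card : ℝ) ≤ R) :
    (∑ p ∈ P, va 𝒜 p) ^ k ≤ hh 𝒜 * R := by
  have hR0 : 0 ≤ R := le_trans (Nat.cast_nonneg _) (hR 0)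
  have hN : (0 : ℝ) < 𝒜.card := by exact_mod_cast h𝒜.card_pos
  have hNC : (𝒜.card : ℂ) ≠ 0 := by exact_mod_cast h𝒜.card_pos.ne'
  set S := ∑ p ∈ P, va 𝒜 p with hS
  set θ : ℕ × ℕ → ℂ := fun p => conj (fc 𝒜 p / 𝒜.card) with hθ
  have hθS : ∑ p ∈ P, ‖θ p‖ ^ 2 = S := by
    rw [hS]
    refine Finset.sum_congr rfl (fun p _ => ?_)
    rw [hθ, va]
    simp only
    rw [Complex.norm_conj, norm_div, Complex.norm_natCast]
  have hS0 : 0 ≤ S := by
    rw [← hθS]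
    exact Finset.sum_nonneg (fun _ _ => by positivity)
  set D : DirichletCharacter ℂ q → ℂ :=
    fun χ => ∑ p ∈ P, θ p * (χ (p.1 : ZMod q) * conj (χ (p.2 : ZMod q))) with hD
  have h1 : (S : ℂ) = ∑ χ ∈ 𝒜, (1 / (𝒜.card : ℂ)) * D χ := by
    rw [← Finset.mul_sum, hD, Finset.sum_comm, ← hθS]
    push_cast
    rw [Finset.mul_sum]
    refine Finset.sum_congr rfl (fun p _ => ?_)
    rw [← Finset.mul_sum]
    have h2 : ∑ χ ∈ 𝒜, χ (p.1 : ZMod q) * conj (χ (p.2 : ZMod q)) = fc 𝒜 p := rfl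
    have h3 : ((‖θ p‖ : ℂ)) ^ 2 = conj (θ p) * θ p := by
      rw [mul_comm, Complex.mul_conj, Complex.normSq_eq_norm_sq]
      push_cast
      rfl
    have h4 : conj (θ p) = fc 𝒜 p / 𝒜.card := by
      rw [hθ]
      exact Complex.conj_conj _
    rw [h2, h3, h4]
    field_simp
  have h2 : S ≤ ∑ χ ∈ 𝒜, (1 / (𝒜.card : ℝ)) * ‖D χ‖ := by
    have h3 : ‖(S : ℂ)‖ = S := by
      rw [Complex.norm_real, Real.norm_of_nonneg hS0]
    rw [← h3, h1]
    refine (norm_sum_le _ _).trans (le_of_eq ?_)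
    refine Finset.sum_congr rfl (fun χ _ => ?_)
    rw [norm_mul, norm_div, norm_one, Complex.norm_natCast]
  have h3 : S ^ (2 * k) ≤ hh 𝒜 * R * S ^ k := by
    calc S ^ (2 * k) ≤ (∑ χ ∈ 𝒜, (1 / (𝒜.card : ℝ)) * ‖D χ‖) ^ (2 * k) :=
          pow_le_pow_left₀ hS0 h2 _
      _ ≤ ∑ χ ∈ 𝒜, (1 / (𝒜.card : ℝ)) * ‖D χ‖ ^ (2 * k) := by
          refine Real.pow_arith_mean_le_arith_mean_pow _ _ _ (fun _ _ => by positivity) ?_
            (fun _ _ => norm_nonneg _) _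
          rw [Finset.sum_const, nsmul_eq_mul]
          field_simp
      _ = (1 / (𝒜.card : ℝ)) * ∑ χ ∈ 𝒜, ‖(D χ) ^ k‖ ^ 2 := by
          rw [Finset.mul_sum]
          refine Finset.sum_congr rfl (fun χ _ => ?_)
          rw [norm_pow, ← pow_mul, mul_comm k 2]
      _ ≤ (1 / (𝒜.card : ℝ)) * ∑ χ : DirichletCharacter ℂ q, ‖(D χ) ^ k‖ ^ 2 := by
          refine mul_le_mul_of_nonneg_left ?_ (by positivity)
          exact Finset.sum_le_sum_of_subset_of_nonneg (Finset.subset_univ _)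
            (fun _ _ _ => by positivity)
      _ ≤ (1 / (𝒜.card : ℝ)) * (((q - 1 : ℕ) : ℝ) * (R * (∑ p ∈ P, ‖θ p‖ ^ 2) ^ k)) := by
          refine mul_le_mul_of_nonneg_left (chars_moment P k R θ hR) (by positivity)
      _ = hh 𝒜 * R * S ^ k := by
          rw [hθS, hh]
          ring
  have hh0 : 0 ≤ hh 𝒜 * R := by
    unfold hh
    positivity
  rcases hS0.lt_or_eq with hpos | hzero
  · rw [two_mul, pow_add] at h3
    exact le_of_mul_le_mul_right h3 (pow_pos hpos k)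
  · rw [← hzero, zero_pow (by omega)]
    exact hh0

theorem va_kf (𝒜 : Finset (DirichletCharacter ℂ q)) (h𝒜 : 𝒜.Nonempty) : KF q (hh 𝒜) (va 𝒜) := by
  have hN : (0 : ℝ) < 𝒜.card := by exact_mod_cast h𝒜.card_pos
  refine ⟨?_, fun p => by unfold va; positivity, fun p => ?_, fun P k R hk hR =>
    chars_kf 𝒜 h𝒜 P k R hk hR⟩
  · rw [hh, one_le_div hN]
    exact_mod_cast chars_card 𝒜
  · have h1 : ‖fc 𝒜 p‖ ≤ 𝒜.card := by
      refine (norm_sum_le _ _).trans ?_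
      refine (Finset.sum_le_card_nsmul 𝒜 _ 1 (fun χ _ => ?_)).trans (by simp)
      rw [norm_mul, Complex.norm_conj]
      exact mul_le_one₀ (DirichletCharacter.norm_le_one χ _) (norm_nonneg _)
        (DirichletCharacter.norm_le_one χ _)
    unfold va
    exact pow_le_one₀ (by positivity) ((div_le_one hN).2 h1)

end Pool.Agent.H74.TS
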