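import Pool.Agent.H14.PT.Box

/-!
# Weights with the `k`-fold product property

This file is the weighted form of `kfold` (`Pool/Agent/H14/PT/KFold.lean`).  There one counts the
fractions `a / b` of a finite set `P` which lie in a coset of a subgroup `H` of `(ℤ/q)ˣ`.  Here the
indicator function of the coset is replaced by a weight `v` and `Nat.card H` by a real number `h`.

`wkfold`: put `R = D (1 + (8AB)^k / q)`.  By `hv.kf P k R` one has to show that for every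
`u : ZMod q` there are at most `R` tuples `t` in `P^k` with `∏ (t i).1 = u * ∏ (t i).2`.  Exactly as
in the proof of `kfold`: the map `Φ t = (∏ (t i).1, ∏ (t i).2)` has fibres of size at most `D`
(`Finset.card_le_mul_card_image`), and its image on these tuples has at most
`1 + 2^k (2A)^k (2B)^k / q` elements by `slope_count` (with `c = u`, `X = (2A)^k`, `Y = (2B)^k`,
`c0 = 2^k`).
-/

namespace Pool.Agent.H74.TS

open Finset Pool.Agent.H14.PT

/-- a weight on fractions with the `k`-fold product property of constant `h` -/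
structure KF (q : ℕ) (h : ℝ) (v : ℕ × ℕ → ℝ) : Prop where
  one_le : 1 ≤ h
  nonneg : ∀ p, 0 ≤ v p
  le_one : ∀ p, v p ≤ 1
  kf : ∀ (P : Finset (ℕ × ℕ)) (k : ℕ) (R : ℝ), 1 ≤ k →
    (∀ u : ZMod q, (((Fintype.piFinset (fun _ : Fin k => P)).filter (fun t =>
      ((∏ i, (t i).1 : ℕ) : ZMod q) = u * ((∏ i, (t i).2 : ℕ) : ZMod q))).card : ℝ) ≤ R) →
    (∑ p ∈ P, v p) ^ k ≤ h * R

/-- the geometric mean of two weights -/
noncomputable def ww (v1 v2 : ℕ × ℕ → ℝ) (p : ℕ × ℕ) : ℝ := Real.sqrt (v1 p * v2 p)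

/-- reduced fractions in a dyadic box -/
def IB (A B : ℝ) (p : ℕ × ℕ) : Prop :=
  Nat.Coprime p.1 p.2 ∧ p.1 ≠ 0 ∧ p.2 ≠ 0 ∧ (p.1 : ℝ) ≤ 2 * A ∧ B ≤ (p.2 : ℝ) ∧ (p.2 : ℝ) ≤ 2 * B

lemma ww_nonneg (v1 v2 : ℕ × ℕ → ℝ) (p : ℕ × ℕ) : 0 ≤ ww v1 v2 p := Real.sqrt_nonneg _

lemma ww_le_one {q : ℕ} {h1 h2 : ℝ} {v1 v2 : ℕ × ℕ → ℝ} (hv1 : KF q h1 v1) (hv2 : KF q h2 v2)
    (p : ℕ × ℕ) : ww v1 v2 p ≤ 1 := by
  unfold ww
  rw [Real.sqrt_le_left (by norm_num), one_pow]
  exact mul_le_one₀ (hv1.le_one p) (hv2.nonneg p) (hv2.le_one p)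

theorem wkfold {q : ℕ} [NeZero q] {h : ℝ} {v : ℕ × ℕ → ℝ} (hv : KF q h v) (P : Finset (ℕ × ℕ))
    (A B : ℝ) (hA : 0 < A) (hB : 0 < B) (k : ℕ) (hk : 1 ≤ k)
    (hcop : ∀ p ∈ P, ∀ p' ∈ P, Nat.Coprime p.1 p'.2)
    (hbox : ∀ p ∈ P, IB A B p)
    (D : ℕ) (hD : ∀ t : Fin k → ℕ × ℕ, (∀ i, t i ∈ P) →
      dk k (∏ i, (t i).1) * dk k (∏ i, (t i).2) ≤ D) :
    (∑ p ∈ P, v p) ^ k ≤ h * (D * (1 + (8 * A * B) ^ k / q)) := by
  classical
  refine hv.kf P k _ hk fun u => ?_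
  set T : Finset (Fin k → ℕ × ℕ) := (Fintype.piFinset (fun _ : Fin k => P)).filter (fun t =>
      ((∏ i, (t i).1 : ℕ) : ZMod q) = u * ((∏ i, (t i).2 : ℕ) : ZMod q)) with hT
  set Φ : (Fin k → ℕ × ℕ) → ℕ × ℕ := fun t => (∏ i, (t i).1, ∏ i, (t i).2) with hΦ
  have hmem : ∀ t ∈ T, ∀ i, t i ∈ P := fun t ht i =>
    Fintype.mem_piFinset.mp (Finset.mem_filter.mp ht).1 i
  have hcong : ∀ t ∈ T, ((∏ i, (t i).1 : ℕ) : ZMod q) = u * ((∏ i, (t i).2 : ℕ) : ZMod q) :=
    fun t ht => (Finset.mem_filter.mp ht).2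
  have hfib : ∀ b ∈ T.image Φ, (T.filter (fun t => Φ t = b)).card ≤ D := by
    intro b hb
    obtain ⟨t, ht, rfl⟩ := mem_image.mp hb
    refine le_trans ?_ (hD t (hmem t ht))
    unfold dk
    rw [← Finset.card_product]
    refine Finset.card_le_card_of_injOn (fun s => (fun i => (s i).1, fun i => (s i).2)) ?_ ?_
    · intro s hs
      have hs' := Finset.mem_filter.mp (Finset.mem_coe.mp hs)
      simp only [hΦ, Prod.mk.injEq] at hs'
      simp only [coe_product, Set.mem_prod, mem_coe, Nat.mem_finMulAntidiag]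
      refine ⟨⟨hs'.2.1, ?_⟩, hs'.2.2, ?_⟩
      · exact Finset.prod_ne_zero_iff.mpr fun i _ => (hbox _ (hmem t ht i)).2.1
      · exact Finset.prod_ne_zero_iff.mpr fun i _ => (hbox _ (hmem t ht i)).2.2.1
    · intro s _ s' _ hss
      simp only [Prod.mk.injEq] at hss
      funext i
      exact Prod.ext (congrFun hss.1 i) (congrFun hss.2 i)
  have h1 := Finset.card_le_mul_card_image T D hfib
  have h2 : ((T.image Φ).card : ℝ) ≤ 1 + (2 : ℝ) ^ k * (2 * A) ^ k * (2 * B) ^ k / q := by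
    refine slope_count u _ ((2 * A) ^ k) ((2 * B) ^ k) (2 ^ k) (by positivity) (by positivity)
      (by positivity) ?_
    intro b hb
    obtain ⟨t, ht, rfl⟩ := mem_image.mp hb
    have htm := hmem t ht
    simp only [hΦ]
    refine ⟨?_, ?_, ?_, ?_, ?_⟩
    · exact Nat.Coprime.prod_left fun i _ => Nat.Coprime.prod_right fun j _ =>
        hcop _ (htm i) _ (htm j)
    · push_cast
      calc ∏ i, ((t i).1 : ℝ) ≤ ∏ _i : Fin k, (2 * A) :=
            Finset.prod_le_prod (fun i _ => by positivity) fun i _ => (hbox _ (htm i)).2.2.2.1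
        _ = (2 * A) ^ k := by simp
    · push_cast
      calc (2 * B) ^ k / 2 ^ k = ∏ _i : Fin k, B := by
            rw [Finset.prod_const, Finset.card_univ, Fintype.card_fin, mul_pow]
            field_simp
        _ ≤ ∏ i, ((t i).2 : ℝ) :=
            Finset.prod_le_prod (fun i _ => hB.le) fun i _ => (hbox _ (htm i)).2.2.2.2.1
    · push_cast
      calc ∏ i, ((t i).2 : ℝ) ≤ ∏ _i : Fin k, (2 * B) :=
            Finset.prod_le_prod (fun i _ => by positivity) fun i _ => (hbox _ (htm i)).2.2.2.2.2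
        _ = (2 * B) ^ k := by simp
    · exact hcong t ht
  have h1' : (T.card : ℝ) ≤ D * (T.image Φ).card := by exact_mod_cast h1
  refine h1'.trans ?_
  have h3 : (2 : ℝ) ^ k * (2 * A) ^ k * (2 * B) ^ k = (8 * A * B) ^ k := by
    rw [← mul_pow, ← mul_pow]; congr 1; ring
  rw [h3] at h2
  exact mul_le_mul_of_nonneg_left h2 (by positivity)

end Pool.Agent.H74.TS
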