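import Pool.Agent.H14.PT.Param

/-!
# Parameters

As `Pool/Agent/H14/PT/Param.lean`, with the exponent `200` of the smoothness parameter replaced by a
natural number `Z` with `ε Z ≥ 400`, and the length of the mollifier replaced by `exp (ε L / 1000)`.

`bg_facts`: as `big_facts`; everything is an inequality valid for large `L` (for fixed `ε`, `Z`):
powers of `log L` against powers of `L`, powers of `L` against `exp (c L)` (`poly_le_exp` of
`H14/PT/Dyad.lean`).  For `exp3`: `(2 L^Z)^(2/(5Z)) ≤ 2 L^(2/5)`, `1 + log z ≤ 1 + (Z+1) log L` and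
`log L ≤ 10 L^(1/10)` (`log_le_ten_rpow`), so the left side is at most
`6 L^(2/5) (11 + 10 Z) L^(1/10) = (66 + 60 Z) L^(1/2)`, and `L^(1/2) ≥ (66 + 60 Z) / (2 kap)` for
large `L`.
-/

namespace Pool.Agent.H74.TS

open Finset Filter Pool.Agent.H14.PT

/-- smoothness parameter -/
noncomputable def tz (Z : ℕ) (L : ℝ) : ℕ := ⌈L ^ Z⌉₊

/-- length of the mollifiers -/
noncomputable def ty (ε L : ℝ) : ℕ := ⌊Real.exp (ε / 1000 * L)⌋₊

/-- the fractions with `a b ≤ exp (kap L)` are treated precisely -/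
noncomputable def kap (ε : ℝ) (Z : ℕ) : ℝ := ε / (10 ^ 5 * Z)

/-- the inequalities valid for large `L` -/
structure Bg (ε : ℝ) (Z : ℕ) (L : ℝ) : Prop where
  hε : 0 < ε
  hε1 : ε ≤ 1 / 10
  hZ : 400 ≤ ε * Z
  hL24 : 10 ^ 24 ≤ L
  hLε : 10 ^ 6 ≤ ε * L
  hLκ : 10 ^ 6 ≤ kap ε Z * L
  z_lo : L ^ Z ≤ (tz Z L : ℝ)
  z_hi : (tz Z L : ℝ) ≤ 2 * L ^ Z
  logz_lo : Z * Real.log L ≤ Real.log (tz Z L)
  logz_hi : Real.log (tz Z L) ≤ (Z + 1) * Real.log L
  logz_ε : 100 / ε ≤ Real.log (tz Z L)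
  zY : tz Z L ≤ ty ε L
  Y_lo : Real.exp (ε / 1000 * L) / 2 ≤ (ty ε L : ℝ)
  Y_hi : (ty ε L : ℝ) ≤ Real.exp (ε / 1000 * L)
  z_q : (100 / ε) * Real.log (8 * (tz Z L : ℝ)) ≤ L
  exp3 : 3 * (tz Z L : ℝ) ^ (2 * (1 / (5 * Z)) : ℝ) * (1 + Real.log (tz Z L)) ≤ 2 * kap ε Z * L

theorem bg_facts (ε : ℝ) (Z : ℕ) (hε : 0 < ε) (hε1 : ε ≤ 1 / 10) (hZ : 400 ≤ ε * Z) :
    ∃ Q0 : ℝ, ∀ L : ℝ, Q0 ≤ L → Bg ε Z L := by
  have hZ0 : (0 : ℝ) < Z := by
    by_contra hc
    push Not at hc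
    nlinarith
  have hZ4 : (4000 : ℝ) ≤ Z := by nlinarith
  have hκ : 0 < kap ε Z := by
    unfold kap
    positivity
  obtain ⟨Q1, _, hQ1⟩ := poly_le_exp Z 4 (ε / 1000) (by positivity)
  set M1 : ℝ := 100 / ε * (13 + 10 * Z) with hM1
  set M2 : ℝ := (66 + 60 * Z) / (2 * kap ε Z) with hM2
  have hM1p : 0 < M1 := by positivity
  have hM2p : 0 < M2 := by positivity
  refine ⟨max (max Q1 (10 ^ 24)) (max (max (10 ^ 6 / ε) (10 ^ 6 / kap ε Z))
    (max (M1 * M1) (M2 * M2))), ?_⟩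
  intro L hL
  have hLa := (le_max_left _ _).trans hL
  have hLb := (le_max_right _ _).trans hL
  have hL1 : Q1 ≤ L := (le_max_left _ _).trans hLa
  have hL24 : (10 : ℝ) ^ 24 ≤ L := (le_max_right _ _).trans hLa
  have hLc := (le_max_left _ _).trans hLb
  have hLd := (le_max_right _ _).trans hLb
  have hLε : 10 ^ 6 ≤ ε * L := by
    have h := (le_max_left _ _).trans hLc
    rw [div_le_iff₀ hε] at h
    linarith
  have hLκ : 10 ^ 6 ≤ kap ε Z * L := by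
    have h := (le_max_right _ _).trans hLc
    rw [div_le_iff₀ hκ] at h
    linarith
  have hLM1 : M1 * M1 ≤ L := (le_max_left _ _).trans hLd
  have hLM2 : M2 * M2 ≤ L := (le_max_right _ _).trans hLd
  have hLpos : 0 < L := by linarith
  have hLone : 1 ≤ L := by linarith
  have hLs : L ^ (1 / 2 : ℝ) * L ^ (1 / 2 : ℝ) = L := by
    rw [← Real.rpow_add hLpos]; norm_num
  have hs0 : 0 ≤ L ^ (1 / 2 : ℝ) := by positivity
  have hs1 : M1 ≤ L ^ (1 / 2 : ℝ) := by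
    by_contra hc
    push Not at hc
    nlinarith
  have hs2 : M2 ≤ L ^ (1 / 2 : ℝ) := by
    by_contra hc
    push Not at hc
    nlinarith
  have hLZ : 1 ≤ L ^ Z := one_le_pow₀ hLone
  have hz_lo : L ^ Z ≤ (tz Z L : ℝ) := Nat.le_ceil _
  have hz_hi : (tz Z L : ℝ) ≤ 2 * L ^ Z := by
    have := Nat.ceil_lt_add_one (show (0 : ℝ) ≤ L ^ Z by positivity)
    unfold tz
    linarith
  have hz0 : (0 : ℝ) < tz Z L := by linarith
  have hlogL : Real.log 2 ≤ Real.log L := Real.log_le_log (by norm_num) (by linarith)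
  have hlog2 : 0 < Real.log 2 := Real.log_pos (by norm_num)
  have hlogz_lo : Z * Real.log L ≤ Real.log (tz Z L) := by
    have h := Real.log_le_log (by positivity) hz_lo
    rwa [Real.log_pow] at h
  have hlogz_hi : Real.log (tz Z L) ≤ (Z + 1) * Real.log L := by
    have h := Real.log_le_log hz0 hz_hi
    rw [Real.log_mul (by norm_num) (by positivity), Real.log_pow] at h
    linarith
  have hloghalf : 1 / 2 ≤ Real.log L := by
    have h2 := Real.log_two_gt_d9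
    linarith
  have hlogz_ε : 100 / ε ≤ Real.log (tz Z L) := by
    rw [div_le_iff₀ hε]
    have h1 : (Z : ℝ) * (1 / 2) ≤ Real.log (tz Z L) :=
      (mul_le_mul_of_nonneg_left hloghalf hZ0.le).trans hlogz_lo
    nlinarith
  have hpe := hQ1 L hL1
  have hY_hi : (ty ε L : ℝ) ≤ Real.exp (ε / 1000 * L) := Nat.floor_le (by positivity)
  have hY_lo : Real.exp (ε / 1000 * L) / 2 ≤ (ty ε L : ℝ) := by
    have := Nat.lt_floor_add_one (Real.exp (ε / 1000 * L))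
    unfold ty
    linarith
  have hzY : tz Z L ≤ ty ε L := by
    have : (tz Z L : ℝ) ≤ ty ε L := by linarith
    exact_mod_cast this
  have hll := log_le_ten_rpow hLpos.le
  have hL10 : 1 ≤ L ^ (1 / 10 : ℝ) := Real.one_le_rpow hLone (by norm_num)
  have hL110 : L ^ (1 / 10 : ℝ) ≤ L ^ (1 / 2 : ℝ) :=
    Real.rpow_le_rpow_of_exponent_le hLone (by norm_num)
  have hlz : Real.log (tz Z L) ≤ (10 * Z + 10) * L ^ (1 / 10 : ℝ) := by
    calc Real.log (tz Z L) ≤ (Z + 1) * Real.log L := hlogz_hi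
      _ ≤ (Z + 1) * (10 * L ^ (1 / 10 : ℝ)) := by gcongr
      _ = (10 * Z + 10) * L ^ (1 / 10 : ℝ) := by ring
  have hz_q : (100 / ε) * Real.log (8 * (tz Z L : ℝ)) ≤ L := by
    rw [Real.log_mul (by norm_num) hz0.ne']
    have h8 : Real.log 8 ≤ 3 := by
      rw [show (8 : ℝ) = 2 ^ 3 by norm_num, Real.log_pow]
      have := Real.log_two_lt_d9
      push_cast
      linarith
    have h1 : Real.log 8 + Real.log (tz Z L) ≤ (13 + 10 * Z) * L ^ (1 / 2 : ℝ) := by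
      have h2 : (10 * (Z : ℝ) + 10) * L ^ (1 / 10 : ℝ) ≤ (10 * Z + 10) * L ^ (1 / 2 : ℝ) := by
        gcongr
      nlinarith
    calc (100 / ε) * (Real.log 8 + Real.log (tz Z L))
        ≤ (100 / ε) * ((13 + 10 * Z) * L ^ (1 / 2 : ℝ)) := by gcongr
      _ = M1 * L ^ (1 / 2 : ℝ) := by rw [hM1]; ring
      _ ≤ L ^ (1 / 2 : ℝ) * L ^ (1 / 2 : ℝ) := by gcongr
      _ = L := hLs
  have hexp3 : 3 * (tz Z L : ℝ) ^ (2 * (1 / (5 * Z)) : ℝ) * (1 + Real.log (tz Z L)) ≤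
      2 * kap ε Z * L := by
    have hex0 : (0 : ℝ) ≤ 2 * (1 / (5 * Z)) := by positivity
    have hex1 : (2 : ℝ) * (1 / (5 * Z)) ≤ 1 := by
      rw [mul_one_div, div_le_one (by positivity)]
      linarith
    have h1 : (tz Z L : ℝ) ^ (2 * (1 / (5 * Z)) : ℝ) ≤ 2 * L ^ (4 / 10 : ℝ) := by
      calc (tz Z L : ℝ) ^ (2 * (1 / (5 * Z)) : ℝ) ≤ (2 * L ^ Z) ^ (2 * (1 / (5 * Z)) : ℝ) :=
            Real.rpow_le_rpow hz0.le hz_hi hex0
        _ = (2 : ℝ) ^ (2 * (1 / (5 * Z)) : ℝ) * (L ^ Z) ^ (2 * (1 / (5 * Z)) : ℝ) := by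
            rw [Real.mul_rpow (by norm_num) (by positivity)]
        _ ≤ 2 * L ^ (4 / 10 : ℝ) := by
            have e1 : (2 : ℝ) ^ (2 * (1 / (5 * Z)) : ℝ) ≤ 2 := by
              calc (2 : ℝ) ^ (2 * (1 / (5 * Z)) : ℝ) ≤ (2 : ℝ) ^ (1 : ℝ) :=
                    Real.rpow_le_rpow_of_exponent_le (by norm_num) hex1
                _ = 2 := Real.rpow_one _
            have e2 : (L ^ Z) ^ (2 * (1 / (5 * Z)) : ℝ) = L ^ (4 / 10 : ℝ) := by
              rw [← Real.rpow_natCast, ← Real.rpow_mul hLpos.le]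
              congr 1
              field_simp
              norm_num
            rw [e2]
            gcongr
    have h2 : 1 + Real.log (tz Z L) ≤ (11 + 10 * Z) * L ^ (1 / 10 : ℝ) := by nlinarith
    have h3 : L ^ (4 / 10 : ℝ) * L ^ (1 / 10 : ℝ) = L ^ (1 / 2 : ℝ) := by
      rw [← Real.rpow_add hLpos]; norm_num
    have h4 : 0 ≤ 1 + Real.log (tz Z L) := by
      have : 0 < 100 / ε := by positivity
      linarith
    calc 3 * (tz Z L : ℝ) ^ (2 * (1 / (5 * Z)) : ℝ) * (1 + Real.log (tz Z L))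
        ≤ 3 * (2 * L ^ (4 / 10 : ℝ)) * ((11 + 10 * Z) * L ^ (1 / 10 : ℝ)) := by
          gcongr
      _ = (66 + 60 * Z) * (L ^ (4 / 10 : ℝ) * L ^ (1 / 10 : ℝ)) := by ring
      _ = (2 * kap ε Z * M2) * L ^ (1 / 2 : ℝ) := by
          rw [h3, hM2]
          field_simp
      _ ≤ (2 * kap ε Z * L ^ (1 / 2 : ℝ)) * L ^ (1 / 2 : ℝ) := by gcongr
      _ = 2 * kap ε Z * (L ^ (1 / 2 : ℝ) * L ^ (1 / 2 : ℝ)) := by ring
      _ = 2 * kap ε Z * L := by rw [hLs]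
  exact ⟨hε, hε1, hZ, hL24, hLε, hLκ, hz_lo, hz_hi, hlogz_lo, hlogz_hi, hlogz_ε, hzY, hY_lo,
    hY_hi, hz_q, hexp3⟩

namespace Bg

variable {ε L : ℝ} {Z : ℕ}

lemma hL (h : Bg ε Z L) : 100 ≤ L := by linarith [h.hL24]

lemma Lpos (h : Bg ε Z L) : 0 < L := by linarith [h.hL]

lemma Zpos (h : Bg ε Z L) : (0 : ℝ) < Z := by
  have h1 := h.hZ
  have h2 := h.hε
  by_contra hc
  push Not at hc
  nlinarith

lemma Zbig (h : Bg ε Z L) : (4000 : ℝ) ≤ Z := by
  have h1 := h.hZ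
  have h2 := h.hε1
  have h3 := h.Zpos
  nlinarith

lemma kpos (h : Bg ε Z L) : 0 < kap ε Z := by
  unfold kap
  have h1 := h.hε
  have h2 := h.Zpos
  positivity

lemma kle (h : Bg ε Z L) : kap ε Z ≤ ε / 10 ^ 8 := by
  unfold kap
  have h1 := h.hε
  have h2 := h.Zbig
  apply div_le_div_of_nonneg_left h1.le (by norm_num)
  nlinarith

lemma logz_1000 (h : Bg ε Z L) : 1000 ≤ Real.log (tz Z L) := by
  have h1 := h.hε
  have h2 := h.hε1
  have h3 : 1000 ≤ 100 / ε := by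
    rw [le_div_iff₀ h1]
    linarith
  exact h3.trans h.logz_ε

lemma z_two (h : Bg ε Z L) : 2 ≤ tz Z L := by
  have h1 := h.logz_1000
  by_contra h2
  have : tz Z L = 0 ∨ tz Z L = 1 := by omega
  rcases this with h3 | h3 <;> rw [h3] at h1 <;> norm_num at h1

lemma Y_pos (h : Bg ε Z L) : (0 : ℝ) < ty ε L := lt_of_lt_of_le (by positivity) h.Y_lo

lemma Y_two (h : Bg ε Z L) : 2 ≤ ty ε L := h.z_two.trans h.zY

lemma logY_hi (h : Bg ε Z L) : Real.log (ty ε L) ≤ ε / 1000 * L := by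
  have h1 := Real.log_le_log h.Y_pos h.Y_hi
  rwa [Real.log_exp] at h1

lemma logY_lo (h : Bg ε Z L) : ε / 2000 * L ≤ Real.log (ty ε L) := by
  have h1 := Real.log_le_log (by positivity) h.Y_lo
  rw [Real.log_div (by positivity) (by norm_num), Real.log_exp] at h1
  have h2 := Real.log_two_lt_d9
  have h3 := h.hLε
  linarith

/-- `Y ≤ exp (L / 1000)` -/
lemma Y_hi' (h : Bg ε Z L) : (ty ε L : ℝ) ≤ Real.exp (L / 1000) := by
  refine h.Y_hi.trans (Real.exp_le_exp.mpr ?_)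
  have h1 := h.hε1
  have h2 := h.Lpos
  nlinarith

lemma zL (h : Bg ε Z L) : 1 + Real.log (tz Z L) ≤ L := by
  have h1 := h.z_q
  have hz0 : (0 : ℝ) < tz Z L := by exact_mod_cast (by have := h.z_two; omega : 0 < tz Z L)
  rw [Real.log_mul (by norm_num) hz0.ne'] at h1
  have h8 : 0 < Real.log 8 := Real.log_pos (by norm_num)
  have h2 := h.logz_1000
  have h3 : 1000 ≤ 100 / ε := by
    rw [le_div_iff₀ h.hε]
    linarith [h.hε1]
  nlinarith

end Bg

end Pool.Agent.H74.TS
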