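import Pool.Agent.H74.TS.Main
import Pool.Agent.H14.Defs

/-!
# Nonvanishing of central values in product sets of characters of prime conductor
-/

namespace Pool.Agent.H74.TS

open Pool.Agent.H14

theorem main_result (ε : ℝ) (hε : 0 < ε) : ∃ c : ℝ, 0 < c ∧ ∃ q₀ : ℕ, ∀ (q : ℕ) [Fact q.Prime],
    q₀ ≤ q → ∀ A B : Finset (DirichletCharacter ℂ q),
      (q : ℝ) ^ (2 + ε) ≤ (A.card : ℝ) * (B.card : ℝ) ^ 2 →
      c * ((A.card : ℝ) * B.card) ≤
        (Nat.card {x : DirichletCharacter ℂ q × DirichletCharacter ℂ q //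
          x.1 ∈ A ∧ x.2 ∈ B ∧ x.1 * x.2 ≠ 1 ∧ artinL (x.1 * x.2) (1 / 2) ≠ 0} : ℝ) := by
  classical
  obtain ⟨c, hc, Q0, hmain⟩ := wcount ε hε
  refine ⟨c, hc, ⌈Real.exp Q0⌉₊, ?_⟩
  intro q _ hq A B hAB
  have hqp : q.Prime := Fact.out
  have hq0 : (0 : ℝ) < q := by exact_mod_cast hqp.pos
  have hQ : Q0 ≤ Real.log q := by
    rw [Real.le_log_iff_exp_le hq0]
    exact (Nat.le_ceil _).trans (by exact_mod_cast hq)
  have h := hmain q hQ A B hAB
    ((A ×ˢ B).filter (fun x => x.1 * x.2 ≠ 1 ∧ artinL (x.1 * x.2) (1 / 2) ≠ 0)) (by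
      intro x hx h1 h2
      exact Finset.mem_filter.mpr ⟨hx, h1, artinL_ne_zero_of_LFunction_ne_zero (by norm_num) h2⟩)
  refine h.trans (le_of_eq ?_)
  rw [Nat.card_eq_fintype_card, Fintype.card_subtype]
  congr 2
  ext x
  simp only [Finset.mem_filter, Finset.mem_product, Finset.mem_univ, true_and]
  tauto

end Pool.Agent.H74.TS
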