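import Pool.Agent.H74.TS.KFB
import Pool.Agent.H14.PT.BoxL

/-!
# Box bounds for the weights, large regime

`wbox_tau` and `wbox_tau_log` are `box_tau` and `box_tau_log` of `Pool/Agent/H14/PT/BoxL.lean` with
`P.card` replaced by `∑ p ∈ P, v p` and `Nat.card H` by `h` (use `wbox_bound`, `hv.one_le`).
-/

namespace Pool.Agent.H74.TS

open Finset Pool.Agent.H14.PT

theorem wbox_tau (η C : ℝ) (hη : 0 < η) (hC : 1 ≤ C)
    (hdiv : ∀ n : ℕ, n ≠ 0 → (n.divisors.card : ℝ) ≤ C * (n : ℝ) ^ η)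
    {q : ℕ} [NeZero q] {h : ℝ} {v : ℕ × ℕ → ℝ} (hv : KF q h v) (P : Finset (ℕ × ℕ))
    (A B : ℝ) (hA : 1 ≤ A) (hB : 1 ≤ B) (k : ℕ) (hk : 1 ≤ k)
    (hP : ∀ p ∈ P, IB A B p) :
    ∑ p ∈ P, v p ≤ C ^ 3 * (8 * A * B) ^ ((k + 1) * η) *
      (h * (1 + (8 * A * B) ^ k / q)) ^ (1 / (k : ℝ)) := by
  classical
  have hk0 : (0 : ℝ) < k := by exact_mod_cast hk
  have h8 : (8 : ℝ) ≤ 8 * A * B := by nlinarith [mul_le_mul hA hB (by norm_num) (by linarith)]
  have hprod : ∀ p ∈ P, ((p.1 * p.2 : ℕ) : ℝ) ≤ 8 * A * B := by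
    intro p hp
    obtain ⟨_, h1, h2, h3, _, h5⟩ := hP p hp
    push_cast
    calc (p.1 : ℝ) * p.2 ≤ (2 * A) * (2 * B) := by gcongr
      _ ≤ 8 * A * B := by nlinarith
  set w := ⌊Real.log (C * (8 * A * B) ^ η) / Real.log 2⌋₊ with hw
  have hl2 : 0 < Real.log 2 := Real.log_pos (by norm_num)
  have hCT : 1 ≤ C * (8 * A * B) ^ η := by
    have : (1 : ℝ) ≤ (8 * A * B) ^ η := Real.one_le_rpow (by linarith) hη.le
    nlinarith
  have hwP : ∀ p ∈ P, (p.1 * p.2).primeFactors.card ≤ w := by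
    intro p hp
    obtain ⟨_, h1, h2, _⟩ := hP p hp
    have hn : p.1 * p.2 ≠ 0 := Nat.mul_ne_zero h1 h2
    rw [hw]
    apply Nat.le_floor
    rw [le_div_iff₀ hl2, ← Real.log_pow]
    apply Real.log_le_log (by positivity)
    have e1 : ((2 : ℝ) ^ (p.1 * p.2).primeFactors.card) ≤ ((p.1 * p.2).divisors.card : ℝ) := by
      exact_mod_cast two_pow_omega_le _ hn
    refine e1.trans ((hdiv _ hn).trans ?_)
    gcongr
    exact hprod p hp
  have h2w : (2 : ℝ) ^ w ≤ C * (8 * A * B) ^ η := by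
    have e1 := Nat.floor_le (show 0 ≤ Real.log (C * (8 * A * B) ^ η) / Real.log 2 from
      div_nonneg (Real.log_nonneg hCT) hl2.le)
    rw [← hw, le_div_iff₀ hl2, ← Real.log_pow] at e1
    exact (Real.log_le_log_iff (by positivity) (by positivity)).mp e1
  set D := ⌊C ^ (2 * k) * ((8 * A * B) ^ η) ^ (k * k)⌋₊ with hD
  have hDt : ∀ t : Fin k → ℕ × ℕ, (∀ i, t i ∈ P) →
      dk k (∏ i, (t i).1) * dk k (∏ i, (t i).2) ≤ D := by
    intro t ht
    have hx : ∏ i, (t i).1 ≠ 0 := Finset.prod_ne_zero_iff.mpr fun i _ => (hP _ (ht i)).2.1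
    have hy : ∏ i, (t i).2 ≠ 0 := Finset.prod_ne_zero_iff.mpr fun i _ => (hP _ (ht i)).2.2.1
    apply Nat.le_floor
    push_cast
    have e1 : (dk k (∏ i, (t i).1) : ℝ) ≤ (C * ((∏ i, (t i).1 : ℕ) : ℝ) ^ η) ^ k := by
      have := dk_le_tau k (∏ i, (t i).1)
      calc (dk k (∏ i, (t i).1) : ℝ) ≤ (((∏ i, (t i).1).divisors.card : ℕ) : ℝ) ^ k := by exact_mod_cast this
        _ ≤ _ := pow_le_pow_left₀ (by positivity) (hdiv _ hx) k
    have e2 : (dk k (∏ i, (t i).2) : ℝ) ≤ (C * ((∏ i, (t i).2 : ℕ) : ℝ) ^ η) ^ k := by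
      have := dk_le_tau k (∏ i, (t i).2)
      calc (dk k (∏ i, (t i).2) : ℝ) ≤ (((∏ i, (t i).2).divisors.card : ℕ) : ℝ) ^ k := by exact_mod_cast this
        _ ≤ _ := pow_le_pow_left₀ (by positivity) (hdiv _ hy) k
    have e3 : ((∏ i, (t i).1 : ℕ) : ℝ) ^ η * ((∏ i, (t i).2 : ℕ) : ℝ) ^ η ≤ ((8 * A * B) ^ η) ^ k := by
      rw [← Real.mul_rpow (by positivity) (by positivity), ← Real.rpow_natCast ((8 * A * B) ^ η),
        ← Real.rpow_mul (by positivity), mul_comm η, Real.rpow_mul (by positivity)]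
      apply Real.rpow_le_rpow (by positivity) _ hη.le
      rw [Real.rpow_natCast]
      push_cast
      rw [← Finset.prod_mul_distrib]
      calc ∏ i, ((t i).1 : ℝ) * (t i).2 ≤ ∏ _i : Fin k, (8 * A * B) := by
            refine Finset.prod_le_prod (fun i _ => by positivity) fun i _ => ?_
            have := hprod _ (ht i)
            push_cast at this
            exact this
        _ = _ := by simp
    calc (dk k (∏ i, (t i).1) : ℝ) * dk k (∏ i, (t i).2)
        ≤ (C * ((∏ i, (t i).1 : ℕ) : ℝ) ^ η) ^ k * (C * ((∏ i, (t i).2 : ℕ) : ℝ) ^ η) ^ k := by gcongr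
      _ = C ^ (2 * k) * (((∏ i, (t i).1 : ℕ) : ℝ) ^ η * ((∏ i, (t i).2 : ℕ) : ℝ) ^ η) ^ k := by
          rw [mul_pow, mul_pow, mul_pow, two_mul, pow_add]; ring
      _ ≤ C ^ (2 * k) * (((8 * A * B) ^ η) ^ k) ^ k := by gcongr
      _ = _ := by rw [← pow_mul]
  have hbb := wbox_bound hv P A B (by linarith) (by linarith) k hk w D hP hwP hDt
  have hq : (0 : ℝ) < q := by exact_mod_cast Nat.pos_of_ne_zero (NeZero.ne q)
  have hcH : (1 : ℝ) ≤ h := hv.one_le
  set S : ℝ := h * (1 + (8 * A * B) ^ k / q) with hS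
  have hSpos : 0 < S := by positivity
  have hDle : (D : ℝ) ≤ C ^ (2 * k) * ((8 * A * B) ^ η) ^ (k * k) := Nat.floor_le (by positivity)
  have e4 : (C ^ (2 * k) * ((8 * A * B) ^ η) ^ (k * k)) ^ (1 / (k : ℝ)) = C ^ 2 * (8 * A * B) ^ (k * η) := by
    rw [Real.mul_rpow (by positivity) (by positivity)]
    congr 1
    · rw [← Real.rpow_natCast, ← Real.rpow_mul (by positivity), ← Real.rpow_natCast]
      congr 1; push_cast; field_simp
    · rw [← Real.rpow_natCast, ← Real.rpow_mul (by positivity), ← Real.rpow_mul (by positivity)]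
      congr 1; push_cast; field_simp
  calc ∑ p ∈ P, v p ≤ 2 ^ w * ((D : ℝ) * S) ^ (1 / (k : ℝ)) := hbb
    _ ≤ (C * (8 * A * B) ^ η) * ((C ^ (2 * k) * ((8 * A * B) ^ η) ^ (k * k)) * S) ^ (1 / (k : ℝ)) := by
        gcongr
    _ = (C * (8 * A * B) ^ η) * ((C ^ 2 * (8 * A * B) ^ (k * η)) * S ^ (1 / (k : ℝ))) := by
        rw [Real.mul_rpow (x := C ^ (2 * k) * ((8 * A * B) ^ η) ^ (k * k)) (y := S)
          (by positivity) (by positivity), e4]
    _ = C ^ 3 * ((8 * A * B) ^ η * (8 * A * B) ^ (k * η)) * S ^ (1 / (k : ℝ)) := by ring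
    _ = _ := by
        rw [← Real.rpow_add (by positivity)]
        congr 3; ring

theorem wbox_tau_log (η C : ℝ) (hη : 0 < η) (hC : 1 ≤ C)
    (hdiv : ∀ n : ℕ, n ≠ 0 → (n.divisors.card : ℝ) ≤ C * (n : ℝ) ^ η)
    {q : ℕ} [NeZero q] {h : ℝ} {v : ℕ × ℕ → ℝ} (hv : KF q h v) (P : Finset (ℕ × ℕ))
    (A B : ℝ) (hA : 1 ≤ A) (hB : 1 ≤ B) (k : ℕ) (hk : 1 ≤ k)
    (hP : ∀ p ∈ P, IB A B p) (hne : 0 < ∑ p ∈ P, v p) :
    Real.log (∑ p ∈ P, v p) ≤ 3 * Real.log C + (k + 1) * η * Real.log (8 * A * B) +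
      (Real.log h + Real.log 2 + max 0 (k * Real.log (8 * A * B) - Real.log q)) / k := by
  have hk0 : (0 : ℝ) < k := by exact_mod_cast hk
  have hb := wbox_tau η C hη hC hdiv hv P A B hA hB k hk hP
  have hq : (0 : ℝ) < q := by exact_mod_cast Nat.pos_of_ne_zero (NeZero.ne q)
  have hcH : (1 : ℝ) ≤ h := hv.one_le
  have hcH0 : (0 : ℝ) < h := by linarith
  have hT : 0 < 8 * A * B := by positivity
  have h1 : 1 + (8 * A * B) ^ k / q ≤ 2 * Real.exp (max 0 (k * Real.log (8 * A * B) - Real.log q)) := by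
    have e1 : (8 * A * B) ^ k / q = Real.exp (k * Real.log (8 * A * B) - Real.log q) := by
      rw [Real.exp_sub, Real.exp_nat_mul, Real.exp_log hT, Real.exp_log hq]
    have e2 : Real.exp (k * Real.log (8 * A * B) - Real.log q)
        ≤ Real.exp (max 0 (k * Real.log (8 * A * B) - Real.log q)) :=
      Real.exp_le_exp.mpr (le_max_right _ _)
    have e3 : 1 ≤ Real.exp (max 0 (k * Real.log (8 * A * B) - Real.log q)) :=
      Real.one_le_exp (le_max_left _ _)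
    rw [e1]
    linarith
  have h2 : ∑ p ∈ P, v p ≤ C ^ 3 * (8 * A * B) ^ ((k + 1) * η) *
      (h * (2 * Real.exp (max 0 (k * Real.log (8 * A * B) - Real.log q)))) ^ (1 / (k : ℝ)) := by
    refine hb.trans ?_
    gcongr
  have h3 := Real.log_le_log hne h2
  refine h3.trans (le_of_eq ?_)
  generalize 8 * A * B = T at hT ⊢
  rw [Real.log_mul (by positivity) (by positivity), Real.log_mul (by positivity) (by positivity),
    Real.log_pow, Real.log_rpow hT, Real.log_rpow (by positivity),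
    Real.log_mul (by positivity) (by positivity), Real.log_mul (by norm_num) (by positivity),
    Real.log_exp]
  push_cast
  ring

end Pool.Agent.H74.TS
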